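import Pool.Agent.W379.Final

set_option autoImplicit false

namespace Pool.Agent.W379.Ds

open FreeGroup (of lift mk)
open Pool.Agent.W379.MH
open scoped commutatorElement

theorem lift_iP {K : Type} [Group K] (F : Fin 7 → K) (u : P →* K)
    (h0 : F 0 = u h) (h1 : F 1 = u p) (h2 : F 2 = u v) (x : P) : lift F (iP x) = u x := by
  have : (lift F).comp iP = u := by
    apply FreeGroup.ext_hom
    intro i
    rw [MonoidHom.comp_apply, iP, FreeGroup.lift_apply_of]
    fin_cases i
    · show lift F (of 0) = u (of 0)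
      rw [FreeGroup.lift_apply_of]; exact h0
    · show lift F (of 1) = u (of 1)
      rw [FreeGroup.lift_apply_of]; exact h1
    · show lift F (of 2) = u (of 2)
      rw [FreeGroup.lift_apply_of]; exact h2
  exact DFunLike.congr_fun this x

section
variable {G : Type} [Group G] {of' : P →* G} {t : Ltr → G}

/-- the images of the generators -/
noncomputable def FF (of' : P →* G) (t : Ltr → G) (S : Subgroup G) : Fin 7 → Wr.WW S :=
  ![SemidirectProduct.inr (of' h), SemidirectProduct.inr (of' p), SemidirectProduct.inr (of' v),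
    SemidirectProduct.inr (t .T), SemidirectProduct.inr (t .H), SemidirectProduct.inr (t .N),
    Wr.x0 S]

theorem FF_iP (S : Subgroup G) (x : P) :
    lift (FF of' t S) (iP x) = SemidirectProduct.inr (of' x) :=
  lift_iP (FF of' t S) ((SemidirectProduct.inr : G →* Wr.WW S).comp of') rfl rfl rfl x

theorem FF_st (S : Subgroup G) (i : Ltr) :
    lift (FF of' t S) (st i) = SemidirectProduct.inr (t i) := by
  cases i
  · show lift (FF of' t S) (of 3) = _
    rw [FreeGroup.lift_apply_of]; rfl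
  · show lift (FF of' t S) (of 4) = _
    rw [FreeGroup.lift_apply_of]; rfl
  · show lift (FF of' t S) (of 5) = _
    rw [FreeGroup.lift_apply_of]; rfl

theorem FF_xx (S : Subgroup G) : lift (FF of' t S) xx = Wr.x0 S := by
  show lift (FF of' t S) (of 6) = _
  rw [FreeGroup.lift_apply_of]; rfl

theorem FF_rel (hS : Sol f g G of' t) :
    ∀ r ∈ RR, lift (FF of' t (lift t).range) r = 1 := by
  have base : ∀ (i : Ltr) (q : FreeGroup (Fin (rk i))),
      lift (FF of' t (lift t).range) (rl i (f i q) (g i q)) = 1 := by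
    intro i q
    rw [rl, map_mul, map_mul, map_mul, map_inv, map_inv, FF_iP, FF_iP, FF_st, mul_inv_eq_one,
      mul_inv_eq_iff_eq_mul, ← map_mul, ← map_mul, hS.rel]
  have comm : ∀ i : Ltr, lift (FF of' t (lift t).range) ⁅xx, st i⁆ = 1 := by
    intro i
    rw [map_commutatorElement, FF_xx, FF_st, commutatorElement_eq_one_iff_commute]
    apply Wr.x0_comm
    exact ⟨of i, by simp⟩
  intro r hr
  simp only [RR, Finset.mem_insert, Finset.mem_singleton] at hr
  rcases hr with rfl | rfl | rfl | rfl | rfl | rfl | rfl | rfl | rfl | rfl | rfl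
  · have := base .T (of (0 : Fin 3)); change lift _ (rl .T (fT (of 0)) (gT (of 0))) = 1 at this
    rwa [fT0, gT0] at this
  · have := base .T (of (1 : Fin 3)); change lift _ (rl .T (fT (of 1)) (gT (of 1))) = 1 at this
    rwa [fT1, gT1] at this
  · have := base .T (of (2 : Fin 3)); change lift _ (rl .T (fT (of 2)) (gT (of 2))) = 1 at this
    rwa [fT2, gT2] at this
  · have := base .H (of (0 : Fin 3)); change lift _ (rl .H (fH (of 0)) (gH (of 0))) = 1 at this
    rwa [fH0, gH0] at this
  · have := base .H (of (1 : Fin 3)); change lift _ (rl .H (fH (of 1)) (gH (of 1))) = 1 at this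
    rwa [fH1, gH1] at this
  · have := base .H (of (2 : Fin 3)); change lift _ (rl .H (fH (of 2)) (gH (of 2))) = 1 at this
    rwa [fH2, gH2] at this
  · have := base .N (of (0 : Fin 2)); change lift _ (rl .N (fN (of 0)) (gN (of 0))) = 1 at this
    rwa [fN0, gN0] at this
  · have := base .N (of (1 : Fin 2)); change lift _ (rl .N (fN (of 1)) (gN (of 1))) = 1 at this
    rwa [fN1, gN1] at this
  · exact comm _
  · exact comm _
  · exact comm _

end

/-- the target -/
theorem target : ∃ (G : Type) (_ : Group G) (S : Subgroup G) (d : G) (φ : LL RR →* Wr.WW S),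
    φ (qq RR DDD) = Wr.DD S d ∧ d ∉ S ∧
    ¬ ∃ F : ℕ → G ⧸ S, ∀ i j, i < j → Wr.AdjO S d (F i) (F j) := by
  obtain ⟨G, hG, of', t, hS⟩ := exists_sol (P := P) Ltr (fun i => FreeGroup (Fin (rk i)))
    (fun _ => inferInstance) f g f_inj g_inj
  have hd : of' d0 ∉ (lift t : FreeGroup Ltr →* G).range := by
    rintro ⟨s, hs⟩
    have h1 : of' d0 * lift t 1 = lift t s * of' 1 := by simp [hs]
    have h2 := hS.transport h1
    rw [h2, map_one] at hs
    have h3 : d0 = 1 := hS.inj (by rw [← hs, map_one])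
    have h4 := EE_d0
    rw [h3] at h4
    exact lad.one_not h4
  refine ⟨G, hG, (lift t).range, of' d0,
    PresentedGroup.toGroup (f := FF of' t (lift t).range) (fun r hr => FF_rel hS r (by exact_mod_cast hr)),
    ?_, hd, ?_⟩
  · have h1 : ∀ w : FreeGroup (Fin 7), PresentedGroup.toGroup (f := FF of' t (lift t).range)
        (fun r hr => FF_rel hS r (by exact_mod_cast hr)) (qq RR w) =
        lift (FF of' t (lift t).range) w := fun w => rfl
    rw [h1, DDD, Wr.DD]
    simp only [map_mul, map_inv, FF_iP, FF_xx]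
  · rintro ⟨F, hF⟩
    apply lad.no_inf hS
    refine ⟨fun i => (F i).out, fun i j hij => ?_⟩
    obtain ⟨γ, h1 | h1⟩ := hF i j hij
    · obtain ⟨⟨s1, s1', hs1⟩, e1⟩ := QuotientGroup.mk_out_eq_mul (lift t).range γ
      obtain ⟨⟨s2, s2', hs2⟩, e2⟩ := QuotientGroup.mk_out_eq_mul (lift t).range (γ * of' d0)
      refine ⟨s1'⁻¹, s2', d0, EE_d0, ?_⟩
      show (F i).out⁻¹ * (F j).out = _
      rw [h1.1, h1.2, e1, e2, map_inv, hs1, hs2]
      group
    · obtain ⟨⟨s1, s1', hs1⟩, e1⟩ := QuotientGroup.mk_out_eq_mul (lift t).range γ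
      obtain ⟨⟨s2, s2', hs2⟩, e2⟩ := QuotientGroup.mk_out_eq_mul (lift t).range (γ * of' d0)
      refine ⟨s2'⁻¹, s1', d0⁻¹, EE_d0.inv, ?_⟩
      show (F i).out⁻¹ * (F j).out = _
      rw [h1.1, h1.2, e1, e2, map_inv, map_inv, hs1, hs2]
      group

theorem hD : qq RR DDD ≠ 1 := by
  obtain ⟨G, hG, S, d, φ, h1, h2, -⟩ := target
  intro h3
  rw [h3, map_one, Wr.DD_eq] at h1
  have h4 : (Wr.ee S (QuotientGroup.mk 1))⁻¹ * Wr.ee S (QuotientGroup.mk d) = 1 := by
    have := congrArg SemidirectProduct.left h1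
    simpa using this.symm
  rw [inv_mul_eq_one] at h4
  have h5 := congrArg Multiplicative.toAdd (congrFun h4 (QuotientGroup.mk d))
  classical
  rw [Wr.ee_apply, Wr.ee_apply, if_pos rfl, if_neg] at h5
  · simp at h5
  · intro h6
    rw [eq_comm, QuotientGroup.eq] at h6
    apply h2; simpa using h6

theorem hno : ¬ ∃ f : ℕ → LL RR, ∀ i j, i < j → (gr RR DDD).Adj (f i) (f j) := by
  obtain ⟨G, hG, S, d, φ, h1, h2, h3⟩ := target
  rintro ⟨F, hF⟩
  apply Wr.no_inf S d h2 h3
  refine ⟨fun i => φ (F i), fun i j hij => ?_⟩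
  obtain ⟨-, c, hc | hc⟩ := hF i j hij
  · refine ⟨φ c, Or.inl ?_⟩
    rw [← map_inv, ← map_mul, hc, map_mul, map_mul, map_inv, h1]
  · refine ⟨φ c, Or.inr ?_⟩
    rw [← map_inv, ← map_mul, hc, map_mul, map_mul, map_inv, map_inv, h1]

theorem hcl (N : ℕ) : ∃ l' : Fin N → LL RR, Function.Injective l' ∧
    ∀ i j, i ≠ j → (gr RR DDD).Adj (l' i) (l' j) := by
  have hR : ∀ r ∈ RR, qq RR r = 1 := fun r hr => PresentedGroup.one_of_mem (by exact_mod_cast hr)
  set L : Fin N → LL RR := fun i =>
    qq RR (iP (l N i)) * qq RR xx * (qq RR (iP (l N i)))⁻¹ with hL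
  have key : ∀ i j : Fin N, i < j → (gr RR DDD).Adj (L i) (L j) := by
    intro i j hij
    obtain ⟨c, hc⟩ := pair_conj (qq RR) hR N i j hij (by omega)
    refine ⟨?_, c, Or.inl hc⟩
    intro he
    have h1 : (L i)⁻¹ * L j = 1 := by rw [he]; group
    have h2 : c * qq RR DDD * c⁻¹ = 1 := by rw [← hc]; exact h1
    rw [mul_inv_eq_one] at h2
    exact hD (by simpa using h2)
  have key2 : ∀ i j : Fin N, i ≠ j → (gr RR DDD).Adj (L i) (L j) := by
    intro i j hij
    rcases lt_or_gt_of_ne hij with h | h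
    · exact key i j h
    · exact (key j i h).symm
  refine ⟨L, ?_, key2⟩
  intro i j hij
  by_contra hne
  exact (key2 i j hne).ne hij

end Pool.Agent.W379.Ds
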