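import Pool.Agent.W379.FT

set_option autoImplicit false

namespace Pool.Agent.W379

open FreeGroup List

variable {X H : Type} [Group H] [MulAction H X]

/-- the action of `H` on the free group on `X` by permuting the basis. -/
def fgAct (H X : Type) [Group H] [MulAction H X] : H →* MulAut (FreeGroup X) where
  toFun h := FreeGroup.freeGroupCongr (MulAction.toPerm h)
  map_one' := by
    ext x
    simp [MulAction.toPerm]
  map_mul' g h := by
    ext x
    simp [MulAction.toPerm, mul_smul, FreeGroup.map.comp, Function.comp_def]

@[simp] theorem fgAct_of (h : H) (x : X) : fgAct H X h (FreeGroup.of x) = FreeGroup.of (h • x) := by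
  simp [fgAct]

/-- map on words -/
def wmap (h : H) : List (X × Bool) → List (X × Bool) := List.map (fun p => (h • p.1, p.2))

@[simp] theorem wmap_nil (h : H) : wmap h ([] : List (X × Bool)) = [] := rfl
@[simp] theorem wmap_cons (h : H) (a : X × Bool) (l : List (X × Bool)) :
    wmap h (a :: l) = (h • a.1, a.2) :: wmap h l := rfl
@[simp] theorem wmap_append (h : H) (l l' : List (X × Bool)) :
    wmap h (l ++ l') = wmap h l ++ wmap h l' := by simp [wmap]
@[simp] theorem wmap_length (h : H) (l : List (X × Bool)) :
    (wmap h l).length = l.length := by simp [wmap]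

theorem wmap_inj (h : H) {l l' : List (X × Bool)} (e : wmap h l = wmap h l') : l = l' := by
  have := congrArg (wmap h⁻¹) e
  simpa [wmap, List.map_map, Function.comp_def] using this

theorem fgAct_mk (h : H) (l : List (X × Bool)) :
    fgAct H X h (FreeGroup.mk l) = FreeGroup.mk (wmap h l) := by
  show FreeGroup.map (MulAction.toPerm h) (FreeGroup.mk l) = _
  rw [FreeGroup.map.mk]
  rfl

variable [DecidableEq X]

omit [DecidableEq X] in
theorem isReduced_wmap (h : H) {l : List (X × Bool)} (hl : FreeGroup.IsReduced l) :
    FreeGroup.IsReduced (wmap h l) := by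
  unfold FreeGroup.IsReduced at *
  unfold wmap
  rw [List.isChain_map]
  refine hl.imp ?_
  intro a b hab
  simpa using hab

@[simp] theorem toWord_fgAct (h : H) (x : FreeGroup X) :
    (fgAct H X h x).toWord = wmap h x.toWord := by
  conv_lhs => rw [← mk_toWord (x := x)]
  rw [fgAct_mk, toWord_mk]
  exact (isReduced_wmap h isReduced_toWord).reduce_eq

@[simp] theorem norm_fgAct (h : H) (x : FreeGroup X) : FreeGroup.norm (fgAct H X h x) = FreeGroup.norm x := by
  unfold FreeGroup.norm; simp

/-- The group `FreeGroup X ⋊ H`. -/
abbrev Aff (X H : Type) [Group H] [MulAction H X] := FreeGroup X ⋊[fgAct H X] H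

/-- displacement of the base point -/
def disp (g : Aff X H) : ℕ := FreeGroup.norm g.left

theorem disp_mul_le (g h : Aff X H) : disp (g * h) ≤ disp g + disp h := by
  unfold disp
  rw [SemidirectProduct.mul_left]
  refine (FreeGroup.norm_mul_le _ _).trans ?_
  rw [norm_fgAct]

@[simp] theorem disp_inv (g : Aff X H) : disp g⁻¹ = disp g := by
  unfold disp
  rw [SemidirectProduct.inv_left, norm_fgAct, norm_inv_eq]

/-- a fixed word is split when `θ w = w⁻¹` -/
theorem split_half (h : H) (w : FreeGroup X) (hw : fgAct H X h w = w⁻¹) :
    ∃ a b, w.toWord = a ++ b ∧ a.length = b.length ∧ wmap h a = invRev b ∧ wmap h b = invRev a := by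
  have h1 : wmap h w.toWord = invRev w.toWord := by
    rw [← toWord_fgAct, hw, toWord_inv]
  rcases Nat.even_or_odd' w.toWord.length with ⟨m, hm | hm⟩
  · refine ⟨w.toWord.take m, w.toWord.drop m, (List.take_append_drop m _).symm, ?_, ?_⟩
    · simp; omega
    · have h2 : wmap h (w.toWord.take m) ++ wmap h (w.toWord.drop m) =
          invRev (w.toWord.drop m) ++ invRev (w.toWord.take m) := by
        rw [← wmap_append, ← invRev_append, List.take_append_drop, h1]
      have := List.append_inj h2 (by simp; omega)
      exact this
  · exfalso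
    have h2 : (wmap h w.toWord)[m]? = (invRev w.toWord)[m]? := by rw [h1]
    unfold wmap invRev at h2
    rw [List.getElem?_reverse (by simp; omega)] at h2
    simp only [List.length_map, List.getElem?_map] at h2
    have h3 : w.toWord.length - 1 - m = m := by omega
    rw [h3] at h2
    have h4 : m < w.toWord.length := by omega
    rw [List.getElem?_eq_getElem h4] at h2
    simp at h2

theorem swap_of_inv (h : H) (w : FreeGroup X) (hw : fgAct H X h w = w⁻¹) (h1 : w ≠ 1) :
    ∃ x y : X, x ≠ y ∧ h • x = y ∧ h • y = x := by
  obtain ⟨a, b, hab, hl, ha, hb⟩ := split_half h w hw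
  rcases List.eq_nil_or_concat a with rfl | ⟨a', s, rfl⟩
  · exfalso
    rcases b with _ | ⟨t, b⟩
    · apply h1; rw [← toWord_eq_nil_iff, hab]; rfl
    · simp at hl
  · rcases b with _ | ⟨t, b⟩
    · simp at hl
    · rw [List.concat_eq_append] at *
      have hr : FreeGroup.IsReduced (a' ++ [s] ++ t :: b) := by
        rw [← hab]; exact isReduced_toWord
      have e1 : h • t.1 = s.1 ∧ t.2 = !s.2 := by
        have : wmap h (t :: b) = (s.1, !s.2) :: invRev a' := by rw [hb]; simp [invRev]
        simp at this
        exact this.1
      have e2 : h • s.1 = t.1 := by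
        have : wmap h (a' ++ [s]) = invRev b ++ [(t.1, !t.2)] := by rw [ha]; simp [invRev]
        rw [wmap_append] at this
        have := List.append_inj_right' this (by simp)
        simp at this
        exact this.1
      refine ⟨s.1, t.1, ?_, e2, e1.1⟩
      intro hst
      unfold FreeGroup.IsReduced at hr
      rw [List.isChain_append] at hr
      have := hr.2.2 s (by simp) t (by simp) hst
      rw [e1.2] at this
      simp at this


omit [DecidableEq X] in
/-- conjugate by an element of the free group -/
theorem conj_left (u : FreeGroup X) (g : Aff X H) :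
    ((SemidirectProduct.inl u)⁻¹ * g * SemidirectProduct.inl u).left =
      u⁻¹ * g.left * fgAct H X g.right u := by
  simp [SemidirectProduct.mul_left, SemidirectProduct.inv_left, mul_assoc]

omit [DecidableEq X] in
theorem conj_right (u : FreeGroup X) (g : Aff X H) :
    ((SemidirectProduct.inl u)⁻¹ * g * SemidirectProduct.inl u).right = g.right := by
  simp

/-- `θ w = w⁻¹` means conjugate into `H` -/
theorem half_conj (h : H) (w : FreeGroup X) (hw : fgAct H X h w = w⁻¹) :
    ∃ u, u⁻¹ * w * fgAct H X h u = 1 := by
  obtain ⟨a, b, hab, hl, ha, hb⟩ := split_half h w hw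
  refine ⟨FreeGroup.mk a, ?_⟩
  rw [fgAct_mk, ha, ← inv_mk]
  have : w = FreeGroup.mk a * FreeGroup.mk b := by rw [mul_mk, ← hab, mk_toWord]
  rw [this]; group

/-- (L2) small displacement of the square implies elliptic -/
theorem elliptic_of_sq (g : Aff X H) (hg : disp (g * g) ≤ disp g) :
    ∃ u : FreeGroup X, ((SemidirectProduct.inl u)⁻¹ * g * SemidirectProduct.inl u).left = 1 := by
  obtain ⟨a, b, c, h1, h2, h3⟩ := exists_split_word g.left (fgAct H X g.right g.left)
  have h4 : wmap g.right (a ++ c) = invRev c ++ b := by rw [← h1, ← toWord_fgAct, h2]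
  have hd : disp (g * g) = a.length + b.length := by
    unfold disp
    rw [SemidirectProduct.mul_left]
    unfold FreeGroup.norm
    rw [h3]; simp
  have hd2 : disp g = a.length + c.length := by
    unfold disp FreeGroup.norm; rw [h1]; simp
  have hlen : a.length + c.length = c.length + b.length := by
    have := congrArg List.length h4
    simpa using this
  have hac : a.length ≤ c.length := by omega
  rw [wmap_append] at h4
  -- invRev c = wmap a ++ c'
  obtain ⟨c', hc'⟩ : ∃ c', invRev c = wmap g.right a ++ c' := by
    have : wmap g.right a <+: invRev c := by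
      apply List.prefix_of_prefix_length_le (l₃ := wmap g.right a ++ wmap g.right c)
      · exact List.prefix_append _ _
      · rw [h4]; exact List.prefix_append _ _
      · simpa using hac
    obtain ⟨t, ht⟩ := this
    exact ⟨t, ht.symm⟩
  have hc2 : c = invRev c' ++ invRev (wmap g.right a) := by
    rw [← invRev_append, ← hc', invRev_invRev]
  have hb : wmap g.right c = c' ++ b := by
    rw [hc', List.append_assoc] at h4
    exact List.append_cancel_left h4
  have hw : wmap g.right (invRev c') = c' := by
    rw [hc2, wmap_append] at hb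
    exact List.append_inj_left hb (by simp)
  -- the conjugate by mk a
  have hφ : g.left = FreeGroup.mk a * FreeGroup.mk (invRev c') *
      (fgAct H X g.right (FreeGroup.mk a))⁻¹ := by
    rw [fgAct_mk, inv_mk, mul_mk, mul_mk, List.append_assoc, ← hc2, ← h1, mk_toWord]
  have hw2 : fgAct H X g.right (FreeGroup.mk (invRev c')) = (FreeGroup.mk (invRev c'))⁻¹ := by
    rw [fgAct_mk, hw, inv_mk, invRev_invRev]
  obtain ⟨u, hu⟩ := half_conj _ _ hw2
  refine ⟨FreeGroup.mk a * u, ?_⟩
  rw [conj_left, hφ, _root_.map_mul]
  rw [← hu]
  group


theorem pow_word (g : Aff X H) (hg : disp (g * g) = 2 * disp g) (h0 : 0 < disp g) (n : ℕ) :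
    (g ^ (n + 1)).left.toWord = g.left.toWord ++ wmap g.right (g ^ n).left.toWord := by
  obtain ⟨a, b, c, h1, h2, h3⟩ := exists_split_word g.left (fgAct H X g.right g.left)
  have hd : disp (g * g) = a.length + b.length := by
    unfold disp
    rw [SemidirectProduct.mul_left]
    unfold FreeGroup.norm
    rw [h3]; simp
  have hd2 : disp g = a.length + c.length := by
    unfold disp FreeGroup.norm; rw [h1]; simp
  have hlen : a.length + c.length = c.length + b.length := by
    have := congrArg List.length h2
    rw [toWord_fgAct, h1] at this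
    simpa using this
  have hc : c = [] := List.length_eq_zero_iff.mp (by omega)
  subst hc
  simp only [List.append_nil, invRev_empty, List.nil_append] at h1 h2
  rw [toWord_fgAct] at h2
  have hr : FreeGroup.IsReduced (g.left.toWord ++ wmap g.right g.left.toWord) := by
    rw [h1, ← h1, h2, h1, ← h3]; exact isReduced_toWord
  induction n with
  | zero => simp
  | succ n ih =>
    have e : g ^ (n + 1 + 1) = g * g ^ (n + 1) := pow_succ' g (n + 1)
    rw [e, SemidirectProduct.mul_left, toWord_mul, toWord_fgAct]
    apply FreeGroup.IsReduced.reduce_eq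
    rw [ih, wmap_append, ← List.append_assoc]
    apply FreeGroup.IsReduced.append_overlap hr
    · rw [← wmap_append, ← ih]
      exact isReduced_wmap _ isReduced_toWord
    · intro h
      have : (wmap g.right g.left.toWord).length = 0 := by rw [h]; rfl
      rw [wmap_length] at this
      unfold disp FreeGroup.norm at h0
      omega

theorem disp_pow (g : Aff X H) (hg : disp (g * g) = 2 * disp g) (h0 : 0 < disp g) (n : ℕ) :
    disp (g ^ n) = n * disp g := by
  induction n with
  | zero => simp [disp]
  | succ n ih =>
    unfold disp FreeGroup.norm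
    rw [pow_word g hg h0]
    unfold disp FreeGroup.norm at ih
    simp [ih]; ring

/-- (L4) cyclic reduction -/
theorem exists_cyc (g : Aff X H) : ∃ u : FreeGroup X,
    ((SemidirectProduct.inl u)⁻¹ * g * SemidirectProduct.inl u).left = 1 ∨
    (0 < disp ((SemidirectProduct.inl u)⁻¹ * g * SemidirectProduct.inl u) ∧
      disp (((SemidirectProduct.inl u)⁻¹ * g * SemidirectProduct.inl u) *
        ((SemidirectProduct.inl u)⁻¹ * g * SemidirectProduct.inl u)) =
      2 * disp ((SemidirectProduct.inl u)⁻¹ * g * SemidirectProduct.inl u)) := by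
  generalize hn : disp g = n
  induction n using Nat.strong_induction_on generalizing g with
  | _ n ih =>
    by_cases hz : n = 0
    · refine ⟨1, Or.inl ?_⟩
      subst hz
      have : g.left = 1 := by
        unfold disp at hn; rwa [FreeGroup.norm_eq_zero] at hn
      simp [this]
    by_cases h2 : disp (g * g) = 2 * disp g
    · refine ⟨1, Or.inr ?_⟩
      simp only [_root_.map_one, inv_one, one_mul, mul_one]
      exact ⟨by omega, h2⟩
    obtain ⟨a, b, c, h1, h2', h3⟩ := exists_split_word g.left (fgAct H X g.right g.left)
    have hd : disp (g * g) = a.length + b.length := by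
      unfold disp
      rw [SemidirectProduct.mul_left]
      unfold FreeGroup.norm
      rw [h3]; simp
    have hd2 : disp g = a.length + c.length := by
      unfold disp FreeGroup.norm; rw [h1]; simp
    have hlen : a.length + c.length = c.length + b.length := by
      have := congrArg List.length h2'
      rw [toWord_fgAct, h1] at this
      simpa using this
    rcases List.eq_nil_or_concat c with rfl | ⟨c0, s, rfl⟩
    · exfalso; simp at *; omega
    rw [List.concat_eq_append] at *
    rw [toWord_fgAct, h1] at h2'
    have hrev : invRev (c0 ++ [s]) = (s.1, !s.2) :: invRev c0 := by simp [invRev]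
    rw [hrev, ← List.append_assoc] at h2'
    rcases hac : a ++ c0 with _ | ⟨f, mid⟩
    · exfalso
      rw [hac] at h2'
      simp at h2'
    rw [hac] at h2'
    simp only [List.cons_append, wmap_cons, List.cons.injEq, Prod.mk.injEq] at h2'
    have hword : g.left.toWord = f :: (mid ++ [s]) := by
      rw [h1, ← List.append_assoc, hac]; rfl
    have hg : g.left = FreeGroup.mk [f] * (FreeGroup.mk mid * FreeGroup.mk [s]) := by
      rw [mul_mk, mul_mk, ← mk_toWord (x := g.left), hword]; rfl
    have hu : fgAct H X g.right (FreeGroup.mk [f]) = (FreeGroup.mk [s])⁻¹ := by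
      rw [fgAct_mk, inv_mk]
      simp [invRev, h2'.1.1, h2'.1.2]
    have hl : ((SemidirectProduct.inl (FreeGroup.mk [f]))⁻¹ * g *
        SemidirectProduct.inl (FreeGroup.mk [f]) : Aff X H).left = FreeGroup.mk mid := by
      rw [conj_left, hg, hu]; group
    obtain ⟨u, hu2⟩ := ih (disp ((SemidirectProduct.inl (FreeGroup.mk [f]))⁻¹ * g *
        SemidirectProduct.inl (FreeGroup.mk [f]) : Aff X H)) (by
          rw [← hn]
          unfold disp
          rw [hl]
          refine lt_of_le_of_lt FreeGroup.norm_mk_le ?_
          unfold FreeGroup.norm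
          rw [hword]; simp) _ rfl
    refine ⟨FreeGroup.mk [f] * u, ?_⟩
    have e : (SemidirectProduct.inl (FreeGroup.mk [f] * u) : Aff X H)⁻¹ * g *
        SemidirectProduct.inl (FreeGroup.mk [f] * u) = (SemidirectProduct.inl u)⁻¹ *
        ((SemidirectProduct.inl (FreeGroup.mk [f]))⁻¹ * g *
        SemidirectProduct.inl (FreeGroup.mk [f])) * SemidirectProduct.inl u := by
      rw [_root_.map_mul]; group
    rw [e]
    exact hu2

end Pool.Agent.W379
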