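import Pool.Agent.W379.Aff

set_option autoImplicit false

namespace Pool.Agent.W379

open FreeGroup List

variable {X H : Type} [Group H] [MulAction H X] [DecidableEq X]

theorem norm_left_inv_mul (g h : Aff X H) : FreeGroup.norm (g.left⁻¹ * h.left) = disp (g⁻¹ * h) := by
  unfold disp
  rw [SemidirectProduct.mul_left, SemidirectProduct.inv_left, SemidirectProduct.inv_right,
    ← _root_.map_mul, norm_fgAct]

/-- Gromov product of `y, z` at `x` -/
def GP (x y z : Aff X H) : ℕ := gp (x.left⁻¹ * y.left) (x.left⁻¹ * z.left)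

theorem GP_spec (x y z : Aff X H) :
    disp (y⁻¹ * z) + 2 * GP x y z = disp (x⁻¹ * y) + disp (x⁻¹ * z) := by
  have := gp_spec (x.left⁻¹ * y.left) (x.left⁻¹ * z.left)
  have e : (x.left⁻¹ * y.left)⁻¹ * (x.left⁻¹ * z.left) = y.left⁻¹ * z.left := by group
  rw [e] at this
  rw [norm_left_inv_mul, norm_left_inv_mul, norm_left_inv_mul] at this
  exact this

theorem GP_ultra (x y z w : Aff X H) : min (GP x y z) (GP x z w) ≤ GP x y w := gp_ultra _ _ _

theorem disp_one : disp (1 : Aff X H) = 0 := by simp [disp]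

theorem disp_pow_inv (m : Aff X H) (n : ℕ) : disp ((m⁻¹) ^ n) = disp (m ^ n) := by
  rw [inv_pow, disp_inv]

theorem disp_symm (x y : Aff X H) : disp (x⁻¹ * y) = disp (y⁻¹ * x) := by
  rw [← disp_inv]; congr 1; group

theorem axis (m : Aff X H) (h2 : disp (m * m) = 2 * disp m) (h0 : 0 < disp m)
    (g : Aff X H) (hg : Commute g m) (N : ℕ) (hN : disp g < N) :
    disp (g⁻¹ * (m⁻¹) ^ N) + disp (g⁻¹ * m ^ N) = 2 * (N * disp m) := by
  have hk : ∀ n, disp (m ^ n) = n * disp m := disp_pow m h2 h0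
  have hNk : N ≤ N * disp m := Nat.le_mul_of_pos_right _ h0
  have hgp : Commute g (m ^ N) := hg.pow_right N
  have hgn : Commute g ((m⁻¹) ^ N) := (hg.inv_right).pow_right N
  have e1 := GP_spec g (g * (m⁻¹) ^ N) (g * m ^ N)
  have e2 := GP_spec g (g * (m⁻¹) ^ N) ((m⁻¹) ^ N)
  have e3 := GP_spec g (m ^ N) (g * m ^ N)
  have e4 := GP_spec g ((m⁻¹) ^ N) (m ^ N)
  have s1 : (g * (m⁻¹) ^ N)⁻¹ * (g * m ^ N) = m ^ (2 * N) := by
    rw [mul_inv_rev, inv_pow, inv_inv, mul_assoc, inv_mul_cancel_left, ← pow_add]; ring_nf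
  have s2 : g⁻¹ * (g * (m⁻¹) ^ N) = (m⁻¹) ^ N := by group
  have s3 : g⁻¹ * (g * m ^ N) = m ^ N := by group
  have s4 : (g * (m⁻¹) ^ N)⁻¹ * (m⁻¹) ^ N = g⁻¹ := by
    rw [hgn.eq]; group
  have s5 : (m ^ N)⁻¹ * (g * m ^ N) = g := by
    rw [hgp.eq]; group
  have s6 : ((m⁻¹) ^ N)⁻¹ * m ^ N = m ^ (2 * N) := by
    rw [inv_pow, inv_inv, ← pow_add]; ring_nf
  rw [s1, s2, s3, disp_pow_inv, hk, hk] at e1
  rw [s4, s2, disp_pow_inv, hk, disp_inv] at e2
  rw [s5, s3, hk] at e3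
  rw [s6, hk] at e4
  have t1 : disp ((m⁻¹) ^ N) ≤ disp g + disp (g⁻¹ * (m⁻¹) ^ N) := by
    have := disp_mul_le g (g⁻¹ * (m⁻¹) ^ N)
    rwa [mul_inv_cancel_left] at this
  have t2 : disp (m ^ N) ≤ disp g + disp (g⁻¹ * m ^ N) := by
    have := disp_mul_le g (g⁻¹ * m ^ N)
    rwa [mul_inv_cancel_left] at this
  rw [disp_pow_inv, hk] at t1
  rw [hk] at t2
  have u1 := GP_ultra g (g * (m⁻¹) ^ N) ((m⁻¹) ^ N) (m ^ N)
  have u2 := GP_ultra g (g * (m⁻¹) ^ N) (m ^ N) (g * m ^ N)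
  have z1 : GP g (g * (m⁻¹) ^ N) (g * m ^ N) = 0 := by
    have : 2 * N * disp m = 2 * (N * disp m) := by ring
    omega
  have z2 : 0 < GP g (g * (m⁻¹) ^ N) ((m⁻¹) ^ N) := by omega
  have z3 : 0 < GP g (m ^ N) (g * m ^ N) := by omega
  have z4 : GP g ((m⁻¹) ^ N) (m ^ N) = 0 := by
    rw [z1] at u2
    rcases Nat.eq_zero_or_pos (GP g ((m⁻¹) ^ N) (m ^ N)) with h | h
    · exact h
    · exfalso
      have : 0 < GP g (g * (m⁻¹) ^ N) (m ^ N) := lt_of_lt_of_le (lt_min z2 h) u1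
      have := lt_min this z3
      omega
  rw [z4] at e4
  have : 2 * N * disp m = 2 * (N * disp m) := by ring
  omega

/-- (L5) -/
theorem axis_unique (m : Aff X H) (h2 : disp (m * m) = 2 * disp m) (h0 : 0 < disp m)
    (g g' : Aff X H) (hg : Commute g m) (hg' : Commute g' m) (N : ℕ) (hN : disp g < N)
    (hN' : disp g' < N) (he : disp (g⁻¹ * (m⁻¹) ^ N) = disp (g'⁻¹ * (m⁻¹) ^ N)) :
    (g⁻¹ * g').left = 1 := by
  have a1 := axis m h2 h0 g hg N hN
  have a2 := axis m h2 h0 g' hg' N hN'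
  have hk : ∀ n, disp (m ^ n) = n * disp m := disp_pow m h2 h0
  have e1 := GP_spec ((m⁻¹) ^ N) g (m ^ N)
  have e2 := GP_spec ((m⁻¹) ^ N) (m ^ N) g'
  have e3 := GP_spec ((m⁻¹) ^ N) g g'
  have s6 : ((m⁻¹) ^ N)⁻¹ * m ^ N = m ^ (2 * N) := by
    rw [inv_pow, inv_inv, ← pow_add]; ring_nf
  have d1 := disp_symm ((m⁻¹) ^ N) g
  have d2 := disp_symm ((m⁻¹) ^ N) g'
  have d3 := disp_symm (m ^ N) g'
  rw [s6, hk, d1] at e1
  rw [s6, hk, d2, d3] at e2
  rw [d1, d2] at e3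
  have u := GP_ultra ((m⁻¹) ^ N) g (m ^ N) g'
  have hh : 2 * N * disp m = 2 * (N * disp m) := by ring
  have v1 : GP ((m⁻¹) ^ N) g (m ^ N) = disp (g⁻¹ * (m⁻¹) ^ N) := by omega
  have v2 : GP ((m⁻¹) ^ N) (m ^ N) g' = disp (g⁻¹ * (m⁻¹) ^ N) := by omega
  rw [v1, v2, min_self] at u
  have : disp (g⁻¹ * g') = 0 := by omega
  unfold disp at this
  rwa [FreeGroup.norm_eq_zero] at this

/-- range of the coordinate -/
theorem axis_range (m : Aff X H) (g : Aff X H) (N : ℕ) :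
    disp (m ^ N) ≤ disp (g⁻¹ * (m⁻¹) ^ N) + disp g ∧
    disp (g⁻¹ * (m⁻¹) ^ N) ≤ disp (m ^ N) + disp g := by
  constructor
  · have := disp_mul_le g (g⁻¹ * (m⁻¹) ^ N)
    rw [mul_inv_cancel_left, disp_pow_inv] at this
    omega
  · have := disp_mul_le g⁻¹ ((m⁻¹) ^ N)
    rw [disp_pow_inv, disp_inv] at this
    omega

/-- (L6) -/
theorem first_letter (m : Aff X H) (h0 : m.left ≠ 1) :
    ∃ x : X, ∀ g : Aff X H, g.left = 1 → Commute g m → g.right • x = x := by
  rcases hw : m.left.toWord with _ | ⟨s, l⟩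
  · exact absurd (toWord_eq_nil_iff.mp hw) h0
  · refine ⟨s.1, fun g hg hc => ?_⟩
    have h1 := congrArg SemidirectProduct.left hc.eq
    rw [SemidirectProduct.mul_left, SemidirectProduct.mul_left, hg, one_mul, _root_.map_one,
      mul_one] at h1
    have h2 := congrArg toWord h1
    rw [toWord_fgAct, hw, wmap_cons] at h2
    have := List.head_eq_of_cons_eq h2
    exact congrArg Prod.fst this

theorem disp_inl (u : FreeGroup X) : disp (SemidirectProduct.inl u : Aff X H) = FreeGroup.norm u := by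
  simp [disp]

/-- powers of a nontrivial element of the free group go to infinity, inside `Aff` -/
theorem norm_pow_aff (g : Aff X H) (hg : ∀ u : FreeGroup X,
    ((SemidirectProduct.inl u)⁻¹ * g * SemidirectProduct.inl u).left ≠ 1) :
    ∃ K : ℕ, ∀ n : ℕ, n ≤ disp (g ^ n) + K := by
  obtain ⟨u, hu | ⟨h0, h2⟩⟩ := exists_cyc g
  · exact absurd hu (hg u)
  · refine ⟨2 * FreeGroup.norm u, fun n => ?_⟩
    have h := disp_pow _ h2 h0 n
    have e : ((SemidirectProduct.inl u)⁻¹ * g * SemidirectProduct.inl u : Aff X H) ^ n =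
        (SemidirectProduct.inl u)⁻¹ * g ^ n * SemidirectProduct.inl u := by
      have := conj_pow (i := n) (a := (SemidirectProduct.inl u : Aff X H)⁻¹) (b := g)
      rwa [inv_inv] at this
    rw [e] at h
    have h3 := disp_mul_le ((SemidirectProduct.inl u)⁻¹ * g ^ n) (SemidirectProduct.inl u : Aff X H)
    have h4 := disp_mul_le (SemidirectProduct.inl u)⁻¹ (g ^ n : Aff X H)
    rw [disp_inv, disp_inl] at h4
    rw [disp_inl] at h3
    have h5 : n ≤ n * disp ((SemidirectProduct.inl u)⁻¹ * g * SemidirectProduct.inl u : Aff X H) :=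
      Nat.le_mul_of_pos_right _ h0
    omega

/-- trivial action -/
@[reducible] def trivAct (α : Type) : MulAction PUnit.{1} α where
  smul _ a := a
  one_smul _ := rfl
  mul_smul _ _ _ := rfl

theorem norm_pow_free {α : Type} [DecidableEq α] (c : FreeGroup α) (hc : c ≠ 1) :
    ∃ K : ℕ, ∀ n : ℕ, n ≤ FreeGroup.norm (c ^ n) + K := by
  letI := trivAct α
  obtain ⟨K, hK⟩ := norm_pow_aff (X := α) (H := PUnit.{1}) (SemidirectProduct.inl c) (by
    intro u h
    rw [← _root_.map_inv, ← _root_.map_mul, ← _root_.map_mul, SemidirectProduct.left_inl] at h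
    apply hc
    have : c = u * (u⁻¹ * c * u) * u⁻¹ := by group
    rw [this, h]; group)
  refine ⟨K, fun n => ?_⟩
  have := hK n
  rwa [← _root_.map_pow, disp_inl] at this

end Pool.Agent.W379
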