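import Pool.Agent.W217.BE.Stm2

set_option autoImplicit false

namespace Pool.Agent.W379.BEZNIL
open Pool.Agent.W217.BE
open Polynomial

theorem main : ZNIL := by
  intro C _ M _ _ _ _ N hN hX s r n hs x
  classical
  letI : DirectSum.Decomposition N := hN.chooseDecomposition N
  -- C-scalars
  have hC : ∀ (a : C) (y : M), (Polynomial.C a : C[X]) • y = a • y := by
    intro a y
    have h1 : (Polynomial.C a : C[X]) = a • (1 : C[X]) := by
      rw [Polynomial.smul_eq_C_mul, mul_one]
    rw [h1, smul_assoc, one_smul]
  have hpow : ∀ (m : ℕ) (t : ℤ) (y : M), y ∈ N t → (X ^ m : C[X]) • y ∈ N (t + m) := by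
    intro m
    induction m with
    | zero => intro t y hy; simpa using hy
    | succ m ih =>
      intro t y hy
      have h1 := hX (t + m) _ (ih t y hy)
      have h2 : (X : C[X]) • ((X ^ m : C[X]) • y) = (X ^ (m + 1) : C[X]) • y := by
        rw [← mul_smul, pow_succ, mul_comm]
      rw [h2] at h1
      have h3 : t + ((m + 1 : ℕ) : ℤ) = t + m + 1 := by push_cast; ring
      rw [h3]; exact h1
  have hterm : ∀ (a : C) (m : ℕ) (t : ℤ) (y : M), y ∈ N t →
      (Polynomial.C a * X ^ m : C[X]) • y ∈ N (t + m) := by
    intro a m t y hy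
    rw [mul_smul, hC]
    exact (N (t + m)).smul_mem a (hpow m t y hy)
  have hx : x ∈ iSup N := by
    rw [hN.submodule_iSup_eq_top]; trivial
  refine Submodule.iSup_induction N (motive := fun x =>
    (Polynomial.C (s.coeff 0 * r) * X ^ n : C[X]) • x = 0) hx ?_ ?_ ?_
  · intro t y hy
    have h0 := hs y
    have hsum : (∑ i ∈ Finset.range (s.natDegree + 1),
        (Polynomial.C (s.coeff i * r) * X ^ (n + i) : C[X]) • y) = 0 := by
      rw [← Finset.sum_smul, ← h0]
      congr 1
      conv_rhs => rw [s.as_sum_range_C_mul_X_pow]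
      rw [Finset.sum_mul]
      refine Finset.sum_congr rfl fun i _ => ?_
      rw [Polynomial.C_mul, pow_add]
      ring
    have h1 := congrArg (fun z => ((DirectSum.decompose N z (t + n) : N (t + n)) : M)) hsum
    simp only [DirectSum.decompose_sum, DirectSum.decompose_zero] at h1
    rw [DFinsupp.finset_sum_apply] at h1
    simp only [Submodule.coe_sum] at h1
    rw [Finset.sum_eq_single 0] at h1
    · rw [add_zero, DirectSum.decompose_of_mem_same N (hterm _ _ t y hy)] at h1
      simpa using h1
    · intro i _ hi
      refine DirectSum.decompose_of_mem_ne N (hterm _ _ t y hy) ?_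
      intro h
      apply hi
      push_cast at h
      omega
    · intro h
      exact absurd (Finset.mem_range.2 (Nat.succ_pos _)) h
  · exact smul_zero _
  · intro y z hy hz
    rw [smul_add, hy, hz, add_zero]

end Pool.Agent.W379.BEZNIL
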