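import Pool.Agent.W379.MHNN

set_option autoImplicit false
set_option linter.unusedSectionVars false

namespace Pool.Agent.W379.MH

section
variable {P : Type} [Group P] {I : Type} [DecidableEq I] {Q : I → Type} [∀ i, Group (Q i)]
  {f g : ∀ i, Q i →* P} {G : Type} [Group G] {of : P →* G} {t : I → G}

/-- inverse letter -/
def iv (a : I × Bool) : I × Bool := (a.1, !a.2)

theorem lt_iv (t : I → G) (a : I × Bool) : lt t (iv a) = (lt t a)⁻¹ := by
  rcases a with ⟨i, e⟩
  cases e <;> simp [lt, iv]

theorem iv_iv (a : I × Bool) : iv (iv a) = a := by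
  rcases a with ⟨i, e⟩; simp [iv]

theorem eq_of_ne_iv {a b : I × Bool} (h : a.1 = b.1) (h2 : a.2 ≠ b.2) : b = iv a := by
  rcases a with ⟨i, e⟩; rcases b with ⟨j, e'⟩
  simp only [iv] at *
  subst h
  cases e <;> cases e' <;> simp_all

/-- inverse word with a last syllable -/
def iw : List ((I × Bool) × P) → P → List ((I × Bool) × P)
  | [], _ => []
  | a :: l, w => iw l a.2⁻¹ ++ [(iv a.1, w)]

theorem wp_iw (of : P →* G) (t : I → G) (l : List ((I × Bool) × P)) (w : P) :
    ∃ q, wp of t (iw l w) = of q * (wp of t l)⁻¹ * of w := by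
  induction l generalizing w with
  | nil => exact ⟨w⁻¹, by simp [iw]⟩
  | cons a l ih =>
    obtain ⟨q, hq⟩ := ih a.2⁻¹
    refine ⟨q, ?_⟩
    rw [iw, wp_append, hq, wp_cons, wp_cons, wp_nil, lt_iv, map_inv]
    group

theorem iw_getLast? (a : (I × Bool) × P) (l : List ((I × Bool) × P)) (w : P) :
    (iw (a :: l) w).getLast? = some (iv a.1, w) := by
  rw [iw]; simp

theorem iw_chain (l : List ((I × Bool) × P)) (w : P) (hl : l.IsChain (Red f g)) :
    (iw l w).IsChain (Red f g) := by
  induction l generalizing w with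
  | nil => exact List.isChain_nil
  | cons a l ih =>
    rw [List.isChain_cons] at hl
    rw [iw, List.isChain_append]
    refine ⟨ih _ hl.2, List.isChain_singleton _, ?_⟩
    intro x hx y hy
    simp only [List.head?_cons, Option.mem_def, Option.some.injEq] at hy
    subst hy
    cases l with
    | nil => simp [iw] at hx
    | cons b l =>
      rw [iw_getLast?] at hx
      simp only [Option.mem_def, Option.some.injEq] at hx
      subst hx
      have h1 := hl.1 b (by simp)
      intro h2 h3
      by_contra h4
      have h5 : iv b.1 = a.1 := by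
        have h6 := eq_of_ne_iv (a := iv b.1) (b := iv a.1) h2 h4
        have h7 : iv (iv a.1) = iv (iv (iv b.1)) := congrArg iv h6
        rw [iv_iv, iv_iv] at h7
        exact h7.symm
      have h6 : a.2 ∈ dom f g a.1 := by
        rw [← h5]
        exact (inv_mem_iff (H := dom f g (iv b.1))).mp h3
      have h7 := h1 (by rw [← h5]; rfl) h6
      rw [← h5] at h7
      simp [iv] at h7

theorem Sol.conj_mem (hS : Sol f g G of t) {a : I × Bool} {w : P}
    (h : lt t a * of w * (lt t a)⁻¹ ∈ of.range) : w ∈ dom f g a := by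
  by_contra hw
  have h1 := hS.brit [(a, w), (iv a, 1)] (by
    rw [List.isChain_cons_cons]
    refine ⟨?_, List.isChain_singleton _⟩
    intro _ h3
    exact absurd h3 hw) (by simpa [lt_iv] using h)
  simp at h1

theorem Sol.mem_conj (hS : Sol f g G of t) {a : I × Bool} {w : P} (h : w ∈ dom f g a) :
    ∃ u, lt t a * of w * (lt t a)⁻¹ = of u := by
  rcases a with ⟨i, e⟩
  cases e
  · simp only [dom, Bool.false_eq_true, if_false] at h
    obtain ⟨q, rfl⟩ := h
    refine ⟨f i q, ?_⟩
    have := hS.rel i q
    simp only [lt, Bool.false_eq_true, if_false]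
    rw [inv_inv, mul_assoc, ← this]; group
  · simp only [dom, if_true] at h
    obtain ⟨q, rfl⟩ := h
    refine ⟨g i q, ?_⟩
    have := hS.rel i q
    simp only [lt, if_true]
    rw [this]; group

/-- comparison of reduced words -/
theorem Sol.uni (hS : Sol f g G of t) (l₁ : List ((I × Bool) × P)) :
    ∀ (l₂ : List ((I × Bool) × P)) (w w' : P), l₁.IsChain (Red f g) → l₂.IsChain (Red f g) →
      of w * wp of t l₂ = wp of t l₁ * of w' →
      l₁.map Prod.fst = l₂.map Prod.fst ∧
      ∀ i, (wp of t (l₁.take i))⁻¹ * of w * wp of t (l₂.take i) ∈ of.range := by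
  induction l₁ with
  | nil =>
    intro l₂ w w' _ h2 h
    have : l₂ = [] := by
      apply hS.brit l₂ h2
      refine ⟨w⁻¹ * w', ?_⟩
      rw [wp_nil, one_mul] at h
      rw [map_mul, map_inv, ← h]; group
    subst this
    simp
  | cons a l₁ ih =>
    intro l₂ w w' h1 h2 h
    obtain ⟨q, hq⟩ := wp_iw of t (a :: l₁) w
    have hne : ¬ ((iw (a :: l₁) w) ++ l₂).IsChain (Red f g) := by
      intro hch
      have := hS.brit _ hch (by
        refine ⟨q * w', ?_⟩
        have e0 : wp of t (iw (a :: l₁) w ++ l₂) =
            of q * ((wp of t (a :: l₁))⁻¹ * (of w * wp of t l₂)) := by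
          rw [wp_append, hq]; group
        rw [e0, h, map_mul]; group)
      rw [List.append_eq_nil_iff] at this
      simp [iw] at this
    rw [List.isChain_append] at hne
    have hne2 : ¬ ∀ x ∈ (iw (a :: l₁) w).getLast?, ∀ y ∈ l₂.head?, Red f g x y := fun hh =>
      hne ⟨iw_chain _ _ h1, h2, hh⟩
    rw [iw_getLast?] at hne2
    cases l₂ with
    | nil => exact absurd (by simp) hne2
    | cons b l₂ =>
      have hne3 : ¬ Red f g (iv a.1, w) b := by
        intro hh; apply hne2
        intro x hx y hy
        simp only [List.head?_cons, Option.mem_def, Option.some.injEq] at hx hy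
        subst hx; subst hy; exact hh
      unfold Red at hne3
      push Not at hne3
      obtain ⟨e1, e2, e3⟩ := hne3
      have e4 : b.1 = a.1 := by
        have := eq_of_ne_iv (a := iv a.1) (b := b.1) e1 e3
        rw [iv_iv] at this; exact this
      obtain ⟨u, hu⟩ := hS.mem_conj e2
      rw [lt_iv, inv_inv] at hu
      -- (lt a)⁻¹ * of w * lt a = of u
      have e5 : of w * lt t a.1 = lt t a.1 * of u := by rw [← hu]; group
      rw [wp_cons, wp_cons, e4] at h
      have e6 : of (a.2⁻¹ * u * b.2) * wp of t l₂ = wp of t l₁ * of w' := by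
        have e7 : lt t a.1 * of u * of b.2 * wp of t l₂ = lt t a.1 * of a.2 * wp of t l₁ * of w' := by
          rw [← h, ← e5]; group
        have e8 : of u * of b.2 * wp of t l₂ = of a.2 * (wp of t l₁ * of w') := by
          have : lt t a.1 * (of u * of b.2 * wp of t l₂) = lt t a.1 * (of a.2 * (wp of t l₁ * of w')) := by
            simpa only [mul_assoc] using e7
          exact mul_left_cancel this
        rw [map_mul, map_mul, map_inv, mul_assoc, mul_assoc, ← mul_assoc (of u), e8]
        group
      rw [List.isChain_cons] at h1 h2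
      obtain ⟨i1, i2⟩ := ih l₂ _ w' h1.2 h2.2 e6
      refine ⟨by simp [i1, e4], ?_⟩
      intro i
      cases i with
      | zero => simp
      | succ i =>
        rw [List.take_succ_cons, List.take_succ_cons, wp_cons, wp_cons, e4]
        have := i2 i
        rw [map_mul, map_mul, map_inv] at this
        convert this using 1
        calc (lt t a.1 * of a.2 * wp of t (l₁.take i))⁻¹ * of w *
            (lt t a.1 * of b.2 * wp of t (l₂.take i))
            = (wp of t (l₁.take i))⁻¹ * ((of a.2)⁻¹ * ((lt t a.1)⁻¹ * (of w * lt t a.1)) * of b.2) *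
              wp of t (l₂.take i) := by group
          _ = _ := by rw [e5]; group

/-- words with trivial syllables -/
def pw (l : List (I × Bool)) : List ((I × Bool) × P) := l.map (fun a => (a, 1))

theorem wp_pw (of : P →* G) (t : I → G) (l : List (I × Bool)) :
    wp of t (pw l) = FreeGroup.lift t (FreeGroup.mk l) := by
  rw [FreeGroup.lift_mk]
  simp only [wp, pw, List.map_map]
  congr 1
  apply List.map_congr_left
  rintro ⟨i, e⟩ _
  cases e <;> simp [lt]

theorem pw_chain {l : List (I × Bool)} (hl : FreeGroup.IsReduced l) :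
    (pw l : List ((I × Bool) × P)).IsChain (Red f g) := by
  unfold FreeGroup.IsReduced at hl
  rw [pw, List.isChain_map]
  refine hl.imp ?_
  intro a b h h1 _
  exact h h1

theorem pw_fst (l : List (I × Bool)) : (pw l : List ((I × Bool) × P)).map Prod.fst = l := by
  rw [pw, List.map_map]
  exact List.map_id l

/-- transport -/
theorem Sol.transport (hS : Sol f g G of t) {w w' : P} {s s' : FreeGroup I}
    (h : of w * FreeGroup.lift t s' = FreeGroup.lift t s * of w') : s = s' := by
  have h1 := hS.uni (pw s.toWord) (pw s'.toWord) w w' (pw_chain FreeGroup.isReduced_toWord)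
    (pw_chain FreeGroup.isReduced_toWord) (by
      rw [wp_pw, wp_pw, FreeGroup.mk_toWord, FreeGroup.mk_toWord, h])
  have h2 := h1.1
  rw [pw_fst, pw_fst] at h2
  exact FreeGroup.toWord_injective h2

/-- induction along moves -/
theorem Sol.move_list (hS : Sol f g G of t) {ι : Type} (C : (ι → P) → Prop)
    (hC : ∀ a w w', C w → (∀ j, of (w' j) * lt t a = lt t a * of (w j)) → C w')
    (l : List (I × Bool)) (hl : FreeGroup.IsReduced l) :
    ∀ w w', C w → (∀ j, of (w' j) * wp of t (pw l) = wp of t (pw l) * of (w j)) → C w' := by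
  induction l with
  | nil =>
    intro w w' h1 h2
    have : w' = w := by
      funext j
      have := h2 j
      simp only [pw, List.map_nil, wp_nil, mul_one, one_mul] at this
      exact hS.inj this
    rw [this]; exact h1
  | cons a l ih =>
    intro w w' h1 h2
    have h3 : ∀ j, ∃ u, (lt t a)⁻¹ * of (w' j) * lt t a = of u := by
      intro j
      have := (hS.uni (pw (a :: l)) (pw (a :: l)) (w' j) (w j) (pw_chain hl) (pw_chain hl) (h2 j)).2 1
      have e : wp of t ((pw (a :: l)).take 1) = lt t a := by
        simp [pw]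
      rw [e] at this
      obtain ⟨u, hu⟩ := this
      exact ⟨u, hu.symm⟩
    choose u hu using h3
    have hu2 : ∀ j, of (w' j) * lt t a = lt t a * of (u j) := by
      intro j; rw [← hu]; group
    apply hC a u w' ?_ hu2
    have hl' : FreeGroup.IsReduced l := by
      unfold FreeGroup.IsReduced at *
      rw [List.isChain_cons] at hl
      exact hl.2
    apply ih hl' w u h1
    intro j
    have h4 := h2 j
    have e : wp of t (pw (a :: l)) = lt t a * wp of t (pw l) := by
      simp [pw]
    rw [e, ← mul_assoc, hu2, mul_assoc, mul_assoc] at h4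
    exact mul_left_cancel h4

theorem Sol.move (hS : Sol f g G of t) {ι : Type} (C : (ι → P) → Prop)
    (hC : ∀ a w w', C w → (∀ j, of (w' j) * lt t a = lt t a * of (w j)) → C w')
    (s : FreeGroup I) (w w' : ι → P) (h1 : C w)
    (h2 : ∀ j, of (w' j) * FreeGroup.lift t s = FreeGroup.lift t s * of (w j)) : C w' := by
  apply hS.move_list C hC s.toWord FreeGroup.isReduced_toWord w w' h1
  intro j
  rw [wp_pw, FreeGroup.mk_toWord, h2]

/-- the gate lemma -/
theorem Sol.gate (hS : Sol f g G of t) {ι : Type} [Nonempty ι] (p : ι → P) (k : G)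
    (h : ∀ i, ∃ (s r : FreeGroup I) (q : P),
      k = of (p i) * FreeGroup.lift t s * of q * FreeGroup.lift t r) :
    ∃ b : G, (∀ i, ∃ (x : P) (s : FreeGroup I), of (p i) = b * of x * FreeGroup.lift t s) ∧
      ∃ (x : P) (s : FreeGroup I), k = b * of x * FreeGroup.lift t s := by
  classical
  have hex : ∃ m, ∃ (i : ι) (s r : FreeGroup I) (q : P),
      k = of (p i) * FreeGroup.lift t s * of q * FreeGroup.lift t r ∧ s.norm = m := by
    obtain ⟨i⟩ := ‹Nonempty ι›
    obtain ⟨s, r, q, hk⟩ := h i
    exact ⟨_, i, s, r, q, hk, rfl⟩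
  obtain ⟨i0, s0, r0, q0, hk0, hm⟩ := Nat.find_spec hex
  have hmin : ∀ (i : ι) (s r : FreeGroup I) (q : P),
      k = of (p i) * FreeGroup.lift t s * of q * FreeGroup.lift t r → s0.norm ≤ s.norm := by
    intro i s r q hk
    rw [hm]
    exact Nat.find_min' hex ⟨i, s, r, q, hk, rfl⟩
  refine ⟨of (p i0) * FreeGroup.lift t s0, ?_, q0, r0, hk0⟩
  intro i
  obtain ⟨s, r, q, hk⟩ := h i
  rcases List.eq_nil_or_concat s0.toWord with hs0 | ⟨l0, a, hs0⟩
  · have : s0 = 1 := by
      rw [← FreeGroup.toWord_eq_nil_iff]; exact hs0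
    subst this
    exact ⟨(p i0)⁻¹ * p i, 1, by simp⟩
  · rw [List.concat_eq_append] at hs0
    have hs0r : FreeGroup.IsReduced (l0 ++ [a]) := by
      rw [← hs0]; exact FreeGroup.isReduced_toWord
    have hs0e : FreeGroup.lift t s0 = FreeGroup.lift t (FreeGroup.mk l0) * lt t a := by
      rw [← FreeGroup.mk_toWord (x := s0), hs0, ← wp_pw of t, ← wp_pw of t]
      simp [pw]
    set ρ := r0 * r⁻¹ with hρ
    have heq : of ((p i0)⁻¹ * p i) * FreeGroup.lift t s =
        (FreeGroup.lift t s0 * of q0 * FreeGroup.lift t ρ) * of q⁻¹ := by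
      rw [hk0] at hk
      have h5 : of (p i) * FreeGroup.lift t s = of (p i0) * FreeGroup.lift t s0 * of q0 *
          FreeGroup.lift t r0 * (FreeGroup.lift t r)⁻¹ * (of q)⁻¹ := by
        rw [hk]; group
      rw [map_mul, map_inv, mul_assoc, h5, hρ, map_mul, map_inv, map_inv]
      group
    -- the reduced word of the right hand side
    set W : List ((I × Bool) × P) := (pw l0 ++ [(a, q0)]) ++ pw ρ.toWord with hW
    have hWp : wp of t W = FreeGroup.lift t s0 * of q0 * FreeGroup.lift t ρ := by
      rw [hW, wp_append, wp_append, wp_pw, wp_pw, FreeGroup.mk_toWord, hs0e]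
      simp only [wp_cons, wp_nil, mul_one, mul_assoc]
    have hWc : W.IsChain (Red f g) := by
      have hr1 := (pw_chain (f := f) (g := g) hs0r)
      rw [pw, List.map_append, List.isChain_append] at hr1
      rw [hW, List.isChain_append, List.isChain_append]
      refine ⟨⟨hr1.1, List.isChain_singleton _, ?_⟩, pw_chain FreeGroup.isReduced_toWord, ?_⟩
      · intro x hx y hy
        have h6 := hr1.2.2 x hx (a, 1) (by simp)
        simp only [List.head?_cons, Option.mem_def, Option.some.injEq] at hy
        subst hy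
        exact h6
      · intro x hx y hy
        rw [List.getLast?_append] at hx
        simp only [List.getLast?_singleton, Option.some_or, Option.mem_def,
          Option.some.injEq] at hx
        subst hx
        intro e1 e2
        by_contra e3
        have e4 := eq_of_ne_iv e1 e3
        simp only at e4
        cases hρw : ρ.toWord with
        | nil => rw [hρw] at hy; simp [pw] at hy
        | cons c l1 =>
          rw [hρw] at hy
          simp only [pw, List.map_cons, List.head?_cons, Option.mem_def, Option.some.injEq] at hy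
          subst hy
          simp only at e4
          obtain ⟨u, hu⟩ := hS.mem_conj e2
          have h7 : FreeGroup.lift t ρ = (lt t a)⁻¹ * FreeGroup.lift t (FreeGroup.mk l1) := by
            rw [← FreeGroup.mk_toWord (x := ρ), hρw, ← wp_pw of t, ← wp_pw of t, ← lt_iv, ← e4]
            simp [pw]
          have h8 := hmin i0 (FreeGroup.mk l0) (FreeGroup.mk l1 * r) u (by
            have h9 : FreeGroup.lift t r0 = FreeGroup.lift t ρ * FreeGroup.lift t r := by
              rw [hρ]; simp
            rw [hk0, hs0e, h9, h7, ← hu, map_mul]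
            simp only [mul_assoc])
          have h9 : (FreeGroup.mk l0).norm ≤ l0.length := FreeGroup.norm_mk_le
          have h10 : s0.norm = l0.length + 1 := by
            rw [FreeGroup.norm, hs0]; simp
          omega
    obtain ⟨-, h11⟩ := hS.uni W (pw s.toWord) ((p i0)⁻¹ * p i) q⁻¹ hWc
      (pw_chain FreeGroup.isReduced_toWord) (by
        rw [wp_pw, FreeGroup.mk_toWord, hWp, heq])
    have h12 := h11 (pw l0 ++ [(a, q0)] : List ((I × Bool) × P)).length
    rw [hW, List.take_left] at h12
    have h13 : wp of t (pw l0 ++ [(a, q0)]) = FreeGroup.lift t s0 * of q0 := by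
      rw [wp_append, wp_pw, hs0e]
      simp only [wp_cons, wp_nil, mul_one, mul_assoc]
    rw [h13] at h12
    set m := (pw l0 ++ [(a, q0)] : List ((I × Bool) × P)).length with hm'
    have h14 : (pw s.toWord : List ((I × Bool) × P)).take m = pw (s.toWord.take m) := by
      rw [pw, pw, List.map_take]
    rw [h14, wp_pw] at h12
    obtain ⟨x, hx⟩ := h12
    refine ⟨q0 * x, (FreeGroup.mk (s.toWord.take m))⁻¹, ?_⟩
    rw [map_mul, hx, map_inv, map_mul, map_inv]
    group

/-- finitely many pairwise meeting cosets have a common vertex -/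
theorem Sol.helly (hS : Sol f g G of t) (F : ℕ → G)
    (h : ∀ i j, i < j → ∃ (s r : FreeGroup I) (q : P),
      (F i)⁻¹ * F j = FreeGroup.lift t s * of q * FreeGroup.lift t r) (N : ℕ) :
    ∃ b : G, ∀ i, i ≤ N → ∃ (x : P) (s : FreeGroup I), F i = b * of x * FreeGroup.lift t s := by
  induction N with
  | zero =>
    refine ⟨F 0, fun i hi => ⟨1, 1, ?_⟩⟩
    have : i = 0 := by omega
    subst this; simp
  | succ N ih =>
    obtain ⟨b, hb⟩ := ih
    have hb' : ∀ i : Fin (N + 1), ∃ (x : P) (s : FreeGroup I), F i = b * of x * FreeGroup.lift t s :=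
      fun i => hb i (by omega)
    choose x s hxs using hb'
    obtain ⟨b', h1, x', s', h2⟩ := hS.gate x (b⁻¹ * F (N + 1)) (by
      intro i
      obtain ⟨s1, r1, q1, h3⟩ := h i (N + 1) i.isLt
      refine ⟨s i * s1, r1, q1, ?_⟩
      have h4 : F (N + 1) = F i * (FreeGroup.lift t s1 * of q1 * FreeGroup.lift t r1) := by
        rw [← h3]; group
      rw [h4, hxs i, map_mul]; group)
    refine ⟨b * b', fun i hi => ?_⟩
    rcases Nat.lt_or_ge i (N + 1) with hlt | hge
    · obtain ⟨y, s'', h5⟩ := h1 ⟨i, hlt⟩
      refine ⟨y, s'' * s ⟨i, hlt⟩, ?_⟩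
      have := hxs ⟨i, hlt⟩
      simp only at this
      rw [this, h5, map_mul]; group
    · have : i = N + 1 := by omega
      subst this
      refine ⟨x', s', ?_⟩
      have : F (N + 1) = b * (b⁻¹ * F (N + 1)) := by group
      rw [this, h2]; group

end

end Pool.Agent.W379.MH
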