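import Pool.Agent.W379.Coset

set_option autoImplicit false
set_option linter.unusedSectionVars false

namespace Pool.Agent.W379.MH

section
variable {P : Type} [Group P] {I : Type} [DecidableEq I] {Q : I → Type} [∀ i, Group (Q i)]
  {f g : ∀ i, Q i →* P} {G : Type} [Group G] {of : P →* G} {t : I → G}

/-- a letter moves `x` to `y` -/
def mv (f g : ∀ i, Q i →* P) (a : I × Bool) (x y : P) : Prop :=
  ∃ q, (a.2 = true ∧ x = f a.1 q ∧ y = g a.1 q) ∨ (a.2 = false ∧ x = g a.1 q ∧ y = f a.1 q)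

theorem Sol.mv_eq (hS : Sol f g G of t) {a : I × Bool} {x y : P} (h : mv f g a x y) :
    of y * lt t a = lt t a * of x := by
  obtain ⟨q, ⟨h1, rfl, rfl⟩ | ⟨h1, rfl, rfl⟩⟩ := h
  · simp only [lt, h1, if_true]
    exact (hS.rel a.1 q).symm
  · simp only [lt, h1, Bool.false_eq_true, if_false]
    have := hS.rel a.1 q
    rw [eq_inv_mul_iff_mul_eq, ← mul_assoc, this]; group

/-- combinatorial hypotheses on the ladder -/
structure Lad (f g : ∀ i, Q i →* P) (l : ℕ → ℕ → P) : Prop where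
  step : ∀ (a : I × Bool) (n i j : ℕ), i ≤ n → j ≤ n → i ≠ j → (l n i)⁻¹ * l n j ∈ dom f g a →
    ∃ n' i' j', i' ≤ n' ∧ j' ≤ n' ∧ i' ≠ j' ∧ mv f g a (l n i) (l n' i') ∧
      mv f g a (l n j) (l n' j') ∧ (n' = n ∨ (i ≤ 1 ∧ j ≤ 1))
  rigid : ∀ n a b m c e k i j : ℕ, a ≤ n → b ≤ n → a ≠ b → c ≤ m → e ≤ m → c ≠ e →
    i ≤ k → j ≤ k → i ≠ j →
    ((l n a)⁻¹ * l n b)⁻¹ * ((l m c)⁻¹ * l m e) = (l k i)⁻¹ * l k j → n = m ∧ a = c
  inj : ∀ n i m j : ℕ, i ≤ n → j ≤ m → l n i = l m j → n = m ∧ i = j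

/-- differences of one layer -/
def EE (l : ℕ → ℕ → P) (w : P) : Prop :=
  ∃ n i j, i ≤ n ∧ j ≤ n ∧ i ≠ j ∧ w = (l n i)⁻¹ * l n j

theorem EE.inv {l : ℕ → ℕ → P} {w : P} (h : EE l w) : EE l w⁻¹ := by
  obtain ⟨n, i, j, h1, h2, h3, rfl⟩ := h
  exact ⟨n, j, i, h2, h1, h3.symm, by group⟩

theorem Lad.one_not {l : ℕ → ℕ → P} (hL : Lad f g l) : ¬ EE l 1 := by
  rintro ⟨n, i, j, h1, h2, h3, h4⟩
  apply h3
  apply (hL.inj n i n j h1 h2 _).2
  exact (inv_mul_eq_one.mp h4.symm)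

theorem Lad.step' {l : ℕ → ℕ → P} (hL : Lad f g l) (hS : Sol f g G of t) {a : I × Bool}
    {n i j : ℕ} (hi : i ≤ n) (hj : j ≤ n) (hij : i ≠ j) {w' : P}
    (h : of w' * lt t a = lt t a * of ((l n i)⁻¹ * l n j)) :
    ∃ n' i' j', i' ≤ n' ∧ j' ≤ n' ∧ i' ≠ j' ∧ of (l n' i') * lt t a = lt t a * of (l n i) ∧
      of (l n' j') * lt t a = lt t a * of (l n j) ∧ (n' = n ∨ (i ≤ 1 ∧ j ≤ 1)) ∧
      w' = (l n' i')⁻¹ * l n' j' := by
  have h1 : (l n i)⁻¹ * l n j ∈ dom f g a := by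
    apply hS.conj_mem
    rw [← h]
    exact ⟨w', by group⟩
  obtain ⟨n', i', j', h2, h3, h4, h5, h6, h7⟩ := hL.step a n i j hi hj hij h1
  have h8 := hS.mv_eq h5
  have h9 := hS.mv_eq h6
  refine ⟨n', i', j', h2, h3, h4, h8, h9, h7, ?_⟩
  apply hS.inj
  have h10 : of (l n' i') = lt t a * of (l n i) * (lt t a)⁻¹ := by rw [← h8]; group
  have h11 : of (l n' j') = lt t a * of (l n j) * (lt t a)⁻¹ := by rw [← h9]; group
  have h12 : of w' = lt t a * of ((l n i)⁻¹ * l n j) * (lt t a)⁻¹ := by rw [← h]; group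
  rw [h12, map_mul, map_mul, map_inv, map_inv, h10, h11]
  group

theorem Lad.EE_of {l : ℕ → ℕ → P} (hL : Lad f g l) (hS : Sol f g G of t) {w w0 : P}
    {x y : FreeGroup I} (h : of w * FreeGroup.lift t y = FreeGroup.lift t x * of w0)
    (h0 : EE l w0) : EE l w := by
  have h1 := hS.transport h
  subst h1
  apply hS.move (ι := Unit) (fun w => EE l (w ())) _ x (fun _ => w0) (fun _ => w) h0
    (fun _ => h)
  intro a w w' hw hw'
  obtain ⟨n, i, j, h1, h2, h3, h4⟩ := hw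
  have h5 := hw' ()
  rw [h4] at h5
  obtain ⟨n', i', j', h6, h7, h8, -, -, -, h9⟩ := hL.step' hS h1 h2 h3 h5
  exact ⟨n', i', j', h6, h7, h8, h9⟩

/-- data of a clique seen from a vertex -/
theorem Lad.vertex {l : ℕ → ℕ → P} (hL : Lad f g l) (hS : Sol f g G of t) (F : ℕ → G)
    (hF : ∀ i j, i < j → ∃ (s r : FreeGroup I) (q : P), EE l q ∧
      (F i)⁻¹ * F j = FreeGroup.lift t s * of q * FreeGroup.lift t r) (N : ℕ) (hN : 2 ≤ N) :
    ∃ (b : G) (x : ℕ → P) (s : ℕ → FreeGroup I) (n a : ℕ) (β : ℕ → ℕ),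
      (∀ i, i ≤ N → F i = b * of (x i) * FreeGroup.lift t (s i)) ∧
      (∀ i j, i < j → j ≤ N → EE l ((x i)⁻¹ * x j)) ∧
      (∀ j, 1 ≤ j → j ≤ N → β j ≤ n ∧ β j ≠ a ∧ (x 0)⁻¹ * x j = (l n a)⁻¹ * l n (β j)) ∧
      a ≤ n ∧ N ≤ n ∧ β 1 ≠ β 2 := by
  obtain ⟨b, hb⟩ := hS.helly F (fun i j hij => by
    obtain ⟨s, r, q, -, h⟩ := hF i j hij
    exact ⟨s, r, q, h⟩) N
  have hb' : ∀ i, ∃ (x : P) (s : FreeGroup I), i ≤ N → F i = b * of x * FreeGroup.lift t s := by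
    intro i
    by_cases hi : i ≤ N
    · obtain ⟨x, s, h⟩ := hb i hi
      exact ⟨x, s, fun _ => h⟩
    · exact ⟨1, 1, fun h => absurd h hi⟩
  choose x s hxs using hb'
  have hE : ∀ i j, i < j → j ≤ N → EE l ((x i)⁻¹ * x j) := by
    intro i j hij hj
    obtain ⟨s', r', q, hq, h⟩ := hF i j hij
    apply hL.EE_of hS (w0 := q) (x := s i * s') (y := s j * r'⁻¹) _ hq
    rw [hxs i (by omega), hxs j hj] at h
    have h1 : of (x i)⁻¹ * of (x j) * FreeGroup.lift t (s j) =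
        FreeGroup.lift t (s i) * (FreeGroup.lift t s' * of q * FreeGroup.lift t r') := by
      rw [← h, map_inv]; group
    rw [map_mul, map_mul, ← mul_assoc, h1, map_mul, map_inv]
    group
  have hE0 : ∀ j, ∃ n a β, 1 ≤ j → j ≤ N → a ≤ n ∧ β ≤ n ∧ a ≠ β ∧
      (x 0)⁻¹ * x j = (l n a)⁻¹ * l n β := by
    intro j
    by_cases hj : 1 ≤ j ∧ j ≤ N
    · obtain ⟨n, a, β, h1, h2, h3, h4⟩ := hE 0 j (by omega) hj.2
      exact ⟨n, a, β, fun _ _ => ⟨h1, h2, h3, h4⟩⟩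
    · exact ⟨0, 0, 0, fun h1 h2 => absurd ⟨h1, h2⟩ hj⟩
  choose n a β hβ using hE0
  have hcommon : ∀ j, 1 ≤ j → j ≤ N → n j = n 1 ∧ a j = a 1 := by
    intro j h1 h2
    rcases Nat.eq_or_lt_of_le h1 with rfl | h3
    · exact ⟨rfl, rfl⟩
    · obtain ⟨k, i', j', e1, e2, e3, e4⟩ := hE 1 j h3 h2
      obtain ⟨a1, a2, a3, a4⟩ := hβ 1 le_rfl (by omega)
      obtain ⟨b1, b2, b3, b4⟩ := hβ j h1 h2
      have := hL.rigid _ _ _ _ _ _ k i' j' a1 a2 a3 b1 b2 b3 e1 e2 e3 (by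
        rw [← a4, ← b4, ← e4]; group)
      exact ⟨this.1.symm, this.2.symm⟩
  have hfin : ∀ j, 1 ≤ j → j ≤ N → β j ≤ n 1 ∧ β j ≠ a 1 ∧
      (x 0)⁻¹ * x j = (l (n 1) (a 1))⁻¹ * l (n 1) (β j) := by
    intro j h1 h2
    obtain ⟨c1, c2⟩ := hcommon j h1 h2
    obtain ⟨b1, b2, b3, b4⟩ := hβ j h1 h2
    rw [c1, c2] at b4
    rw [c1] at b2
    rw [c2] at b3
    exact ⟨b2, b3.symm, b4⟩
  have hinj : ∀ i j, 1 ≤ i → i < j → j ≤ N → β i ≠ β j := by
    intro i j h1 h2 h3 h4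
    have e1 := (hfin i h1 (by omega)).2.2
    have e2 := (hfin j (by omega) h3).2.2
    rw [h4, ← e2] at e1
    have e3 : x i = x j := mul_left_cancel e1
    have e4 := hE i j h2 h3
    rw [e3, inv_mul_cancel] at e4
    exact hL.one_not e4
  refine ⟨b, x, s, n 1, a 1, β, fun i => hxs i, hE, hfin, (hβ 1 le_rfl (by omega)).1, ?_,
    hinj 1 2 le_rfl (by omega) hN⟩
  -- cardinality
  have hcard : (Finset.Icc 1 N).card ≤ ((Finset.range (n 1 + 1)).erase (a 1)).card := by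
    apply Finset.card_le_card_of_injOn β
    · intro j hj
      rw [Finset.mem_coe, Finset.mem_Icc] at hj
      rw [Finset.mem_coe, Finset.mem_erase, Finset.mem_range]
      have := hfin j hj.1 hj.2
      exact ⟨this.2.1, by omega⟩
    · intro i hi j hj hij
      rw [Finset.mem_coe, Finset.mem_Icc] at hi hj
      rcases lt_trichotomy i j with h | h | h
      · exact absurd hij (hinj i j hi.1 h hj.2)
      · exact h
      · exact absurd hij.symm (hinj j i hj.1 h hi.2)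
  rw [Nat.card_Icc, Finset.card_erase_of_mem, Finset.card_range] at hcard
  · omega
  · rw [Finset.mem_range]
    have := (hβ 1 le_rfl (by omega)).1
    omega

theorem Lad.no_inf {l : ℕ → ℕ → P} (hL : Lad f g l) (hS : Sol f g G of t) :
    ¬ ∃ F : ℕ → G, ∀ i j, i < j → ∃ (s r : FreeGroup I) (q : P), EE l q ∧
      (F i)⁻¹ * F j = FreeGroup.lift t s * of q * FreeGroup.lift t r := by
  rintro ⟨F, hF⟩
  obtain ⟨b₀, x₀, s₀, n₀, a₀, β₀, h1, h1E, h2, h3, -, h5⟩ := hL.vertex hS F hF 2 le_rfl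
  obtain ⟨b, x, s, n, a, β, k1, k1E, k2, k3, k4, k5⟩ := hL.vertex hS F hF (n₀ + 3) (by omega)
  -- transport of the triple
  have key : ∀ j, j ≤ 2 → of ((x 0)⁻¹ * x j) * FreeGroup.lift t (s j * (s₀ j)⁻¹) =
      FreeGroup.lift t (s 0 * (s₀ 0)⁻¹) * of ((x₀ 0)⁻¹ * x₀ j) := by
    intro j hj
    have e1 := h1 0 (by omega)
    have e2 := h1 j hj
    have e3 := k1 0 (by omega)
    have e4 := k1 j (by omega)
    have e5 : (F 0)⁻¹ * F j = (FreeGroup.lift t (s₀ 0))⁻¹ * of ((x₀ 0)⁻¹ * x₀ j) *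
        FreeGroup.lift t (s₀ j) := by
      rw [e1, e2, map_mul, map_inv]; group
    have e6 : (F 0)⁻¹ * F j = (FreeGroup.lift t (s 0))⁻¹ * of ((x 0)⁻¹ * x j) *
        FreeGroup.lift t (s j) := by
      rw [e3, e4, map_mul, map_inv]; group
    have e7 : of ((x 0)⁻¹ * x j) * FreeGroup.lift t (s j) = FreeGroup.lift t (s 0) *
        ((FreeGroup.lift t (s₀ 0))⁻¹ * of ((x₀ 0)⁻¹ * x₀ j) * FreeGroup.lift t (s₀ j)) := by
      rw [← e5, e6]; group
    rw [map_mul (FreeGroup.lift t) (s j), ← mul_assoc, e7, map_inv,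
      map_mul (FreeGroup.lift t) (s 0), map_inv]
    group
  have t1 := hS.transport (key 1 (by omega))
  have t2 := hS.transport (key 2 (by omega))
  set X := s 0 * (s₀ 0)⁻¹ with hX
  have key1 := key 1 (by omega)
  have key2 := key 2 (by omega)
  rw [← t1] at key1
  rw [← t2] at key2
  obtain ⟨i0, i1, i2, c0, c1, c2, c01, c02, c12, c3, c4⟩ := hS.move (ι := Bool)
    (fun w => ∃ i0 i1 i2, i0 ≤ n₀ ∧ i1 ≤ n₀ ∧ i2 ≤ n₀ ∧ i0 ≠ i1 ∧ i0 ≠ i2 ∧ i1 ≠ i2 ∧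
      w false = (l n₀ i0)⁻¹ * l n₀ i1 ∧ w true = (l n₀ i0)⁻¹ * l n₀ i2)
    (by
      rintro c w w' ⟨i0, i1, i2, c0, c1, c2, c01, c02, c12, c3, c4⟩ hw
      have w1 := hw false
      have w2 := hw true
      rw [c3] at w1
      rw [c4] at w2
      obtain ⟨n', j0, j1, d0, d1, d01, m0, m1, l1, v1⟩ := hL.step' hS c0 c1 c01 w1
      obtain ⟨n'', j0', j2, d0', d2, d02, m0', m2, l2, v2⟩ := hL.step' hS c0 c2 c02 w2
      have e1 : l n' j0 = l n'' j0' := by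
        apply hS.inj
        exact mul_right_cancel (m0.trans m0'.symm)
      obtain ⟨e2, e3⟩ := hL.inj _ _ _ _ d0 d0' e1
      subst e2; subst e3
      have e4 : n' = n₀ := by
        rcases l1 with l1 | l1
        · exact l1
        · rcases l2 with l2 | l2
          · exact l2
          · omega
      subst e4
      refine ⟨j0, j1, j2, d0, d1, d2, d01, d02, ?_, v1, v2⟩
      intro e5
      subst e5
      apply c12
      have e6 : l n' i1 = l n' i2 := by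
        apply hS.inj
        exact mul_left_cancel (m1.symm.trans m2)
      exact (hL.inj _ _ _ _ c1 c2 e6).2)
    X (fun e => if e then (x₀ 0)⁻¹ * x₀ 2 else (x₀ 0)⁻¹ * x₀ 1)
    (fun e => if e then (x 0)⁻¹ * x 2 else (x 0)⁻¹ * x 1)
    ⟨a₀, β₀ 1, β₀ 2, h3, (h2 1 le_rfl (by omega)).1, (h2 2 (by omega) le_rfl).1,
      (h2 1 le_rfl (by omega)).2.1.symm, (h2 2 (by omega) le_rfl).2.1.symm, h5,
      by simpa using (h2 1 le_rfl (by omega)).2.2, by simpa using (h2 2 (by omega) le_rfl).2.2⟩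
    (by
      intro e
      cases e
      · simpa using key1
      · simpa using key2)
  simp only [Bool.false_eq_true, if_false, if_true] at c3 c4
  obtain ⟨k, i, j, e1, e2, e3, e4⟩ := k1E 1 2 (by omega) (by omega)
  have f1 := k2 2 (by omega) (by omega)
  have := hL.rigid n₀ i0 i1 n a (β 2) k i j c0 c1 c01 k3 f1.1 f1.2.1.symm e1 e2 e3 (by
    rw [← c3, ← f1.2.2, ← e4]; group)
  omega

end

end Pool.Agent.W379.MH
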