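import Pool.Agent.W379.Rigid
import Pool.Agent.W379.Ladder

set_option autoImplicit false

namespace Pool.Agent.W379.Ds

open FreeGroup (of lift mk)

/-- the base group -/
abbrev P : Type := FreeGroup (Fin 3)

/-- generator -/
def h : P := of 0
/-- generator -/
def p : P := of 1
/-- generator -/
def v : P := of 2

/-- stable letters -/
inductive Ltr where
  | T : Ltr
  | H : Ltr
  | N : Ltr
deriving DecidableEq

instance : Finite Ltr := by
  refine Finite.of_injective (β := Fin 3) (fun x => match x with
    | .T => 0
    | .H => 1
    | .N => 2) ?_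
  intro a b hab
  cases a <;> cases b <;> simp at hab ⊢

/-- ranks -/
abbrev rk : Ltr → ℕ
  | .T => 3
  | .H => 3
  | .N => 2

/-- source map of T -/
def fT : FreeGroup (Fin 3) →* P := lift ![p ^ 2, v, p * v * p⁻¹]
/-- target map of T -/
def gT : FreeGroup (Fin 3) →* P := lift ![p, v ^ 2, h ^ 2]
/-- source map of H -/
def fH : FreeGroup (Fin 3) →* P := lift ![h, p ^ 2, v]
/-- target map of H -/
def gH : FreeGroup (Fin 3) →* P := lift ![h, p, v ^ 2]
/-- source map of N -/
def fN : FreeGroup (Fin 2) →* P := lift ![h ^ 2, p * v ^ 2 * p⁻¹]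
/-- target map of N -/
def gN : FreeGroup (Fin 2) →* P := lift ![h, p * v * p⁻¹]

/-- source maps -/
def f : ∀ i : Ltr, FreeGroup (Fin (rk i)) →* P
  | .T => fT
  | .H => fH
  | .N => fN

/-- target maps -/
def g : ∀ i : Ltr, FreeGroup (Fin (rk i)) →* P
  | .T => gT
  | .H => gH
  | .N => gN

theorem powlift_inj {α : Type} [DecidableEq α] (k : α → ℕ) (hk : ∀ i, k i ≠ 0) :
    Function.Injective (lift (fun i => (of i : FreeGroup α) ^ k i)) := by
  rw [injective_iff_map_eq_one]
  intro x hx
  have key : ∀ l : List (α × Bool), FreeGroup.IsReduced l →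
      ∃ l' : List (α × Bool), FreeGroup.IsReduced l' ∧
        lift (fun i => (of i : FreeGroup α) ^ k i) (mk l) = mk l' ∧ l'.head? = l.head? := by
    intro l
    induction l with
    | nil => intro _; exact ⟨[], FreeGroup.IsReduced.nil, by simp [← FreeGroup.one_eq_mk], rfl⟩
    | cons a l ih =>
      intro hl
      have hl2 : FreeGroup.IsReduced l ∧ ∀ b ∈ l.head?, a.1 = b.1 → a.2 = b.2 := by
        unfold FreeGroup.IsReduced at *
        rw [List.isChain_cons] at hl
        exact ⟨hl.2, hl.1⟩
      obtain ⟨l', h1, h2, h3⟩ := ih hl2.1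
      refine ⟨List.replicate (k a.1) a ++ l', red_block h1 (by rw [h3]; exact hl2.2), ?_, ?_⟩
      · have : mk (a :: l) = mk [a] * mk l := by rw [FreeGroup.mul_mk]; rfl
        rw [this, map_mul, h2, ← FreeGroup.mul_mk]
        congr 1
        rcases a with ⟨i, e⟩
        cases e
        · simp [pow_inv_mk]
        · simp [pow_mk]
      · rw [head_block (Nat.pos_of_ne_zero (hk _))]; rfl
  obtain ⟨l', h1, h2, h3⟩ := key x.toWord FreeGroup.isReduced_toWord
  rw [FreeGroup.mk_toWord, hx] at h2
  have h4 : l' = [] := by
    have := congrArg FreeGroup.toWord h2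
    rw [FreeGroup.toWord_mk, h1.reduce_eq, FreeGroup.toWord_one] at this
    exact this.symm
  rw [h4] at h3
  have h5 : x.toWord = [] := by
    cases hxw : x.toWord with
    | nil => rfl
    | cons a l => rw [hxw] at h3; simp at h3
  exact FreeGroup.toWord_eq_nil_iff.mp h5

theorem powlift_inj' {α β : Type} [DecidableEq β] (σ : α → β) (hσ : Function.Injective σ)
    (k : β → ℕ) (hk : ∀ i, k i ≠ 0) :
    Function.Injective (lift (fun i => (of (σ i) : FreeGroup β) ^ k (σ i))) := by
  have h1 : (lift (fun i => (of (σ i) : FreeGroup β) ^ k (σ i))) =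
      (lift (fun i => (of i : FreeGroup β) ^ k i)).comp (FreeGroup.map σ) := by
    ext i; simp
  rw [h1]
  exact (powlift_inj k hk).comp (FreeGroup.map_injective hσ)

theorem inj_of_comp {α β γ : Type} (u : FreeGroup α →* FreeGroup β) (w : FreeGroup β →* FreeGroup γ)
    [DecidableEq γ]
    (σ : α → γ) (hσ : Function.Injective σ) (k : γ → ℕ) (hk : ∀ i, k i ≠ 0)
    (hh : ∀ i, w (u (of i)) = of (σ i) ^ k (σ i)) : Function.Injective u := by
  have h1 : w.comp u = lift (fun i => (of (σ i) : FreeGroup γ) ^ k (σ i)) := by
    ext i; simp [hh]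
  have h2 : Function.Injective (w.comp u) := by
    rw [h1]; exact powlift_inj' σ hσ k hk
  intro x y hxy
  apply h2
  show w (u x) = w (u y)
  rw [hxy]

/-- swap of the two sheets -/
abbrev W2 : Type := (Bool → FreeGroup (Fin 3)) ⋊[mulAutArrow] (Equiv.Perm Bool)

/-- the detecting map for the index two subgroup -/
noncomputable def rho : P →* W2 :=
  lift ![1, SemidirectProduct.inl (fun b => if b then 1 else of 0) *
    SemidirectProduct.inr (Equiv.swap true false),
    SemidirectProduct.inl (fun b => if b then of 1 else of 2)]

/-- second coordinate -/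
noncomputable def psi : FreeGroup (Fin 3) →* (Bool → FreeGroup (Fin 3)) :=
  lift ![fun _ => of 0, fun b => if b then of 1 else of 2,
    fun b => if b then of 2 else of 0 * of 1 * (of 0)⁻¹]

theorem psi_true (q : FreeGroup (Fin 3)) : psi q true = q := by
  have : (Pi.evalMonoidHom (fun _ : Bool => FreeGroup (Fin 3)) true).comp psi = MonoidHom.id _ := by
    ext i; fin_cases i <;> simp [psi]
  exact DFunLike.congr_fun this q

theorem rho_fT (q : FreeGroup (Fin 3)) : rho (fT q) = SemidirectProduct.inl (psi q) := by
  have : rho.comp fT = (SemidirectProduct.inl : _ →* W2).comp psi := by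
    apply FreeGroup.ext_hom
    intro i
    have hp : rho p = SemidirectProduct.inl (fun b => if b then 1 else of 0) *
        SemidirectProduct.inr (Equiv.swap true false) := by simp [rho, p]
    have hv : rho v = SemidirectProduct.inl (fun b => if b then of 1 else of 2) := by
      simp [rho, v]
    have hact : ∀ F : Bool → FreeGroup (Fin 3),
        mulAutArrow (Equiv.swap true false : Equiv.Perm Bool) F = fun b => F (!b) := by
      intro F
      funext b
      cases b <;> rfl
    rw [MonoidHom.comp_apply, MonoidHom.comp_apply, fT, psi, FreeGroup.lift_apply_of,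
      FreeGroup.lift_apply_of]
    fin_cases i
    · change rho (p ^ 2) = SemidirectProduct.inl (fun _ => of 0)
      rw [map_pow, hp, pow_two]
      apply SemidirectProduct.ext
      · simp only [SemidirectProduct.mul_left, SemidirectProduct.left_inl,
          SemidirectProduct.left_inr, SemidirectProduct.right_inl, SemidirectProduct.mul_right,
          SemidirectProduct.right_inr, map_one, mul_one, one_mul, hact]
        funext b
        cases b <;> simp
      · simp
    · exact hv
    · change rho (p * v * p⁻¹) = SemidirectProduct.inl (fun b => if b then of 2 else of 0 * of 1 * (of 0)⁻¹)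
      rw [map_mul, map_mul, map_inv, hp, hv, mul_inv_eq_iff_eq_mul]
      apply SemidirectProduct.ext
      · simp only [SemidirectProduct.mul_left, SemidirectProduct.left_inl,
          SemidirectProduct.left_inr, SemidirectProduct.right_inl, SemidirectProduct.mul_right,
          SemidirectProduct.right_inr, map_one, mul_one, one_mul, hact]
        funext b
        cases b <;> simp
      · simp
  exact DFunLike.congr_fun this q

theorem fT_inj : Function.Injective fT := by
  rw [injective_iff_map_eq_one]
  intro q hq
  have h1 := rho_fT q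
  rw [hq, map_one] at h1
  have h2 : psi q = 1 := by
    have := congrArg SemidirectProduct.left h1
    simpa using this.symm
  rw [← psi_true q, h2]; rfl

theorem gT_inj : Function.Injective gT := by
  apply inj_of_comp gT (MonoidHom.id _) ![1, 2, 0] (by decide) ![2, 1, 2] (by decide)
  intro i
  fin_cases i <;> simp [gT, p, v, h]

theorem fH_inj : Function.Injective fH := by
  apply inj_of_comp fH (MonoidHom.id _) ![0, 1, 2] (by decide) ![1, 2, 1] (by decide)
  intro i
  fin_cases i <;> simp [fH, p, v, h]

theorem gH_inj : Function.Injective gH := by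
  apply inj_of_comp gH (MonoidHom.id _) ![0, 1, 2] (by decide) ![1, 1, 2] (by decide)
  intro i
  fin_cases i <;> simp [gH, p, v, h]

theorem fN_inj : Function.Injective fN := by
  apply inj_of_comp fN (lift ![of (0 : Fin 2), 1, of 1]) ![0, 1] (by decide) ![2, 2] (by decide)
  intro i
  fin_cases i <;> simp [fN, p, v, h]

theorem gN_inj : Function.Injective gN := by
  apply inj_of_comp gN (lift ![of (0 : Fin 2), 1, of 1]) ![0, 1] (by decide) ![1, 1] (by decide)
  intro i
  fin_cases i <;> simp [gN, p, v, h]

theorem f_inj (i : Ltr) : Function.Injective (f i) := by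
  cases i
  · exact fT_inj
  · exact fH_inj
  · exact fN_inj

theorem g_inj (i : Ltr) : Function.Injective (g i) := by
  cases i
  · exact gT_inj
  · exact gH_inj
  · exact gN_inj

end Pool.Agent.W379.Ds
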