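import Pool.Agent.W379.Design

set_option autoImplicit false

namespace Pool.Agent.W379.Ds

open FreeGroup (of lift mk)
open Pool.Agent.W379.MH

/-- ladder element -/
def el (k m : ℕ) : P := p ^ (2 ^ k) * v ^ (2 ^ m) * (p ^ (2 ^ k))⁻¹

/-- the ladder -/
def l (n i : ℕ) : P := if i = 0 then h ^ (2 ^ n) else el (i - 1) (n - i)

theorem l_zero (n : ℕ) : l n 0 = h ^ (2 ^ n) := by simp [l]
theorem l_succ (n i : ℕ) : l n (i + 1) = el i (n - (i + 1)) := by simp [l]

/-- exponent of h -/
def hexp : P →* Multiplicative ℤ := lift ![Multiplicative.ofAdd 1, 1, 1]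

theorem hexp_fT (q : FreeGroup (Fin 3)) : hexp (fT q) = 1 := by
  have : hexp.comp fT = 1 := by
    apply FreeGroup.ext_hom
    intro i
    fin_cases i <;> simp [hexp, fT, p, v]
  exact DFunLike.congr_fun this q

theorem hexp_l_zero (n : ℕ) : hexp (l n 0) = Multiplicative.ofAdd (2 ^ n : ℤ) := by
  rw [l_zero, map_pow]
  have : hexp h = Multiplicative.ofAdd 1 := by simp [hexp, h]
  rw [this, ← ofAdd_nsmul]
  simp

theorem hexp_l_succ (n i : ℕ) : hexp (l n (i + 1)) = 1 := by
  rw [l_succ, el]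
  have h1 : hexp p = 1 := by simp [hexp, p]
  have h2 : hexp v = 1 := by simp [hexp, v]
  simp [h1, h2]

/-- exponent of v modulo two -/
def vexp : P →* Multiplicative (ZMod 2) := lift ![1, 1, Multiplicative.ofAdd 1]

theorem vexp_h : vexp h = 1 := by simp [vexp, h]
theorem vexp_p : vexp p = 1 := by simp [vexp, p]
theorem vexp_v2 : vexp v ^ 2 = 1 := by
  simp only [vexp, v]
  rw [FreeGroup.lift_apply_of]
  decide
theorem vexp_v_ne : vexp v ≠ 1 := by
  simp only [vexp, v]
  rw [FreeGroup.lift_apply_of]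
  decide

theorem vexp_gT (q : FreeGroup (Fin 3)) : vexp (gT q) = 1 := by
  have : vexp.comp gT = 1 := by
    apply FreeGroup.ext_hom
    intro i
    rw [MonoidHom.comp_apply, gT, FreeGroup.lift_apply_of]
    fin_cases i
    · exact vexp_p
    · exact (map_pow vexp v 2).trans vexp_v2
    · exact (map_pow vexp h 2).trans (by rw [vexp_h, one_pow]; rfl)
  exact DFunLike.congr_fun this q

theorem vexp_gH (q : FreeGroup (Fin 3)) : vexp (gH q) = 1 := by
  have : vexp.comp gH = 1 := by
    apply FreeGroup.ext_hom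
    intro i
    rw [MonoidHom.comp_apply, gH, FreeGroup.lift_apply_of]
    fin_cases i
    · exact vexp_h
    · exact vexp_p
    · exact (map_pow vexp v 2).trans vexp_v2
  exact DFunLike.congr_fun this q

theorem vexp_fN (q : FreeGroup (Fin 2)) : vexp (fN q) = 1 := by
  have : vexp.comp fN = 1 := by
    apply FreeGroup.ext_hom
    intro i
    rw [MonoidHom.comp_apply, fN, FreeGroup.lift_apply_of]
    fin_cases i
    · exact (map_pow vexp h 2).trans (by rw [vexp_h, one_pow]; rfl)
    · show vexp (p * v ^ 2 * p⁻¹) = 1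
      rw [map_mul, map_mul, map_pow, vexp_v2, vexp_p, map_inv, vexp_p]
      simp
  exact DFunLike.congr_fun this q

theorem vexp_l_zero (n : ℕ) : vexp (l n 0) = 1 := by
  rw [l_zero, map_pow, vexp_h, one_pow]

theorem vexp_el (k m : ℕ) : vexp (el k (m + 1)) = 1 := by
  have h1 : vexp v ^ 2 ^ (m + 1) = 1 := by
    rw [pow_succ, mul_comm, pow_mul, vexp_v2, one_pow]
  rw [el, map_mul, map_mul, map_pow, map_pow, map_inv, map_pow, vexp_p, h1]
  simp

theorem vexp_el' (k : ℕ) : vexp (el k 0) ≠ 1 := by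
  rw [el, map_mul, map_mul, map_pow, map_pow, map_inv, map_pow, vexp_p]
  simpa using vexp_v_ne

/-- `vexp` detects the top element -/
theorem vexp_l (n i : ℕ) (hi : i ≤ n) (hn : 1 ≤ n) : vexp (l n i) = 1 ↔ i ≠ n := by
  rcases Nat.eq_zero_or_pos i with rfl | h1
  · rw [vexp_l_zero]; simp; omega
  · obtain ⟨i, rfl⟩ : ∃ j, i = j + 1 := ⟨i - 1, by omega⟩
    rw [l_succ]
    constructor
    · intro h2 h3
      rw [h3, Nat.sub_self] at h2
      exact vexp_el' _ h2
    · intro h2
      obtain ⟨m, hm⟩ : ∃ m, n - (i + 1) = m + 1 := ⟨n - (i + 1) - 1, by omega⟩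
      rw [hm]; exact vexp_el _ _

theorem vexp_pair {n i j : ℕ} (hi : i ≤ n) (hj : j ≤ n) (hij : i ≠ j)
    (h1 : vexp ((l n i)⁻¹ * l n j) = 1) : i < n ∧ j < n := by
  have hn : 1 ≤ n := by omega
  rw [map_mul, map_inv, inv_mul_eq_one] at h1
  have a1 := vexp_l n i hi hn
  have a2 := vexp_l n j hj hn
  rw [h1] at a1
  by_cases h2 : vexp (l n j) = 1
  · have b1 := a1.mp h2
    have b2 := a2.mp h2
    omega
  · have b1 : ¬ i ≠ n := fun h => h2 (a1.mpr h)
    have b2 : ¬ j ≠ n := fun h => h2 (a2.mpr h)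
    omega

/-- flip -/
def sw : Equiv.Perm (Bool × ℤ) where
  toFun x := (!x.1, x.2)
  invFun x := (!x.1, x.2)
  left_inv x := by simp
  right_inv x := by simp

/-- shift of one sheet -/
def sh : Equiv.Perm (Bool × ℤ) where
  toFun x := (x.1, if x.1 then x.2 + 1 else x.2)
  invFun x := (x.1, if x.1 then x.2 - 1 else x.2)
  left_inv x := by
    rcases x with ⟨b, m⟩; cases b <;> simp
  right_inv x := by
    rcases x with ⟨b, m⟩; cases b <;> simp

/-- the permutation representation -/
def kap : P →* Equiv.Perm (Bool × ℤ) := lift ![1, sw, sh]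

theorem kap_h : kap h = 1 := by simp [kap, h]
theorem kap_p : kap p = sw := by simp [kap, p]
theorem kap_v : kap v = sh := by simp [kap, v]

theorem sw_apply (b : Bool) (m : ℤ) : sw (b, m) = (!b, m) := rfl
theorem sw_inv_apply (b : Bool) (m : ℤ) : sw⁻¹ (b, m) = (!b, m) := rfl
theorem sw_sq : sw ^ 2 = 1 := by
  ext ⟨b, m⟩ <;> simp [pow_two, Equiv.Perm.mul_apply, sw_apply]

theorem sh_pow_true (k : ℕ) (m : ℤ) : (sh ^ k) (true, m) = (true, m + k) := by
  induction k generalizing m with
  | zero => simp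
  | succ k ih =>
    rw [pow_succ, Equiv.Perm.mul_apply]
    have : sh (true, m) = (true, m + 1) := rfl
    rw [this, ih]
    push_cast
    congr 1; ring

theorem sh_pow_false (k : ℕ) (m : ℤ) : (sh ^ k) (false, m) = (false, m) := by
  induction k generalizing m with
  | zero => simp
  | succ k ih =>
    rw [pow_succ, Equiv.Perm.mul_apply]
    have : sh (false, m) = (false, m) := rfl
    rw [this, ih]

theorem kap_l_zero (n : ℕ) (x : Bool × ℤ) : kap (l n 0) x = x := by
  rw [l_zero, map_pow, kap_h, one_pow]; rfl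

theorem kap_l_one (n : ℕ) (b : Bool) (m : ℤ) :
    kap (l n 1) (b, m) = (b, if b then m else m + 2 ^ (n - 1)) := by
  rw [l_succ, el]
  simp only [pow_zero, pow_one, map_mul, map_pow, map_inv, kap_p, kap_v, Equiv.Perm.mul_apply,
    sw_inv_apply]
  cases b
  · simp only [Bool.not_false, sh_pow_true, sw_apply]
    simp
  · simp only [Bool.not_true, sh_pow_false, sw_apply]
    simp

theorem kap_l_two (n i : ℕ) (b : Bool) (m : ℤ) :
    kap (l n (i + 2)) (b, m) = (b, if b then m + 2 ^ (n - (i + 2)) else m) := by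
  have e : l n (i + 2) = el (i + 1) (n - (i + 2)) := l_succ n (i + 1)
  rw [e, el]
  have h1 : kap (p ^ 2 ^ (i + 1)) = 1 := by
    rw [map_pow, kap_p, pow_succ, mul_comm, pow_mul, sw_sq, one_pow]
  rw [map_mul, map_mul, map_inv, h1, map_pow, kap_v]
  simp only [one_mul, inv_one, mul_one]
  cases b
  · rw [sh_pow_false]; simp
  · rw [sh_pow_true]; simp

theorem fix_range {α Y : Type} (ψ : FreeGroup α →* Equiv.Perm Y) (x : Y)
    (h1 : ∀ i, ψ (of i) x = x) (q : FreeGroup α) : ψ q x = x := by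
  induction q using FreeGroup.induction_on with
  | C1 => simp
  | of i => exact h1 i
  | inv_of i _ =>
    rw [map_inv, Equiv.Perm.inv_eq_iff_eq]
    exact (h1 i).symm
  | mul a b ha hb => rw [map_mul, Equiv.Perm.mul_apply, hb, ha]

theorem kap_fH (q : FreeGroup (Fin 3)) (m : ℤ) : kap (fH q) (false, m) = (false, m) := by
  apply fix_range (kap.comp fH)
  intro i
  rw [MonoidHom.comp_apply, fH, FreeGroup.lift_apply_of]
  fin_cases i
  · show kap h _ = _
    rw [kap_h]; rfl
  · show kap (p ^ 2) _ = _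
    rw [map_pow, kap_p, sw_sq]; rfl
  · show kap v _ = _
    rw [kap_v]; rfl

theorem kap_gN (q : FreeGroup (Fin 2)) (m : ℤ) : kap (gN q) (true, m) = (true, m) := by
  apply fix_range (kap.comp gN)
  intro i
  rw [MonoidHom.comp_apply, gN, FreeGroup.lift_apply_of]
  fin_cases i
  · show kap h _ = _
    rw [kap_h]; rfl
  · show kap (p * v * p⁻¹) _ = _
    rw [map_mul, map_mul, map_inv, kap_p, kap_v]; rfl

theorem kap_fN (q : FreeGroup (Fin 2)) (m : ℤ) : kap (fN q) (true, m) = (true, m) := by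
  apply fix_range (kap.comp fN)
  intro i
  rw [MonoidHom.comp_apply, fN, FreeGroup.lift_apply_of]
  fin_cases i
  · show kap (h ^ 2) _ = _
    rw [map_pow, kap_h, one_pow]; rfl
  · show kap (p * v ^ 2 * p⁻¹) _ = _
    rw [map_mul, map_mul, map_inv, map_pow, kap_p, kap_v, Equiv.Perm.mul_apply,
      Equiv.Perm.mul_apply, sw_inv_apply, Bool.not_true, sh_pow_false]; rfl

theorem pair_fix {n i j : ℕ} {x : Bool × ℤ} (h1 : kap ((l n i)⁻¹ * l n j) x = x) :
    kap (l n j) x = kap (l n i) x := by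
  rw [map_mul, map_inv, Equiv.Perm.mul_apply, Equiv.Perm.inv_eq_iff_eq] at h1
  exact h1

/-- first test -/
theorem test_H {n i j : ℕ} (hij : i ≠ j)
    (h1 : kap ((l n i)⁻¹ * l n j) (false, 0) = (false, 0)) : i ≠ 1 ∧ j ≠ 1 := by
  have h2 := pair_fix h1
  have key : ∀ k, k ≠ 1 → kap (l n k) (false, 0) = (false, 0) := by
    intro k hk
    rcases Nat.eq_zero_or_pos k with rfl | hk'
    · exact kap_l_zero _ _
    · obtain ⟨k, rfl⟩ : ∃ j, k = j + 2 := ⟨k - 2, by omega⟩
      rw [kap_l_two]; simp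
  have key1 : kap (l n 1) (false, 0) ≠ (false, 0) := by
    rw [kap_l_one]
    simp
  constructor
  · rintro rfl
    rw [key j hij.symm] at h2
    exact key1 h2.symm
  · rintro rfl
    rw [key i hij] at h2
    exact key1 h2

/-- second test -/
theorem test_N {n i j : ℕ} (hi : i ≤ n) (hj : j ≤ n) (hij : i ≠ j)
    (h1 : kap ((l n i)⁻¹ * l n j) (true, 0) = (true, 0)) : i ≤ 1 ∧ j ≤ 1 := by
  have h2 := pair_fix h1
  have key : ∀ k, k ≤ 1 → kap (l n k) (true, 0) = (true, 0) := by
    intro k hk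
    rcases Nat.eq_zero_or_pos k with rfl | hk'
    · exact kap_l_zero _ _
    · obtain rfl : k = 1 := by omega
      rw [kap_l_one]; simp
  have key2 : ∀ k, 2 ≤ k → kap (l n k) (true, 0) = (true, 2 ^ (n - k)) := by
    intro k hk
    obtain ⟨k, rfl⟩ : ∃ j, k = j + 2 := ⟨k - 2, by omega⟩
    rw [kap_l_two]; simp
  rcases Nat.lt_or_ge i 2 with a1 | a1
  · rcases Nat.lt_or_ge j 2 with a2 | a2
    · omega
    · rw [key i (by omega), key2 j a2] at h2
      simp at h2
  · rcases Nat.lt_or_ge j 2 with a2 | a2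
    · rw [key j (by omega), key2 i a1] at h2
      simp only [Prod.mk.injEq, true_and] at h2
      have : (0 : ℤ) < 2 ^ (n - i) := by positivity
      omega
    · rw [key2 j a2, key2 i a1] at h2
      simp only [Prod.mk.injEq, true_and] at h2
      have h3 : (2 : ℤ) ^ (n - j) = 2 ^ (n - i) := h2
      have h4 := Int.pow_right_injective (a := 2) (by norm_num) h3
      omega

end Pool.Agent.W379.Ds
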