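import Pool.Agent.W379.Design2

set_option autoImplicit false

namespace Pool.Agent.W379.Ds

open FreeGroup (of lift mk)
open Pool.Agent.W379.MH

theorem fT0 : fT (of 0) = p ^ 2 := by simp [fT]
theorem fT1 : fT (of 1) = v := by simp [fT]
theorem fT2 : fT (of 2) = p * v * p⁻¹ := by simp [fT]
theorem gT0 : gT (of 0) = p := by simp [gT]
theorem gT1 : gT (of 1) = v ^ 2 := by simp [gT]
theorem gT2 : gT (of 2) = h ^ 2 := by simp [gT]
theorem fH0 : fH (of 0) = h := by simp [fH]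
theorem fH1 : fH (of 1) = p ^ 2 := by simp [fH]
theorem fH2 : fH (of 2) = v := by simp [fH]
theorem gH0 : gH (of 0) = h := by simp [gH]
theorem gH1 : gH (of 1) = p := by simp [gH]
theorem gH2 : gH (of 2) = v ^ 2 := by simp [gH]
theorem fN0 : fN (of 0) = h ^ 2 := by simp [fN]
theorem fN1 : fN (of 1) = p * v ^ 2 * p⁻¹ := by simp [fN]
theorem gN0 : gN (of 0) = h := by simp [gN]
theorem gN1 : gN (of 1) = p * v * p⁻¹ := by simp [gN]

theorem two_pow (k : ℕ) (x : P) : (x ^ 2) ^ 2 ^ k = x ^ 2 ^ (k + 1) := by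
  rw [← pow_mul]; congr 1; ring

theorem mvT (n i : ℕ) (hi : i + 1 ≤ n) : ∃ q, fT q = l n (i + 1) ∧ gT q = l n i := by
  rcases Nat.eq_zero_or_pos i with rfl | h1
  · refine ⟨of 2 ^ (2 ^ (n - 1)), ?_, ?_⟩
    · rw [map_pow, fT2, l_succ, el, conj_pow]; simp
    · rw [map_pow, gT2, l_zero, two_pow]
      congr 2; omega
  · obtain ⟨i, rfl⟩ : ∃ j, i = j + 1 := ⟨i - 1, by omega⟩
    refine ⟨of 0 ^ (2 ^ i) * of 1 ^ (2 ^ (n - (i + 2))) * (of 0 ^ (2 ^ i))⁻¹, ?_, ?_⟩
    · rw [map_mul, map_mul, map_inv, map_pow, map_pow, fT0, fT1, two_pow, l_succ, el]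
    · rw [map_mul, map_mul, map_inv, map_pow, map_pow, gT0, gT1, two_pow, l_succ, el]
      congr 4; omega

theorem mvH0 (n : ℕ) : ∃ q, fH q = l n 0 ∧ gH q = l n 0 :=
  ⟨of 0 ^ 2 ^ n, by rw [map_pow, fH0, l_zero], by rw [map_pow, gH0, l_zero]⟩

theorem mvH (n i : ℕ) (hi : i + 2 ≤ n) : ∃ q, fH q = l n (i + 2) ∧ gH q = l n (i + 1) := by
  refine ⟨of 1 ^ (2 ^ i) * of 2 ^ (2 ^ (n - (i + 2))) * (of 1 ^ (2 ^ i))⁻¹, ?_, ?_⟩
  · rw [map_mul, map_mul, map_inv, map_pow, map_pow, fH1, fH2, two_pow, l_succ n (i + 1), el]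
  · rw [map_mul, map_mul, map_inv, map_pow, map_pow, gH1, gH2, two_pow, l_succ, el]
    congr 4; omega

theorem mvN (n i : ℕ) (hn : 1 ≤ n) (hi : i ≤ 1) : ∃ q, fN q = l (n + 1) i ∧ gN q = l n i := by
  rcases Nat.eq_zero_or_pos i with rfl | h1
  · refine ⟨of 0 ^ 2 ^ n, ?_, ?_⟩
    · rw [map_pow, fN0, two_pow, l_zero]
    · rw [map_pow, gN0, l_zero]
  · obtain rfl : i = 1 := by omega
    refine ⟨of 1 ^ (2 ^ (n - 1)), ?_, ?_⟩
    · rw [map_pow, fN1, conj_pow, two_pow, l_succ, el]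
      simp only [pow_zero, pow_one]
      congr 4; omega
    · rw [map_pow, gN1, conj_pow, l_succ, el]; simp

theorem mv_true {i : Ltr} {x y : P} (q : FreeGroup (Fin (rk i))) (h1 : f i q = x)
    (h2 : g i q = y) : mv f g (i, true) x y := ⟨q, Or.inl ⟨rfl, h1.symm, h2.symm⟩⟩

theorem mv_false {i : Ltr} {x y : P} (q : FreeGroup (Fin (rk i))) (h1 : f i q = x)
    (h2 : g i q = y) : mv f g (i, false) y x := ⟨q, Or.inr ⟨rfl, h2.symm, h1.symm⟩⟩

theorem lad_step (a : Ltr × Bool) (n i j : ℕ) (hi : i ≤ n) (hj : j ≤ n) (hij : i ≠ j)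
    (hd : (l n i)⁻¹ * l n j ∈ dom f g a) :
    ∃ n' i' j', i' ≤ n' ∧ j' ≤ n' ∧ i' ≠ j' ∧ mv f g a (l n i) (l n' i') ∧
      mv f g a (l n j) (l n' j') ∧ (n' = n ∨ (i ≤ 1 ∧ j ≤ 1)) := by
  rcases a with ⟨x, e⟩
  cases x
  · -- T
    cases e
    · -- false
      simp only [dom, Bool.false_eq_true, if_false] at hd
      obtain ⟨q, hq⟩ := hd
      have hv : vexp ((l n i)⁻¹ * l n j) = 1 := by rw [← hq]; exact vexp_gT q
      obtain ⟨h1, h2⟩ := vexp_pair hi hj hij hv
      obtain ⟨q1, a1, a2⟩ := mvT n i (by omega)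
      obtain ⟨q2, b1, b2⟩ := mvT n j (by omega)
      exact ⟨n, i + 1, j + 1, by omega, by omega, by omega, mv_false (i := .T) q1 a1 a2,
        mv_false (i := .T) q2 b1 b2, Or.inl rfl⟩
    · simp only [dom, if_true] at hd
      obtain ⟨q, hq⟩ := hd
      have hv : hexp ((l n i)⁻¹ * l n j) = 1 := by rw [← hq]; exact hexp_fT q
      rw [map_mul, map_inv, inv_mul_eq_one] at hv
      have hne : (Multiplicative.ofAdd (2 ^ n : ℤ)) ≠ 1 := by
        rw [Ne, ofAdd_eq_one]; positivity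
      have h1 : i ≠ 0 := by
        rintro rfl
        obtain ⟨j, rfl⟩ : ∃ k, j = k + 1 := ⟨j - 1, by omega⟩
        rw [hexp_l_zero, hexp_l_succ] at hv
        exact hne hv
      have h2 : j ≠ 0 := by
        rintro rfl
        obtain ⟨i, rfl⟩ : ∃ k, i = k + 1 := ⟨i - 1, by omega⟩
        rw [hexp_l_zero, hexp_l_succ] at hv
        exact hne hv.symm
      obtain ⟨i, rfl⟩ : ∃ k, i = k + 1 := ⟨i - 1, by omega⟩
      obtain ⟨j, rfl⟩ : ∃ k, j = k + 1 := ⟨j - 1, by omega⟩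
      obtain ⟨q1, a1, a2⟩ := mvT n i (by omega)
      obtain ⟨q2, b1, b2⟩ := mvT n j (by omega)
      exact ⟨n, i, j, by omega, by omega, by omega, mv_true (i := .T) q1 a1 a2,
        mv_true (i := .T) q2 b1 b2, Or.inl rfl⟩
  · -- H
    have key1 : ∀ k, k < n → ∃ k', k' ≤ n ∧ (k' = if k = 0 then 0 else k + 1) ∧
        ∃ q, fH q = l n k' ∧ gH q = l n k := by
      intro k hk
      rcases Nat.eq_zero_or_pos k with rfl | h1
      · exact ⟨0, by omega, by simp, mvH0 n⟩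
      · obtain ⟨k, rfl⟩ : ∃ k', k = k' + 1 := ⟨k - 1, by omega⟩
        exact ⟨k + 2, by omega, by simp, mvH n k (by omega)⟩
    have key2 : ∀ k, k ≤ n → k ≠ 1 → ∃ k', k' ≤ n ∧ (k' = if k = 0 then 0 else k - 1) ∧
        ∃ q, fH q = l n k ∧ gH q = l n k' := by
      intro k hk hk1
      rcases Nat.eq_zero_or_pos k with rfl | h1
      · exact ⟨0, by omega, by simp, mvH0 n⟩
      · obtain ⟨k, rfl⟩ : ∃ k', k = k' + 2 := ⟨k - 2, by omega⟩
        exact ⟨k + 1, by omega, by simp, mvH n k (by omega)⟩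
    cases e
    · simp only [dom, Bool.false_eq_true, if_false] at hd
      obtain ⟨q, hq⟩ := hd
      have hv : vexp ((l n i)⁻¹ * l n j) = 1 := by rw [← hq]; exact vexp_gH q
      obtain ⟨h1, h2⟩ := vexp_pair hi hj hij hv
      obtain ⟨i', c1, c2, q1, a1, a2⟩ := key1 i h1
      obtain ⟨j', d1, d2, q2, b1, b2⟩ := key1 j h2
      refine ⟨n, i', j', c1, d1, ?_, mv_false (i := .H) q1 a1 a2,
        mv_false (i := .H) q2 b1 b2, Or.inl rfl⟩
      split_ifs at c2 d2 <;> omega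
    · simp only [dom, if_true] at hd
      obtain ⟨q, hq⟩ := hd
      have hv : kap ((l n i)⁻¹ * l n j) (false, 0) = (false, 0) := by rw [← hq]; exact kap_fH q 0
      obtain ⟨h1, h2⟩ := test_H hij hv
      obtain ⟨i', c1, c2, q1, a1, a2⟩ := key2 i hi h1
      obtain ⟨j', d1, d2, q2, b1, b2⟩ := key2 j hj h2
      refine ⟨n, i', j', c1, d1, ?_, mv_true (i := .H) q1 a1 a2,
        mv_true (i := .H) q2 b1 b2, Or.inl rfl⟩
      split_ifs at c2 d2 <;> omega
  · -- N
    cases e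
    · simp only [dom, Bool.false_eq_true, if_false] at hd
      obtain ⟨q, hq⟩ := hd
      have hv : kap ((l n i)⁻¹ * l n j) (true, 0) = (true, 0) := by rw [← hq]; exact kap_gN q 0
      obtain ⟨h1, h2⟩ := test_N hi hj hij hv
      obtain ⟨q1, a1, a2⟩ := mvN n i (by omega) h1
      obtain ⟨q2, b1, b2⟩ := mvN n j (by omega) h2
      exact ⟨n + 1, i, j, by omega, by omega, hij, mv_false (i := .N) q1 a1 a2,
        mv_false (i := .N) q2 b1 b2, Or.inr ⟨h1, h2⟩⟩
    · simp only [dom, if_true] at hd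
      obtain ⟨q, hq⟩ := hd
      have hv : kap ((l n i)⁻¹ * l n j) (true, 0) = (true, 0) := by rw [← hq]; exact kap_fN q 0
      obtain ⟨h1, h2⟩ := test_N hi hj hij hv
      have hv' : vexp ((l n i)⁻¹ * l n j) = 1 := by rw [← hq]; exact vexp_fN q
      obtain ⟨h3, h4⟩ := vexp_pair hi hj hij hv'
      obtain ⟨n, rfl⟩ : ∃ k, n = k + 1 := ⟨n - 1, by omega⟩
      obtain ⟨q1, a1, a2⟩ := mvN n i (by omega) h1
      obtain ⟨q2, b1, b2⟩ := mvN n j (by omega) h2
      exact ⟨n, i, j, by omega, by omega, hij, mv_true (i := .N) q1 a1 a2,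
        mv_true (i := .N) q2 b1 b2, Or.inr ⟨h1, h2⟩⟩

/-- target of eta -/
abbrev Et : Type := FreeGroup (Option ℤ) ⋊[fgAct (Multiplicative ℤ) (Option ℤ)] (Multiplicative ℤ)

/-- detecting map -/
def eta : P →* Et := lift ![SemidirectProduct.inl (of none),
  SemidirectProduct.inr (Multiplicative.ofAdd 1), SemidirectProduct.inl (of (some 0))]

/-- letters -/
def cc (i : ℕ) : Option ℤ := if i = 0 then none else some (2 ^ (i - 1))

theorem cc_inj {i j : ℕ} (h1 : cc i = cc j) : i = j := by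
  unfold cc at h1
  split_ifs at h1 with h2 h3 h3
  · omega
  · simp only [Option.some.injEq] at h1
    have h4 := Int.pow_right_injective (a := 2) (by norm_num) h1
    omega

theorem eta_l (n i : ℕ) : eta (l n i) = SemidirectProduct.inl (of (cc i) ^ (2 ^ (n - i))) := by
  rcases Nat.eq_zero_or_pos i with rfl | h1
  · rw [l_zero, map_pow]
    have : eta h = SemidirectProduct.inl (of none) := by simp [eta, h]
    rw [this, ← map_pow]; simp [cc]
  · obtain ⟨i, rfl⟩ : ∃ k, i = k + 1 := ⟨i - 1, by omega⟩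
    have h2 : eta p = SemidirectProduct.inr (Multiplicative.ofAdd 1) := by simp [eta, p]
    have h3 : eta v = SemidirectProduct.inl (of (some 0)) := by simp [eta, v]
    have e1 : eta (p ^ 2 ^ i) = SemidirectProduct.inr ((Multiplicative.ofAdd (1 : ℤ)) ^ 2 ^ i) := by
      rw [map_pow, h2]
      exact (map_pow SemidirectProduct.inr (Multiplicative.ofAdd (1 : ℤ)) (2 ^ i)).symm
    have e2 : eta (v ^ 2 ^ (n - (i + 1))) =
        SemidirectProduct.inl (of (some 0) ^ 2 ^ (n - (i + 1))) := by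
      rw [map_pow, h3]
      exact (map_pow SemidirectProduct.inl (of (some 0)) _).symm
    rw [l_succ, el, map_mul, map_mul, map_inv, e1, e2,
      ← map_inv, ← SemidirectProduct.inl_aut, map_pow, fgAct_of]
    congr 3
    simp only [cc]
    have : (Multiplicative.ofAdd (1 : ℤ)) ^ 2 ^ i = Multiplicative.ofAdd ((2 : ℤ) ^ i) := by
      rw [← ofAdd_nsmul]; simp
    rw [this]
    simp

theorem lad_inj (n i m j : ℕ) (hi : i ≤ n) (hj : j ≤ m) (h1 : l n i = l m j) : n = m ∧ i = j := by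
  have h2 := congrArg eta h1
  rw [eta_l, eta_l] at h2
  have h3 := SemidirectProduct.inl_injective h2
  obtain ⟨h4, h5⟩ := pow_inj (by positivity) h3
  have h6 := cc_inj h4
  have h7 := Nat.pow_right_injective (le_refl 2) h5
  omega

theorem lad_rigid (n a b m c e k i j : ℕ) (ha : a ≤ n) (hb : b ≤ n) (hab : a ≠ b) (hc : c ≤ m)
    (he : e ≤ m) (hce : c ≠ e) (hi : i ≤ k) (hj : j ≤ k) (hij : i ≠ j)
    (h1 : ((l n a)⁻¹ * l n b)⁻¹ * ((l m c)⁻¹ * l m e) = (l k i)⁻¹ * l k j) : n = m ∧ a = c := by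
  have h2 := congrArg eta h1
  simp only [map_mul, map_inv, eta_l] at h2
  simp only [← map_inv, ← map_mul] at h2
  have h3 := SemidirectProduct.inl_injective h2
  obtain ⟨h4, h5⟩ := fg_rigid (by positivity) (by positivity) (by positivity) (by positivity)
    (fun h => hab (cc_inj h)) (fun h => hce (cc_inj h)) (fun h => hij (cc_inj h)) h3
  have h6 := cc_inj h4
  have h7 := Nat.pow_right_injective (le_refl 2) h5
  omega

theorem lad : Lad f g l := ⟨lad_step, lad_rigid, lad_inj⟩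

end Pool.Agent.W379.Ds
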