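import Mathlib

set_option autoImplicit false

namespace Pool.Agent.W379

open FreeGroup List

variable {α : Type} [DecidableEq α]

/-- product of two reduced words: cancel a middle part. -/
theorem exists_split (x : List (α × Bool)) : ∀ (y : List (α × Bool)),
    FreeGroup.IsReduced x → FreeGroup.IsReduced y →
    ∃ a b c, x = a ++ c ∧ y = invRev c ++ b ∧ FreeGroup.IsReduced (a ++ b) := by
  induction x using List.reverseRecOn with
  | nil => intro y _ hy; exact ⟨[], y, [], rfl, rfl, by simpa using hy⟩
  | append_singleton x s ih =>
    intro y hx hy
    rcases y with _ | ⟨t, y⟩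
    · exact ⟨x ++ [s], [], [], by simp, by simp, by simpa using hx⟩
    · by_cases h : t = (s.1, !s.2)
      · have hx' : FreeGroup.IsReduced x := by
          unfold FreeGroup.IsReduced at hx ⊢
          rw [List.isChain_append] at hx
          exact hx.1
        have hy' : FreeGroup.IsReduced y := by
          unfold FreeGroup.IsReduced at hy ⊢
          rw [List.isChain_cons] at hy
          exact hy.2
        obtain ⟨a, b, c, h1, h2, h3⟩ := ih y hx' hy'
        refine ⟨a, b, c ++ [s], by simp [h1], ?_, h3⟩
        rw [h2, h]; simp [invRev]
      · refine ⟨x ++ [s], t :: y, [], by simp, by simp, ?_⟩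
        unfold FreeGroup.IsReduced at *
        rw [List.isChain_append]
        refine ⟨hx, hy, ?_⟩
        intro a ha b hb hab
        simp at ha hb
        subst ha hb
        by_contra hne
        apply h
        ext
        · exact hab.symm
        · simp
          revert hne; cases s.2 <;> cases t.2 <;> simp

theorem exists_split_word (x y : FreeGroup α) :
    ∃ a b c, x.toWord = a ++ c ∧ y.toWord = invRev c ++ b ∧ (x * y).toWord = a ++ b := by
  obtain ⟨a, b, c, h1, h2, h3⟩ := exists_split x.toWord y.toWord isReduced_toWord isReduced_toWord
  refine ⟨a, b, c, h1, h2, ?_⟩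
  rw [toWord_mul, h1, h2, ← h3.reduce_eq]
  have : (FreeGroup.mk (a ++ c ++ (invRev c ++ b))) = FreeGroup.mk (a ++ b) := by
    rw [← mul_mk, ← mul_mk, ← mul_mk, ← inv_mk, ← mul_mk]; group
  exact reduce.sound this

/-- length of the longest common prefix -/
def lcp {β : Type} [DecidableEq β] : List β → List β → ℕ
  | a :: x, b :: y => if a = b then lcp x y + 1 else 0
  | _, _ => 0

@[simp] theorem lcp_nil_left {β : Type} [DecidableEq β] (x : List β) : lcp [] x = 0 := by
  cases x <;> rfl

@[simp] theorem lcp_nil_right {β : Type} [DecidableEq β] (x : List β) : lcp x [] = 0 := by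
  cases x <;> rfl

@[simp] theorem lcp_cons {β : Type} [DecidableEq β] (a b : β) (x y : List β) :
    lcp (a :: x) (b :: y) = if a = b then lcp x y + 1 else 0 := rfl

theorem lcp_append {β : Type} [DecidableEq β] (p x y : List β) :
    lcp (p ++ x) (p ++ y) = p.length + lcp x y := by
  induction p with
  | nil => simp
  | cons a p ih => simp [ih]; ring

theorem lcp_ultra {β : Type} [DecidableEq β] (x y z : List β) :
    min (lcp x y) (lcp y z) ≤ lcp x z := by
  induction x generalizing y z with
  | nil => simp
  | cons a x ih =>
    rcases y with _ | ⟨b, y⟩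
    · simp
    · rcases z with _ | ⟨c, z⟩
      · simp
      · by_cases h1 : a = b
        · by_cases h2 : b = c
          · subst h1 h2
            simp only [lcp_cons, if_true]
            have := ih y z
            omega
          · simp [h2]
        · simp [h1]

/-- Gromov product at the identity -/
def gp (x y : FreeGroup α) : ℕ := lcp x.toWord y.toWord

theorem gp_spec (x y : FreeGroup α) : norm (x⁻¹ * y) + 2 * gp x y = norm x + norm y := by
  obtain ⟨a, b, c, h1, h2, h3⟩ := exists_split_word x⁻¹ y
  have hx : x.toWord = invRev c ++ invRev a := by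
    have : x.toWord = invRev (x⁻¹).toWord := by rw [toWord_inv, invRev_invRev]
    rw [this, h1, invRev_append]
  have hl : lcp (invRev a) b = 0 := by
    have hr : FreeGroup.IsReduced (a ++ b) := by rw [← h3]; exact isReduced_toWord
    rcases List.eq_nil_or_concat a with rfl | ⟨a', s, rfl⟩
    · simp
    · rcases b with _ | ⟨t, b⟩
      · simp
      · have : invRev (a' ++ [s]) = (s.1, !s.2) :: invRev a' := by simp [invRev]
        rw [List.concat_eq_append] at hr ⊢
        rw [this, lcp_cons, if_neg]
        intro hst
        unfold FreeGroup.IsReduced at hr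
        rw [List.isChain_append] at hr
        have := hr.2.2 s (by simp) t (by simp) (by rw [← hst])
        rw [← hst] at this
        simp at this
  unfold FreeGroup.norm gp
  rw [h3, h2, hx, lcp_append, hl]
  simp [invRev_length]
  ring

theorem gp_ultra (x y z : FreeGroup α) : min (gp x y) (gp y z) ≤ gp x z := lcp_ultra _ _ _

end Pool.Agent.W379
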