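import Pool.Agent.W379.Semi

set_option autoImplicit false

namespace Pool.Agent.W379

open scoped commutatorElement

/-- pairwise adjacent vertices span a free abelian group. -/
theorem RAAG.exists_free_abelian {V : Type} (Γ : SimpleGraph V) (N : ℕ) (l : Fin N → V)
    (hl : Function.Injective l) (hadj : ∀ i j, i ≠ j → Γ.Adj (l i) (l j)) :
    ∃ h : (Fin N → Multiplicative ℤ) →* RAAG Γ, Function.Injective h := by
  classical
  have hcomm : Pairwise fun i j => ∀ (x y : Multiplicative ℤ),
      Commute (zpowersHom (RAAG Γ) (RAAG.gen Γ (l i)) x) (zpowersHom (RAAG Γ) (RAAG.gen Γ (l j)) y) := by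
    intro i j hij x y
    simp only [zpowersHom_apply]
    exact ((RAAG.gen_comm (hadj i j hij)).zpow_left _).zpow_right _
  let h := MonoidHom.noncommPiCoprod (fun i => zpowersHom (RAAG Γ) (RAAG.gen Γ (l i))) hcomm
  refine ⟨h, ?_⟩
  let χ : RAAG Γ →* (V → Multiplicative ℤ) :=
    RAAG.lift (fun v => Pi.mulSingle v (Multiplicative.ofAdd 1)) (fun a b _ => Commute.all _ _)
  have h1 : ∀ (e : Fin N → Multiplicative ℤ) (i : Fin N), χ (h e) (l i) = e i := by
    intro e i
    have h2 : ((Pi.evalMonoidHom (fun _ : V => Multiplicative ℤ) (l i)).comp (χ.comp h)) =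
        Pi.evalMonoidHom (fun _ : Fin N => Multiplicative ℤ) i := by
      apply MonoidHom.pi_ext
      intro j x
      have h3 : h (Pi.mulSingle j x) = zpowersHom (RAAG Γ) (RAAG.gen Γ (l j)) x :=
        MonoidHom.noncommPiCoprod_mulSingle (ϕ := fun i => zpowersHom (RAAG Γ) (RAAG.gen Γ (l i))) _ _
      simp only [MonoidHom.comp_apply, h3, Pi.evalMonoidHom_apply, zpowersHom_apply, map_zpow]
      rw [RAAG.lift_gen]
      by_cases hij : j = i
      · subst hij
        simp only [Pi.mulSingle_eq_same]
        rw [← ofAdd_zsmul]; simp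
      · rw [Pi.mulSingle_eq_of_ne (fun h => hij (hl h).symm),
          Pi.mulSingle_eq_of_ne (fun h => hij h.symm)]
        simp
    exact DFunLike.congr_fun h2 e
  intro e e' hee
  funext i
  rw [← h1 e i, ← h1 e' i, hee]

section
variable {k : ℕ} (R : Finset (FreeGroup (Fin k))) (D : FreeGroup (Fin k))

/-- the group `L` -/
abbrev LL : Type := PresentedGroup (R : Set (FreeGroup (Fin k)))

/-- projection -/
abbrev qq : FreeGroup (Fin k) →* LL R := PresentedGroup.mk _

/-- conjugacy graph of `D` on `L` -/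
def gr : SimpleGraph (LL R) where
  Adj g h := g ≠ h ∧ ∃ c : LL R, g⁻¹ * h = c * qq R D * c⁻¹ ∨ g⁻¹ * h = c * (qq R D)⁻¹ * c⁻¹
  symm := ⟨by
    rintro g h ⟨hne, c, hc⟩
    refine ⟨hne.symm, c, ?_⟩
    have e : h⁻¹ * g = (g⁻¹ * h)⁻¹ := by group
    rcases hc with hc | hc
    · right; rw [e, hc]; group
    · left; rw [e, hc]; group⟩
  loopless := ⟨fun g h => h.1 rfl⟩

/-- left-right action -/
instance actL : MulAction (FreeGroup (Fin k) × FreeGroup (Fin k)) (LL R) where
  smul p l := qq R p.1 * l * (qq R p.2)⁻¹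
  one_smul l := by
    show qq R 1 * l * (qq R 1)⁻¹ = l
    simp
  mul_smul p p' l := by
    show qq R (p.1 * p'.1) * l * (qq R (p.2 * p'.2))⁻¹ = qq R p.1 * (qq R p'.1 * l * (qq R p'.2)⁻¹) * (qq R p.2)⁻¹
    simp only [map_mul]; group

theorem smul_def (p : FreeGroup (Fin k) × FreeGroup (Fin k)) (l : LL R) :
    p • l = qq R p.1 * l * (qq R p.2)⁻¹ := rfl

theorem act_adj (p : FreeGroup (Fin k) × FreeGroup (Fin k)) (a b : LL R)
    (h : (gr R D).Adj a b) : (gr R D).Adj (p • a) (p • b) := by
  obtain ⟨hne, c, hc⟩ := h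
  refine ⟨?_, qq R p.2 * c, ?_⟩
  · intro h; exact hne (smul_left_cancel p h)
  · have e : (p • a)⁻¹ * (p • b) = qq R p.2 * (a⁻¹ * b) * (qq R p.2)⁻¹ := by
      rw [smul_def, smul_def]; group
    rcases hc with hc | hc
    · left; rw [e, hc]; group
    · right; rw [e, hc]; group

/-- index set of the generators -/
abbrev II (k : ℕ) : Type := (Fin k ⊕ Fin k) ⊕ Unit

/-- first copy -/
def aa : FreeGroup (Fin k) →* FreeGroup (II k) := FreeGroup.map (fun i => Sum.inl (Sum.inl i))
/-- second copy -/
def bb : FreeGroup (Fin k) →* FreeGroup (II k) := FreeGroup.map (fun i => Sum.inl (Sum.inr i))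
/-- the extra generator -/
def zz : FreeGroup (II k) := FreeGroup.of (Sum.inr ())

open Classical in
/-- the relators of `G` -/
noncomputable def rels : Finset (FreeGroup (II k)) :=
  (Finset.univ.image (fun p : Fin k × Fin k => ⁅aa (FreeGroup.of p.1), bb (FreeGroup.of p.2)⁆)) ∪
  (Finset.univ.image (fun i : Fin k => ⁅(zz : FreeGroup (II k)), aa (FreeGroup.of i) * bb (FreeGroup.of i)⁆)) ∪
  (R.image (fun r => ⁅(zz : FreeGroup (II k)), aa r⁆)) ∪ {⁅(zz : FreeGroup (II k)), aa D * zz * (aa D)⁻¹⁆}

/-- the finitely presented group -/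
abbrev GPr : Type := PresentedGroup (rels R D : Set (FreeGroup (II k)))

/-- projection -/
abbrev pp : FreeGroup (II k) →* GPr R D := PresentedGroup.mk _

theorem pp_rel {r : FreeGroup (II k)} (h : r ∈ rels R D) : pp R D r = 1 :=
  PresentedGroup.one_of_mem (by exact_mod_cast h)

theorem rel1 (i j : Fin k) : Commute (pp R D (aa (FreeGroup.of i))) (pp R D (bb (FreeGroup.of j))) := by
  have := pp_rel R D (r := ⁅aa (FreeGroup.of i), bb (FreeGroup.of j)⁆) (by
    unfold rels
    simp only [Finset.mem_union, Finset.mem_image]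
    exact Or.inl (Or.inl (Or.inl ⟨(i, j), Finset.mem_univ _, rfl⟩)))
  rwa [map_commutatorElement, commutatorElement_eq_one_iff_commute] at this

theorem rel2 (i : Fin k) : Commute (pp R D zz) (pp R D (aa (FreeGroup.of i) * bb (FreeGroup.of i))) := by
  have := pp_rel R D (r := ⁅zz, aa (FreeGroup.of i) * bb (FreeGroup.of i)⁆) (by
    unfold rels
    simp only [Finset.mem_union, Finset.mem_image]
    exact Or.inl (Or.inl (Or.inr ⟨i, Finset.mem_univ _, rfl⟩)))
  rwa [map_commutatorElement, commutatorElement_eq_one_iff_commute] at this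

theorem rel3 (r : FreeGroup (Fin k)) (hr : r ∈ R) : Commute (pp R D zz) (pp R D (aa r)) := by
  have := pp_rel R D (r := ⁅zz, aa r⁆) (by
    unfold rels
    simp only [Finset.mem_union, Finset.mem_image]
    exact Or.inl (Or.inr ⟨r, hr, rfl⟩))
  rwa [map_commutatorElement, commutatorElement_eq_one_iff_commute] at this

theorem rel4 : Commute (pp R D zz) (pp R D (aa D * zz * (aa D)⁻¹)) := by
  have := pp_rel R D (r := ⁅zz, aa D * zz * (aa D)⁻¹⁆) (by
    unfold rels
    simp only [Finset.mem_union, Finset.mem_singleton]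
    exact Or.inr rfl)
  rwa [map_commutatorElement, commutatorElement_eq_one_iff_commute] at this

theorem free_induction {α G : Type} [Group G] (f : FreeGroup α →* G) (K : Subgroup G)
    (h : ∀ a, f (FreeGroup.of a) ∈ K) (w : FreeGroup α) : f w ∈ K := by
  have hw : w ∈ Subgroup.closure (Set.range (FreeGroup.of (α := α))) := by
    rw [FreeGroup.closure_range_of]; trivial
  induction hw using Subgroup.closure_induction with
  | mem x hx => obtain ⟨a, rfl⟩ := hx; exact h a
  | one => rw [map_one]; exact one_mem _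
  | mul x y _ _ hx hy => rw [map_mul]; exact mul_mem hx hy
  | inv x _ hx => rw [map_inv]; exact inv_mem hx

theorem comm_ab (a b : FreeGroup (Fin k)) : Commute (pp R D (aa a)) (pp R D (bb b)) := by
  have h1 : ∀ j (a : FreeGroup (Fin k)), Commute (pp R D (aa a)) (pp R D (bb (FreeGroup.of j))) := by
    intro j a
    have := free_induction ((pp R D).comp aa) (Subgroup.centralizer {pp R D (bb (FreeGroup.of j))})
      (fun i => by
        rw [Subgroup.mem_centralizer_singleton_iff]
        exact (rel1 R D i j).eq) a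
    rw [Subgroup.mem_centralizer_singleton_iff] at this
    exact this
  have := free_induction ((pp R D).comp bb) (Subgroup.centralizer {pp R D (aa a)})
      (fun i => by
        rw [Subgroup.mem_centralizer_singleton_iff]
        exact (h1 i a).symm.eq) b
  rw [Subgroup.mem_centralizer_singleton_iff] at this
  exact Commute.symm this

/-- the map on the acting group -/
noncomputable def fQ : FreeGroup (Fin k) × FreeGroup (Fin k) →* GPr R D :=
  MonoidHom.noncommCoprod ((pp R D).comp aa) ((pp R D).comp bb) (fun a b => comm_ab R D a b)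

theorem fQ_apply (a b : FreeGroup (Fin k)) : fQ R D (a, b) = pp R D (aa a) * pp R D (bb b) := rfl

theorem comm_diag (u : FreeGroup (Fin k)) : Commute (pp R D zz) (pp R D (aa u) * pp R D (bb u)) := by
  have := free_induction ((fQ R D).comp (MonoidHom.prod (MonoidHom.id _) (MonoidHom.id _)))
    (Subgroup.centralizer {pp R D zz})
      (fun i => by
        rw [Subgroup.mem_centralizer_singleton_iff]
        have := (rel2 R D i).symm.eq
        rw [map_mul] at this
        exact this) u
  rw [Subgroup.mem_centralizer_singleton_iff] at this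
  exact Commute.symm this

theorem comm_rel (w : FreeGroup (Fin k)) (hw : qq R w = 1) : Commute (pp R D zz) (pp R D (aa w)) := by
  have h1 : w ∈ Subgroup.normalClosure (R : Set (FreeGroup (Fin k))) := by
    have := (PresentedGroup.mk_eq_one_iff (rels := (R : Set (FreeGroup (Fin k))))).mp hw
    exact this
  clear hw
  rw [Subgroup.normalClosure] at h1
  induction h1 using Subgroup.closure_induction with
  | mem x hx =>
    rw [Group.mem_conjugatesOfSet_iff] at hx
    obtain ⟨r, hr, hc⟩ := hx
    rw [isConj_iff] at hc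
    obtain ⟨u, rfl⟩ := hc
    have h2 := rel3 R D r (by exact_mod_cast hr)
    have h3 := comm_diag R D u
    have h4 := comm_ab R D r u
    have e : pp R D (aa (u * r * u⁻¹)) = (pp R D (aa u) * pp R D (bb u)) * pp R D (aa r) *
        (pp R D (aa u) * pp R D (bb u))⁻¹ := by
      simp only [map_mul, map_inv, mul_inv_rev]
      calc _ = pp R D (aa u) * pp R D (aa r) * (pp R D (bb u) * (pp R D (bb u))⁻¹) * (pp R D (aa u))⁻¹ := by group
        _ = pp R D (aa u) * (pp R D (aa r) * pp R D (bb u)) * (pp R D (bb u))⁻¹ * (pp R D (aa u))⁻¹ := by group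
        _ = _ := by rw [h4.eq]; group
    rw [e]
    exact (h3.mul_right h2).mul_right h3.inv_right
  | one => simp
  | mul x y _ _ hx hy =>
    rw [map_mul, map_mul]
    exact hx.mul_right hy
  | inv x _ hx =>
    rw [map_inv, map_inv]
    exact hx.inv_right

/-- conjugates of the extra generator -/
noncomputable def zeta (l : LL R) : GPr R D :=
  pp R D (aa (Function.surjInv (PresentedGroup.mk_surjective _) l)) * pp R D zz *
    (pp R D (aa (Function.surjInv (PresentedGroup.mk_surjective _) l)))⁻¹

theorem zeta_qq (w : FreeGroup (Fin k)) :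
    zeta R D (qq R w) = pp R D (aa w) * pp R D zz * (pp R D (aa w))⁻¹ := by
  unfold zeta
  set w' := Function.surjInv (PresentedGroup.mk_surjective (R : Set (FreeGroup (Fin k)))) (qq R w)
    with hw'
  have h1 : qq R w' = qq R w := Function.surjInv_eq _ _
  have h2 : qq R (w⁻¹ * w') = 1 := by rw [map_mul, map_inv, h1]; group
  have h3 := comm_rel R D _ h2
  rw [map_mul, map_mul, map_inv, map_inv] at h3
  have h4 := h3.eq
  calc _ = pp R D (aa w) * (((pp R D (aa w))⁻¹ * pp R D (aa w')) * pp R D zz) * (pp R D (aa w'))⁻¹ := by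
        group
    _ = _ := by rw [← h4]; group

theorem zeta_smul (p : FreeGroup (Fin k) × FreeGroup (Fin k)) (l : LL R) :
    zeta R D (p • l) = fQ R D p * zeta R D l * (fQ R D p)⁻¹ := by
  obtain ⟨w, rfl⟩ := PresentedGroup.mk_surjective _ l
  obtain ⟨a, b⟩ := p
  have e : (a, b) • (qq R w) = qq R (a * w * b⁻¹) := by
    rw [smul_def]; simp
  change zeta R D ((a, b) • qq R w) = fQ R D (a, b) * zeta R D (qq R w) * (fQ R D (a, b))⁻¹
  rw [e, zeta_qq, zeta_qq, fQ_apply]
  have h1 := (comm_diag R D b).eq
  have h2 := comm_ab R D w b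
  have h3 := comm_ab R D b b
  have h4 : pp R D (bb b) * pp R D zz * (pp R D (bb b))⁻¹ =
      (pp R D (aa b))⁻¹ * pp R D zz * pp R D (aa b) := by
    rw [mul_inv_eq_iff_eq_mul]
    rw [mul_assoc, mul_assoc, eq_inv_mul_iff_mul_eq, ← mul_assoc, ← h1]
  simp only [map_mul, map_inv, mul_inv_rev, inv_inv]
  have h5 : pp R D (aa a) * pp R D (bb b) * (pp R D (aa w) * pp R D zz * (pp R D (aa w))⁻¹) *
      ((pp R D (bb b))⁻¹ * (pp R D (aa a))⁻¹) = pp R D (aa a) * pp R D (aa w) *
      (pp R D (bb b) * pp R D zz * (pp R D (bb b))⁻¹) * (pp R D (aa w))⁻¹ * (pp R D (aa a))⁻¹ := by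
    calc _ = pp R D (aa a) * (pp R D (bb b) * pp R D (aa w)) * pp R D zz *
          ((pp R D (bb b) * pp R D (aa w)))⁻¹ * (pp R D (aa a))⁻¹ := by group
      _ = _ := by rw [← h2.eq]; group
  rw [h5, h4]
  group

theorem zeta_one : zeta R D 1 = pp R D zz := by
  have := zeta_qq R D 1
  rw [map_one] at this
  rw [this]; simp

theorem zeta_comm (g h : LL R) (hgh : (gr R D).Adj g h) : Commute (zeta R D g) (zeta R D h) := by
  have key : ∀ (p : FreeGroup (Fin k) × FreeGroup (Fin k)) (x y : LL R),
      Commute (zeta R D x) (zeta R D y) → Commute (zeta R D (p • x)) (zeta R D (p • y)) := by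
    intro p x y hxy
    rw [zeta_smul, zeta_smul]
    show _ * _ = _ * _
    calc _ = fQ R D p * (zeta R D x * zeta R D y) * (fQ R D p)⁻¹ := by group
      _ = _ := by rw [hxy.eq]; group
  have h1 : Commute (zeta R D 1) (zeta R D (qq R D)) := by
    rw [zeta_one, zeta_qq]
    have := rel4 R D
    rwa [map_mul, map_mul, map_inv] at this
  have h2 : Commute (zeta R D 1) (zeta R D (qq R D)⁻¹) := by
    have := (key (D⁻¹, 1) _ _ h1).symm
    have e1 : ((D⁻¹, 1) : FreeGroup (Fin k) × FreeGroup (Fin k)) • (1 : LL R) = (qq R D)⁻¹ := by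
      rw [smul_def]; simp
    have e2 : ((D⁻¹, 1) : FreeGroup (Fin k) × FreeGroup (Fin k)) • (qq R D) = 1 := by
      rw [smul_def]; simp
    rwa [e1, e2] at this
  obtain ⟨-, c, hc⟩ := hgh
  obtain ⟨w, rfl⟩ := PresentedGroup.mk_surjective _ g
  obtain ⟨u, rfl⟩ := PresentedGroup.mk_surjective _ c
  change (qq R w)⁻¹ * h = qq R u * _ * (qq R u)⁻¹ ∨ (qq R w)⁻¹ * h = qq R u * _ * (qq R u)⁻¹ at hc
  have e1 : ((w * u, u) : FreeGroup (Fin k) × FreeGroup (Fin k)) • (1 : LL R) = qq R w := by
    rw [smul_def]; simp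
  change Commute (zeta R D (qq R w)) _
  rw [← e1]
  rcases hc with hc | hc
  · have e2 : h = ((w * u, u) : FreeGroup (Fin k) × FreeGroup (Fin k)) • (qq R D) := by
      rw [smul_def, map_mul]
      have : h = qq R w * ((qq R w)⁻¹ * h) := by group
      rw [this, hc]; group
    rw [e2]
    exact key _ _ _ h1
  · have e2 : h = ((w * u, u) : FreeGroup (Fin k) × FreeGroup (Fin k)) • (qq R D)⁻¹ := by
      rw [smul_def, map_mul]
      have : h = qq R w * ((qq R w)⁻¹ * h) := by group
      rw [this, hc]; group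
    rw [e2]
    exact key _ _ _ h2

/-- the semidirect product attached to `L, D`. -/
abbrev GS : Type := GG (gr R D) (act_adj R D)

/-- inverse map -/
noncomputable def Psi : GS R D →* GPr R D :=
  SemidirectProduct.lift (RAAG.lift (zeta R D) (zeta_comm R D)) (fQ R D) (by
    intro p
    apply RAAG.hom_ext
    intro l
    show RAAG.lift (zeta R D) (zeta_comm R D) (RAAG.act (gr R D) _ (act_adj R D) p (RAAG.gen _ l)) =
      MulAut.conj (fQ R D p) (RAAG.lift (zeta R D) (zeta_comm R D) (RAAG.gen _ l))
    rw [RAAG.act_gen, RAAG.lift_gen, RAAG.lift_gen, zeta_smul, MulAut.conj_apply])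

/-- images of the generators -/
noncomputable def gsGen : II k → GS R D
  | Sum.inl (Sum.inl i) => SemidirectProduct.inr (FreeGroup.of i, 1)
  | Sum.inl (Sum.inr i) => SemidirectProduct.inr (1, FreeGroup.of i)
  | Sum.inr () => SemidirectProduct.inl (RAAG.gen _ 1)

theorem lift_aa (w : FreeGroup (Fin k)) :
    FreeGroup.lift (gsGen R D) (aa w) = SemidirectProduct.inr (w, 1) := by
  have : (FreeGroup.lift (gsGen R D)).comp aa = SemidirectProduct.inr.comp (MonoidHom.inl _ _) := by
    apply FreeGroup.ext_hom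
    intro i
    simp [aa, gsGen]
  exact DFunLike.congr_fun this w

theorem lift_bb (w : FreeGroup (Fin k)) :
    FreeGroup.lift (gsGen R D) (bb w) = SemidirectProduct.inr (1, w) := by
  have : (FreeGroup.lift (gsGen R D)).comp bb = SemidirectProduct.inr.comp (MonoidHom.inr _ _) := by
    apply FreeGroup.ext_hom
    intro i
    simp [bb, gsGen]
  exact DFunLike.congr_fun this w

theorem lift_zz : FreeGroup.lift (gsGen R D) zz = SemidirectProduct.inl (RAAG.gen _ 1) := by
  simp [zz, gsGen]

theorem comm_stab (p : FreeGroup (Fin k) × FreeGroup (Fin k)) (hp : p • (1 : LL R) = 1) :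
    Commute (SemidirectProduct.inl (RAAG.gen _ 1) : GS R D) (SemidirectProduct.inr p) := by
  show _ * _ = _ * _
  ext
  · simp only [SemidirectProduct.mul_left, SemidirectProduct.left_inl, SemidirectProduct.right_inl,
      SemidirectProduct.left_inr, SemidirectProduct.right_inr, map_one, mul_one, one_mul]
    rw [RAAG.act_gen, hp]
  all_goals simp

theorem inr_conj (p : FreeGroup (Fin k) × FreeGroup (Fin k)) (l : LL R) :
    (SemidirectProduct.inr p : GS R D) * SemidirectProduct.inl (RAAG.gen _ l) *
      (SemidirectProduct.inr p)⁻¹ = SemidirectProduct.inl (RAAG.gen _ (p • l)) := by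
  rw [← RAAG.act_gen (gr R D) _ (act_adj R D), SemidirectProduct.inl_aut, ← map_inv]

/-- the direct map -/
noncomputable def Phi (hD : qq R D ≠ 1) : GPr R D →* GS R D :=
  PresentedGroup.toGroup (f := gsGen R D) (by
    intro r hr
    have hr : r ∈ rels R D := by exact_mod_cast hr
    unfold rels at hr
    simp only [Finset.mem_union, Finset.mem_image, Finset.mem_singleton] at hr
    rcases hr with ((⟨p, -, rfl⟩ | ⟨i, -, rfl⟩) | ⟨r, hr', rfl⟩) | rfl
    · rw [map_commutatorElement, commutatorElement_eq_one_iff_commute, lift_aa, lift_bb]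
      apply Commute.map
      show (_, _) = (_, _)
      simp
    · rw [map_commutatorElement, commutatorElement_eq_one_iff_commute, map_mul, lift_aa, lift_bb,
        lift_zz, ← map_mul]
      apply comm_stab
      rw [smul_def]; simp
    · rw [map_commutatorElement, commutatorElement_eq_one_iff_commute, lift_aa, lift_zz]
      apply comm_stab
      have : qq R r = 1 := PresentedGroup.one_of_mem (by exact_mod_cast hr')
      rw [smul_def]; simp [this]
    · rw [map_commutatorElement, commutatorElement_eq_one_iff_commute, map_mul, map_mul, map_inv,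
        lift_aa, lift_zz, inr_conj]
      apply Commute.map
      apply RAAG.gen_comm
      have e : ((D, 1) : FreeGroup (Fin k) × FreeGroup (Fin k)) • (1 : LL R) = qq R D := by
        rw [smul_def]; simp
      rw [e]
      exact ⟨hD.symm, 1, Or.inl (by simp)⟩)

theorem Phi_pp (hD : qq R D ≠ 1) (w : FreeGroup (II k)) :
    Phi R D hD (pp R D w) = FreeGroup.lift (gsGen R D) w := rfl

theorem Psi_Phi (hD : qq R D ≠ 1) (x : GPr R D) : Psi R D (Phi R D hD x) = x := by
  have : (Psi R D).comp (Phi R D hD) = MonoidHom.id _ := by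
    apply PresentedGroup.ext
    intro i
    show Psi R D (Phi R D hD (pp R D (FreeGroup.of i))) = pp R D (FreeGroup.of i)
    rw [Phi_pp, FreeGroup.lift_apply_of]
    rcases i with (i | i) | ⟨⟩
    · simp only [gsGen, Psi, SemidirectProduct.lift_inr, fQ_apply, map_one, mul_one]
      simp [aa]
    · simp only [gsGen, Psi, SemidirectProduct.lift_inr, fQ_apply, map_one, one_mul]
      simp [bb]
    · simp only [gsGen, Psi, SemidirectProduct.lift_inl, RAAG.lift_gen, zeta_one]
      rfl
  exact DFunLike.congr_fun this x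

theorem Phi_injective (hD : qq R D ≠ 1) : Function.Injective (Phi R D hD) :=
  Function.LeftInverse.injective (Psi_Phi R D hD)

theorem Phi_zeta (hD : qq R D ≠ 1) (l : LL R) :
    Phi R D hD (zeta R D l) = SemidirectProduct.inl (RAAG.gen _ l) := by
  obtain ⟨w, rfl⟩ := PresentedGroup.mk_surjective _ l
  change Phi R D hD (zeta R D (qq R w)) = _
  rw [zeta_qq, map_mul, map_mul, map_inv, Phi_pp, Phi_pp, lift_aa, lift_zz, inr_conj]
  have e : ((w, 1) : FreeGroup (Fin k) × FreeGroup (Fin k)) • (1 : LL R) = qq R w := by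
    rw [smul_def]; simp
  rw [e]

/-- growth of the subgroups without free subgroups -/
theorem growth_GPr (hD : qq R D ≠ 1)
    (hno : ¬ ∃ f : ℕ → LL R, ∀ i j, i < j → (gr R D).Adj (f i) (f j))
    (H : Subgroup (GPr R D)) (hH : NF2 H) : PG (fun i => pp R D (FreeGroup.of i)) H := by
  classical
  have h1 : PG (gsGen R D) (H.map (Phi R D hD)) := by
    apply growth_GG (α := Fin k)
    · intro i
      rcases i with (i | i) | ⟨⟩
      · exact ⟨WL.one _, by simp [gsGen], by simp [gsGen]⟩
      · exact ⟨WL.one _, by simp [gsGen], by simp [gsGen]⟩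
      · refine ⟨?_, by simp [gsGen], by simp [gsGen]⟩
        simp only [gsGen, SemidirectProduct.left_inl]
        exact WL.gen _
    · exact hno
    · exact hH.map _
  obtain ⟨C, m, hC⟩ := h1
  refine ⟨C, m, fun r T hT => ?_⟩
  rw [← Finset.card_image_of_injective T (Phi_injective R D hD)]
  apply hC
  intro x hx
  rw [Finset.mem_image] at hx
  obtain ⟨t, ht, rfl⟩ := hx
  refine ⟨⟨t, (hT t ht).1, rfl⟩, ?_⟩
  refine (hT t ht).2.map _ ?_
  intro i
  rw [Phi_pp, FreeGroup.lift_apply_of]
  exact WL.gen _

/-- free abelian subgroups from cliques -/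
theorem exists_Zn (hD : qq R D ≠ 1)
    (hcl : ∀ N : ℕ, ∃ l : Fin N → LL R, Function.Injective l ∧
      ∀ i j, i ≠ j → (gr R D).Adj (l i) (l j)) (N : ℕ) :
    ∃ h : (Fin N → Multiplicative ℤ) →* GPr R D, Function.Injective h := by
  obtain ⟨l, h1, h2⟩ := hcl N
  obtain ⟨h, hh⟩ := RAAG.exists_free_abelian (gr R D) N l h1 h2
  refine ⟨(RAAG.lift (zeta R D) (zeta_comm R D)).comp h, ?_⟩
  have e : (Phi R D hD).comp (RAAG.lift (zeta R D) (zeta_comm R D)) = SemidirectProduct.inl := by
    apply RAAG.hom_ext
    intro l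
    rw [MonoidHom.comp_apply, RAAG.lift_gen, Phi_zeta]
  have h3 : Function.Injective (SemidirectProduct.inl.comp h : _ →* GS R D) :=
    SemidirectProduct.inl_injective.comp hh
  rw [← e] at h3
  intro x y hxy
  apply h3
  show Phi R D hD _ = Phi R D hD _
  exact congrArg _ hxy

end

end Pool.Agent.W379
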