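import Pool.Agent.W379.Aff2

set_option autoImplicit false

namespace Pool.Agent.W379

/-- The subgroup contains no free subgroup of rank two. -/
def NF2 {G : Type} [Group G] (M : Subgroup G) : Prop :=
  ∀ x ∈ M, ∀ y ∈ M, ¬ Function.Injective (FreeGroup.lift ![x, y])

theorem NF2.mono {G : Type} [Group G] {M N : Subgroup G} (h : M ≤ N) (hN : NF2 N) : NF2 M :=
  fun x hx y hy => hN x (h hx) y (h hy)

theorem NF2.map {G K : Type} [Group G] [Group K] (f : G →* K) {M : Subgroup G} (hM : NF2 M) :
    NF2 (M.map f) := by
  rintro _ ⟨x, hx, rfl⟩ _ ⟨y, hy, rfl⟩ hinj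
  refine hM x hx y hy ?_
  have e : f.comp (FreeGroup.lift ![x, y]) = FreeGroup.lift ![f x, f y] := by
    ext i
    fin_cases i <;> simp
  rw [← e, MonoidHom.coe_comp] at hinj
  exact Function.Injective.of_comp hinj

theorem NF2.comap {G K : Type} [Group G] [Group K] (f : G →* K) (hf : Function.Injective f)
    {M : Subgroup K} (hM : NF2 M) : NF2 (M.comap f) := by
  intro x hx y hy hinj
  refine hM (f x) hx (f y) hy ?_
  have e : f.comp (FreeGroup.lift ![x, y]) = FreeGroup.lift ![f x, f y] := by
    ext i
    fin_cases i <;> simp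
  rw [← e, MonoidHom.coe_comp]
  exact hf.comp hinj

theorem NF2.cyclic_of_free {α : Type} {M : Subgroup (FreeGroup α)} (hM : NF2 M) :
    ∃ z ∈ M, M = Subgroup.zpowers z := by
  classical
  have hsub : Subsingleton (IsFreeGroup.Generators M) := by
    refine ⟨fun a b => ?_⟩
    by_contra hab
    refine hM (IsFreeGroup.of a : M) (IsFreeGroup.of a : M).2 (IsFreeGroup.of b : M)
      (IsFreeGroup.of b : M).2 ?_
    have e : FreeGroup.lift ![((IsFreeGroup.of a : M) : FreeGroup α),
        ((IsFreeGroup.of b : M) : FreeGroup α)] =
        (M.subtype.comp (IsFreeGroup.mulEquiv M).toMonoidHom).comp (FreeGroup.map ![a, b]) := by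
      ext i
      fin_cases i
      · simp [IsFreeGroup.of]
      · simp [IsFreeGroup.of]
    rw [e]
    refine (M.subtype_injective.comp (IsFreeGroup.mulEquiv M).injective).comp ?_
    apply FreeGroup.map_injective
    intro i j hij
    fin_cases i <;> fin_cases j <;> simp_all
  rcases isEmpty_or_nonempty (IsFreeGroup.Generators M) with he | ⟨⟨a⟩⟩
  · refine ⟨1, M.one_mem, ?_⟩
    rw [Subgroup.zpowers_one_eq_bot, eq_bot_iff]
    intro x hx
    have : (⟨x, hx⟩ : M) = 1 := by
      apply (IsFreeGroup.toFreeGroup M).injective
      exact Subsingleton.elim _ _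
    simpa using congrArg Subtype.val this
  · refine ⟨(IsFreeGroup.of a : M), (IsFreeGroup.of a : M).2, ?_⟩
    apply le_antisymm
    · intro x hx
      have h1 : ∀ w : FreeGroup (IsFreeGroup.Generators M),
          w ∈ Subgroup.zpowers (FreeGroup.of a) := by
        intro w
        have : w ∈ Subgroup.closure (Set.range (FreeGroup.of (α := IsFreeGroup.Generators M))) := by
          rw [FreeGroup.closure_range_of]; trivial
        rw [Subgroup.zpowers_eq_closure]
        refine Subgroup.closure_mono ?_ this
        rintro _ ⟨b, rfl⟩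
        simp [Subsingleton.elim b a]
      obtain ⟨k, hk⟩ := h1 ((IsFreeGroup.toFreeGroup M) ⟨x, hx⟩)
      refine ⟨k, ?_⟩
      have h2 : (⟨x, hx⟩ : M) = (IsFreeGroup.of a : M) ^ k := by
        apply (IsFreeGroup.toFreeGroup M).injective
        rw [← hk, map_zpow]
        congr 1
        simp [IsFreeGroup.of, IsFreeGroup.toFreeGroup]
      have h3 := congrArg (Subtype.val) h2
      simpa using h3.symm
    · rw [Subgroup.zpowers_le]
      exact (IsFreeGroup.of a : M).2

/-- first letter -/
theorem head_of_mul (i : Fin 2) (u : FreeGroup (Fin 2)) :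
    (FreeGroup.of i * u).toWord.head? = some (i, true) ↔ u.toWord.head? ≠ some (i, false) := by
  rw [FreeGroup.toWord_mul, FreeGroup.toWord_of, List.singleton_append, FreeGroup.reduce.cons,
    FreeGroup.reduce_toWord]
  have hr : FreeGroup.IsReduced u.toWord := FreeGroup.isReduced_toWord
  rcases hu : u.toWord with _ | ⟨⟨j, b⟩, l⟩
  · simp
  · rw [hu] at hr
    simp only [List.head?_cons, ne_eq, Option.some.injEq, Prod.mk.injEq, not_and,
      Bool.not_eq_false]
    by_cases h : i = j ∧ true = !b
    · rw [if_pos h]
      obtain ⟨rfl, hb⟩ := h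
      have hb : b = false := by simpa using hb.symm
      subst hb
      constructor
      · intro h2
        exfalso
        rcases l with _ | ⟨⟨j', b'⟩, l⟩
        · simp at h2
        · simp at h2
          obtain ⟨rfl, rfl⟩ := h2
          unfold FreeGroup.IsReduced at hr
          simp at hr
      · intro h2; simp at h2
    · rw [if_neg h]
      constructor
      · intro _ hij
        by_contra hb
        exact h ⟨hij.symm, by simpa using hb⟩
      · intro _; simp

/-- a subgroup satisfying the Folner condition contains no free group of rank two. -/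
theorem NF2_of_folner {G : Type} [Group G] [DecidableEq G] (M : Subgroup G)
    (hF : ∀ F : Finset G, (∀ x ∈ F, x ∈ M) → ∀ ε : ℝ, 0 < ε →
      ∃ A : Finset G, A.Nonempty ∧ (∀ a ∈ A, a ∈ M) ∧
        ∀ x ∈ F, ((((A.image (fun a => x * a)) \ A).card : ℕ) : ℝ) ≤ ε * (A.card : ℝ)) :
    NF2 M := by
  classical
  intro x hx y hy hinj
  set ι : FreeGroup (Fin 2) →* G := FreeGroup.lift ![x, y] with hι
  -- the equivariant map
  obtain ⟨f, hf⟩ : ∃ f : G → FreeGroup (Fin 2), ∀ u g, f (ι u * g) = u * f g := by
    let r : G → G := fun g => Quotient.out (Quotient.mk (QuotientGroup.rightRel ι.range) g)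
    have hr : ∀ g, ∃ u, ι u * r g = g := by
      intro g
      have h1 : (QuotientGroup.rightRel ι.range).r (r g) g := by
        exact Quotient.exact (Quotient.out_eq (Quotient.mk (QuotientGroup.rightRel ι.range) g))
      have h2 := (QuotientGroup.rightRel_apply).mp h1
      obtain ⟨u, hu⟩ := h2
      exact ⟨u, by rw [hu]; group⟩
    choose f hf using hr
    refine ⟨f, fun u g => ?_⟩
    have h3 : r (ι u * g) = r g := by
      show Quotient.out _ = Quotient.out _
      congr 1
      apply Quotient.sound
      show (QuotientGroup.rightRel ι.range).r _ _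
      exact (QuotientGroup.rightRel_apply).mpr ⟨u⁻¹, by rw [map_inv]; group⟩
    have h4 := hf (ι u * g)
    rw [h3] at h4
    have h5 := hf g
    apply hinj
    rw [map_mul]
    have e1 : ι (f (ι u * g)) = ι u * g * (r g)⁻¹ := eq_mul_inv_of_mul_eq h4
    have e2 : ι (f g) = g * (r g)⁻¹ := eq_mul_inv_of_mul_eq h5
    rw [e1, e2]; group
  have hg : ∀ i : Fin 2, ι (FreeGroup.of i) ∈ M := by
    intro i
    fin_cases i
    · simpa [hι] using hx
    · simpa [hι] using hy
  obtain ⟨A, hA, -, hA2⟩ := hF {ι (FreeGroup.of 0), ι (FreeGroup.of 1)} (by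
    intro z hz
    simp only [Finset.mem_insert, Finset.mem_singleton] at hz
    rcases hz with rfl | rfl
    · exact hg 0
    · exact hg 1) (1/4) (by norm_num)
  have hA3 : ∀ i : Fin 2, ((((A.image (fun a => ι (FreeGroup.of i) * a)) \ A).card : ℕ) : ℝ) ≤
      1/4 * (A.card : ℝ) := by
    intro i
    apply hA2
    fin_cases i <;> simp
  let W : Fin 2 × Bool → Finset G := fun s => A.filter (fun g => (f g).toWord.head? = some s)
  have key : ∀ i : Fin 2, (A.card : ℝ) ≤ (W (i, true)).card + (W (i, false)).card +
      1/4 * (A.card : ℝ) := by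
    intro i
    have h1 : A.card = (W (i, false)).card +
        (A.filter (fun g => ¬ (f g).toWord.head? = some (i, false))).card :=
      (Finset.card_filter_add_card_filter_not _).symm
    have h2 : (A.filter (fun g => ¬ (f g).toWord.head? = some (i, false))).card ≤
        (W (i, true)).card + ((A.image (fun a => ι (FreeGroup.of i) * a)) \ A).card := by
      rw [← Finset.card_image_of_injective (A.filter _)
        (mul_right_injective (ι (FreeGroup.of i)))]
      refine le_trans (Finset.card_le_card ?_) (Finset.card_union_le _ _)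
      intro z hz
      rw [Finset.mem_image] at hz
      obtain ⟨g, hgA, rfl⟩ := hz
      rw [Finset.mem_filter] at hgA
      rw [Finset.mem_union]
      by_cases hzA : ι (FreeGroup.of i) * g ∈ A
      · left
        rw [Finset.mem_filter]
        refine ⟨hzA, ?_⟩
        rw [hf]
        exact (head_of_mul i (f g)).mpr hgA.2
      · right
        rw [Finset.mem_sdiff]
        exact ⟨Finset.mem_image_of_mem _ hgA.1, hzA⟩
    have h3 := hA3 i
    have h4 : (A.card : ℝ) ≤ (W (i, false)).card + ((W (i, true)).card +
        ((A.image (fun a => ι (FreeGroup.of i) * a)) \ A).card) := by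
      exact_mod_cast h1.le.trans (Nat.add_le_add_left h2 _)
    linarith
  have hdisj : (W (0, true)).card + (W (0, false)).card + (W (1, true)).card +
      (W (1, false)).card ≤ A.card := by
    have : ∑ s : Fin 2 × Bool, (W s).card ≤ A.card := by
      rw [← Finset.card_biUnion]
      · apply Finset.card_le_card
        intro z hz
        rw [Finset.mem_biUnion] at hz
        obtain ⟨s, -, hs⟩ := hz
        exact (Finset.mem_filter.mp hs).1
      · intro s _ t _ hst
        rw [Function.onFun, Finset.disjoint_left]
        intro z hz hz2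
        apply hst
        have e1 := (Finset.mem_filter.mp hz).2
        have e2 := (Finset.mem_filter.mp hz2).2
        rw [e1] at e2
        simpa using e2
    rw [Fintype.sum_prod_type] at this
    simp only [Fin.sum_univ_two, Fintype.sum_bool] at this
    omega
  have k0 := key 0
  have k1 := key 1
  have hd : ((W (0, true)).card : ℝ) + (W (0, false)).card + (W (1, true)).card +
      (W (1, false)).card ≤ A.card := by exact_mod_cast hdisj
  have hpos : (0 : ℝ) < A.card := by exact_mod_cast hA.card_pos
  linarith

end Pool.Agent.W379
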