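import Pool.Agent.W379.RDfail
import Pool.Agent.W379.GPres
import Pool.Agent.W379.NF2

set_option autoImplicit false

namespace Pool.Agent.W379

/-- word length in a presented group -/
theorem WL_iff {α : Type} [DecidableEq α] (rels : Set (FreeGroup α)) (r : ℕ) (y : PresentedGroup rels) :
    WL (fun i => PresentedGroup.mk rels (FreeGroup.of i)) r y ↔
      ∃ w : FreeGroup α, w.toWord.length ≤ r ∧ PresentedGroup.mk rels w = y := by
  have e : FreeGroup.lift (fun i => PresentedGroup.mk rels (FreeGroup.of i)) =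
      PresentedGroup.mk rels := by
    ext i; simp
  constructor
  · rintro ⟨l, hl, rfl⟩
    refine ⟨FreeGroup.mk l, ?_, by rw [e]⟩
    exact (FreeGroup.norm_mk_le (L₁ := l)).trans hl
  · rintro ⟨w, hw, rfl⟩
    exact ⟨w.toWord, hw, by rw [FreeGroup.mk_toWord, e]⟩

theorem closure_gens {α : Type} (rels : Set (FreeGroup α)) :
    Subgroup.closure (Set.range (fun i => PresentedGroup.mk rels (FreeGroup.of i))) = ⊤ :=
  PresentedGroup.closure_range_of rels

open Classical in
/-- the full statement for a group with free abelian subgroups of all ranks -/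
theorem body {n : ℕ} (rels : Finset (FreeGroup (Fin n)))
    (hZ : ∀ N : ℕ, ∃ h : (Fin N → Multiplicative ℤ) →*
      PresentedGroup (↑rels : Set (FreeGroup (Fin n))), Function.Injective h)
    (hG : ∀ H : Subgroup (PresentedGroup (↑rels : Set (FreeGroup (Fin n)))), NF2 H →
      PG (fun i => PresentedGroup.mk (↑rels : Set (FreeGroup (Fin n))) (FreeGroup.of i)) H) :
      (¬ ∃ C k : ℕ, ∀ r : ℕ,
          ∀ f g : PresentedGroup (↑rels : Set (FreeGroup (Fin n))) →₀ ℂ,
            (∀ y ∈ f.support, ∃ w : FreeGroup (Fin n),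
                w.toWord.length ≤ r ∧ PresentedGroup.mk (↑rels : Set (FreeGroup (Fin n))) w = y) →
            ∑' x : PresentedGroup (↑rels : Set (FreeGroup (Fin n))),
                ‖∑ y ∈ f.support, f y * g (y⁻¹ * x)‖ ^ 2
              ≤ (C : ℝ) * ((1 : ℝ) + (r : ℝ)) ^ k
                  * (∑ y ∈ f.support, ‖f y‖ ^ 2) * (∑ y ∈ g.support, ‖g y‖ ^ 2)) ∧
      ∀ H : Subgroup (PresentedGroup (↑rels : Set (FreeGroup (Fin n)))),
        (∀ F : Finset (PresentedGroup (↑rels : Set (FreeGroup (Fin n)))),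
            (∀ x ∈ F, x ∈ H) → ∀ ε : ℝ, 0 < ε →
              ∃ A : Finset (PresentedGroup (↑rels : Set (FreeGroup (Fin n)))),
                A.Nonempty ∧ (∀ a ∈ A, a ∈ H) ∧
                  ∀ x ∈ F, ((((A.image (fun a => x * a)) \ A).card : ℕ) : ℝ) ≤ ε * (A.card : ℝ)) →
        ∃ C k : ℕ, ∀ r : ℕ,
          ({x : PresentedGroup (↑rels : Set (FreeGroup (Fin n))) |
              x ∈ H ∧ ∃ w : FreeGroup (Fin n),
                w.toWord.length ≤ r ∧ PresentedGroup.mk (↑rels : Set (FreeGroup (Fin n))) w = x}).ncard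
            ≤ C * (1 + r) ^ k := by
  refine ⟨?_, ?_⟩
  · have h1 := rd_fails (fun i => PresentedGroup.mk (↑rels : Set (FreeGroup (Fin n))) (FreeGroup.of i))
      (closure_gens _) hZ
    rintro ⟨C, k, h⟩
    apply h1
    refine ⟨C, k, fun r f g hf => h r f g ?_⟩
    intro y hy
    have h2 := (WL_iff _ _ _).mp (hf y hy)
    convert h2
  · intro H hH
    obtain ⟨C, k, h⟩ := hG H (NF2_of_folner H hH)
    refine ⟨C, k, fun r => ?_⟩
    set S := {x : PresentedGroup (↑rels : Set (FreeGroup (Fin n))) |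
              x ∈ H ∧ ∃ w : FreeGroup (Fin n),
                w.toWord.length ≤ r ∧ PresentedGroup.mk (↑rels : Set (FreeGroup (Fin n))) w = x} with hS
    rcases S.finite_or_infinite with hfin | hinf
    · rw [Set.ncard_eq_toFinset_card S hfin]
      apply h r
      intro t ht
      rw [Set.Finite.mem_toFinset] at ht
      refine ⟨ht.1, ?_⟩
      rw [WL_iff]
      convert ht.2
    · rw [hinf.ncard]; exact Nat.zero_le _

open Classical in
/-- the full statement from clique data -/
theorem main_of_clique {k : ℕ} (R : Finset (FreeGroup (Fin k))) (D : FreeGroup (Fin k))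
    (hD : qq R D ≠ 1)
    (hno : ¬ ∃ f : ℕ → LL R, ∀ i j, i < j → (gr R D).Adj (f i) (f j))
    (hcl : ∀ N : ℕ, ∃ l : Fin N → LL R, Function.Injective l ∧
      ∀ i j, i ≠ j → (gr R D).Adj (l i) (l j)) :
    ∃ (n : ℕ) (rels : Finset (FreeGroup (Fin n))),
      (¬ ∃ C k : ℕ, ∀ r : ℕ,
          ∀ f g : PresentedGroup (↑rels : Set (FreeGroup (Fin n))) →₀ ℂ,
            (∀ y ∈ f.support, ∃ w : FreeGroup (Fin n),
                w.toWord.length ≤ r ∧ PresentedGroup.mk (↑rels : Set (FreeGroup (Fin n))) w = y) →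
            ∑' x : PresentedGroup (↑rels : Set (FreeGroup (Fin n))),
                ‖∑ y ∈ f.support, f y * g (y⁻¹ * x)‖ ^ 2
              ≤ (C : ℝ) * ((1 : ℝ) + (r : ℝ)) ^ k
                  * (∑ y ∈ f.support, ‖f y‖ ^ 2) * (∑ y ∈ g.support, ‖g y‖ ^ 2)) ∧
      ∀ H : Subgroup (PresentedGroup (↑rels : Set (FreeGroup (Fin n)))),
        (∀ F : Finset (PresentedGroup (↑rels : Set (FreeGroup (Fin n)))),
            (∀ x ∈ F, x ∈ H) → ∀ ε : ℝ, 0 < ε →
              ∃ A : Finset (PresentedGroup (↑rels : Set (FreeGroup (Fin n)))),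
                A.Nonempty ∧ (∀ a ∈ A, a ∈ H) ∧
                  ∀ x ∈ F, ((((A.image (fun a => x * a)) \ A).card : ℕ) : ℝ) ≤ ε * (A.card : ℝ)) →
        ∃ C k : ℕ, ∀ r : ℕ,
          ({x : PresentedGroup (↑rels : Set (FreeGroup (Fin n))) |
              x ∈ H ∧ ∃ w : FreeGroup (Fin n),
                w.toWord.length ≤ r ∧ PresentedGroup.mk (↑rels : Set (FreeGroup (Fin n))) w = x}).ncard
            ≤ C * (1 + r) ^ k := by
  set e : II k ≃ Fin (Fintype.card (II k)) := Fintype.equivFin (II k) with he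
  set rels' : Finset (FreeGroup (Fin (Fintype.card (II k)))) :=
    (rels R D).image (FreeGroup.freeGroupCongr e) with hrels'
  have hset : (rels' : Set (FreeGroup (Fin (Fintype.card (II k))))) =
      (FreeGroup.freeGroupCongr e) '' (rels R D : Set (FreeGroup (II k))) := by
    rw [hrels', Finset.coe_image]
  obtain ⟨E, hE⟩ : ∃ E : GPr R D ≃* PresentedGroup (rels' : Set (FreeGroup (Fin (Fintype.card (II k))))),
      ∀ i, E (pp R D (FreeGroup.of i)) = PresentedGroup.mk _ (FreeGroup.of (e i)) := by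
    rw [hset]
    exact ⟨PresentedGroup.equivPresentedGroup _ e, fun i => rfl⟩
  refine ⟨Fintype.card (II k), rels', body rels' ?_ ?_⟩
  · intro N
    obtain ⟨h, hh⟩ := exists_Zn R D hD hcl N
    exact ⟨E.toMonoidHom.comp h, E.injective.comp hh⟩
  · intro H hH
    have h1 := growth_GPr R D hD hno (H.map E.symm.toMonoidHom) (hH.map _)
    obtain ⟨C, m, hC⟩ := h1
    refine ⟨C, m, fun r T hT => ?_⟩
    rw [← Finset.card_image_of_injective T E.symm.injective]
    apply hC
    intro x hx
    rw [Finset.mem_image] at hx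
    obtain ⟨t, ht, rfl⟩ := hx
    refine ⟨⟨t, (hT t ht).1, rfl⟩, ?_⟩
    refine (hT t ht).2.map E.symm.toMonoidHom ?_
    intro i
    have : E.symm.toMonoidHom (PresentedGroup.mk _ (FreeGroup.of i)) = pp R D (FreeGroup.of (e.symm i)) := by
      show E.symm _ = _
      rw [MulEquiv.symm_apply_eq, hE, Equiv.apply_symm_apply]
    rw [this]
    exact WL.gen (γ := fun i => pp R D (FreeGroup.of i)) (e.symm i)

end Pool.Agent.W379
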