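import Pool.Agent.W379.Ladder

set_option autoImplicit false
set_option linter.unusedSectionVars false

namespace Pool.Agent.W379.Wr

section
variable {G : Type} [Group G] (S : Subgroup G) (d : G)

/-- functions on the cosets -/
abbrev AA : Type := (G ⧸ S) → Multiplicative ℤ

/-- the wreath type product -/
abbrev WW : Type := AA S ⋊[mulAutArrow] G

open Classical in
/-- basis element -/
noncomputable def ee (ω : G ⧸ S) : AA S := Pi.mulSingle ω (Multiplicative.ofAdd 1)

theorem ee_apply (ω ω' : G ⧸ S) [Decidable (ω' = ω)] :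
    Multiplicative.toAdd (ee S ω ω') = if ω' = ω then 1 else 0 := by
  classical
  unfold ee
  by_cases h : ω' = ω
  · subst h; simp
  · rw [Pi.mulSingle_eq_of_ne h, if_neg h]; rfl

theorem act_ee (g : G) (ω : G ⧸ S) : mulAutArrow g (ee S ω) = ee S (g • ω) := by
  classical
  funext ω'
  have h1 : (mulAutArrow g (ee S ω)) ω' = ee S ω (g⁻¹ • ω') := rfl
  apply Multiplicative.toAdd.injective
  rw [h1, ee_apply, ee_apply]
  by_cases h : g⁻¹ • ω' = ω
  · rw [if_pos h, if_pos (by rw [← h, smul_inv_smul])]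
  · rw [if_neg h, if_neg]
    intro h'
    apply h
    rw [h', inv_smul_smul]

/-- the extra element -/
noncomputable def x0 : WW S := SemidirectProduct.inl (ee S (QuotientGroup.mk 1))

/-- the distinguished element -/
noncomputable def DD : WW S :=
  (x0 S)⁻¹ * (SemidirectProduct.inr d * x0 S * (SemidirectProduct.inr d)⁻¹)

theorem inr_x0 (g : G) : SemidirectProduct.inr g * x0 S * (SemidirectProduct.inr g)⁻¹ =
    (SemidirectProduct.inl (ee S (QuotientGroup.mk g)) : WW S) := by
  rw [x0, ← map_inv, ← SemidirectProduct.inl_aut, act_ee]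
  congr 2
  show (QuotientGroup.mk (g * 1) : G ⧸ S) = _
  rw [mul_one]

theorem x0_comm (s : G) (hs : s ∈ S) : Commute (x0 S) (SemidirectProduct.inr s) := by
  have h1 := inr_x0 S s
  have h2 : (QuotientGroup.mk s : G ⧸ S) = QuotientGroup.mk 1 := by
    rw [QuotientGroup.eq]; simpa using hs
  rw [h2] at h1
  change _ = x0 S at h1
  rw [mul_inv_eq_iff_eq_mul] at h1
  exact h1.symm

theorem DD_eq : DD S d = SemidirectProduct.inl
    ((ee S (QuotientGroup.mk 1))⁻¹ * ee S (QuotientGroup.mk d)) := by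
  rw [DD, inr_x0, x0, ← map_inv, ← map_mul]

theorem DD_conj (c : WW S) : c * DD S d * c⁻¹ = SemidirectProduct.inl
    ((ee S (QuotientGroup.mk c.right))⁻¹ * ee S (QuotientGroup.mk (c.right * d))) := by
  have h1 : c = SemidirectProduct.inl c.left * SemidirectProduct.inr c.right :=
    (SemidirectProduct.inl_left_mul_inr_right c).symm
  have h2 : (SemidirectProduct.inr c.right * DD S d * (SemidirectProduct.inr c.right)⁻¹ : WW S) =
      SemidirectProduct.inl ((ee S (QuotientGroup.mk c.right))⁻¹ *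
        ee S (QuotientGroup.mk (c.right * d))) := by
    rw [DD_eq, ← map_inv, ← SemidirectProduct.inl_aut, map_mul, map_inv, act_ee, act_ee]
    congr 4
    show (QuotientGroup.mk (c.right * 1) : G ⧸ S) = _
    rw [mul_one]
  calc c * DD S d * c⁻¹ = SemidirectProduct.inl c.left * (SemidirectProduct.inr c.right * DD S d *
        (SemidirectProduct.inr c.right)⁻¹) * (SemidirectProduct.inl c.left)⁻¹ := by
        conv_lhs => rw [h1]
        group
    _ = _ := by
        rw [h2, ← map_inv, ← map_mul, ← map_mul]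
        congr 1
        rw [mul_comm c.left, mul_assoc, mul_inv_cancel, mul_one]

/-- adjacency of cosets -/
def AdjO (α β : G ⧸ S) : Prop :=
  ∃ g : G, (α = QuotientGroup.mk g ∧ β = QuotientGroup.mk (g * d)) ∨
    (α = QuotientGroup.mk (g * d) ∧ β = QuotientGroup.mk g)

theorem AdjO.symm {S : Subgroup G} {d : G} {α β : G ⧸ S} (h : AdjO S d α β) : AdjO S d β α := by
  obtain ⟨g, h | h⟩ := h
  · exact ⟨g, Or.inr ⟨h.2, h.1⟩⟩
  · exact ⟨g, Or.inl ⟨h.2, h.1⟩⟩

theorem AdjO.ne {S : Subgroup G} {d : G} (hd : d ∉ S) {α β : G ⧸ S} (h : AdjO S d α β) :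
    α ≠ β := by
  intro e
  obtain ⟨g, ⟨h1, h2⟩ | ⟨h1, h2⟩⟩ := h
  · rw [h1, h2, QuotientGroup.eq] at e
    apply hd; simpa using e
  · rw [h1, h2, QuotientGroup.eq] at e
    apply hd
    have := inv_mem e
    simpa [mul_assoc] using this

theorem six {a b a' b' α β : G ⧸ S} (h1 : a ≠ b) (h2 : a' ≠ b') (h3 : α ≠ β)
    (h : ((ee S a)⁻¹ * ee S b)⁻¹ * ((ee S a')⁻¹ * ee S b') = (ee S α)⁻¹ * ee S β) :
    (a = a' ∧ α = b ∧ β = b') ∨ (b = b' ∧ α = a' ∧ β = a) := by
  classical
  have key : ∀ ω, (if ω = a then (1 : ℤ) else 0) + (if ω = b' then 1 else 0) +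
      (if ω = α then 1 else 0) = (if ω = b then (1 : ℤ) else 0) + (if ω = a' then 1 else 0) +
      (if ω = β then 1 else 0) := by
    intro ω
    have h4 := congrArg Multiplicative.toAdd (congrFun h ω)
    simp only [Pi.mul_apply, Pi.inv_apply, toAdd_mul, toAdd_inv, ee_apply] at h4
    linarith
  by_cases e1 : a = a'
  · left
    subst e1
    have n1 : b ≠ a := h1.symm
    have n2 : b' ≠ a := h2.symm
    have e2 : α = b := by
      by_contra e2
      have n3 : b ≠ α := fun h => e2 h.symm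
      have k2 := key b
      simp only [n1, n3, if_true, if_false] at k2
      by_cases e3 : b = b'
      · subst e3
        have k4 := key α
        simp only [h3, if_true, if_false] at k4
        omega
      · simp only [e3, if_true, if_false] at k2
        split_ifs at k2 <;> omega
    subst e2
    refine ⟨rfl, rfl, ?_⟩
    by_contra e4
    have n4 : b' ≠ β := fun h => e4 h.symm
    have k3 := key b'
    simp only [n2, n4, if_true, if_false] at k3
    omega
  · right
    have k1 := key a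
    simp only [h1, e1, if_true, if_false] at k1
    have e2 : a = β := by
      by_contra e2
      simp only [e2, if_true, if_false] at k1
      split_ifs at k1 <;> omega
    subst e2
    have n1 : a' ≠ a := fun h => e1 h.symm
    have n2 : b ≠ a := h1.symm
    have e3 : α = a' := by
      by_contra e3
      have n3 : a' ≠ α := fun h => e3 h.symm
      have k3 := key a'
      simp only [n1, h2, n3, if_true, if_false] at k3
      split_ifs at k3 <;> omega
    subst e3
    refine ⟨?_, rfl, rfl⟩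
    by_contra e4
    have k2 := key b
    simp only [n2, e4, if_true, if_false] at k2
    omega

/-- no infinite clique in the wreath type product -/
theorem no_inf (hd : d ∉ S)
    (hno : ¬ ∃ F : ℕ → G ⧸ S, ∀ i j, i < j → AdjO S d (F i) (F j)) :
    ¬ ∃ F : ℕ → WW S, ∀ i j, i < j → ∃ c, (F i)⁻¹ * F j = c * DD S d * c⁻¹ ∨
      (F i)⁻¹ * F j = c * (DD S d)⁻¹ * c⁻¹ := by
  rintro ⟨F, hF⟩
  have h1 : ∀ i j, i < j → ∃ α β, AdjO S d α β ∧
      (F i)⁻¹ * F j = SemidirectProduct.inl ((ee S α)⁻¹ * ee S β) := by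
    intro i j hij
    obtain ⟨c, h | h⟩ := hF i j hij
    · exact ⟨_, _, ⟨c.right, Or.inl ⟨rfl, rfl⟩⟩, by rw [h, DD_conj]⟩
    · refine ⟨_, _, ⟨c.right, Or.inr ⟨rfl, rfl⟩⟩, ?_⟩
      have : c * (DD S d)⁻¹ * c⁻¹ = (c * DD S d * c⁻¹)⁻¹ := by group
      rw [h, this, DD_conj, ← map_inv]
      congr 1
      rw [mul_inv_rev, inv_inv]
  have h2 : ∀ i, ∃ a b, AdjO S d a b ∧
      (F 0)⁻¹ * F (i + 1) = SemidirectProduct.inl ((ee S a)⁻¹ * ee S b) := fun i =>
    h1 0 (i + 1) (by omega)
  choose a b hab hF0 using h2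
  have h3 : ∀ i j, i < j → (a i = a j ∧ AdjO S d (b i) (b j)) ∨
      (b i = b j ∧ AdjO S d (a i) (a j)) := by
    intro i j hij
    obtain ⟨α, β, h4, h5⟩ := h1 (i + 1) (j + 1) (by omega)
    have h6 : (F (i + 1))⁻¹ * F (j + 1) = ((F 0)⁻¹ * F (i + 1))⁻¹ * ((F 0)⁻¹ * F (j + 1)) := by
      group
    rw [h5, hF0, hF0, ← map_inv, ← map_mul] at h6
    have h7 := SemidirectProduct.inl_injective h6
    rcases six S ((hab i).ne hd) ((hab j).ne hd) (h4.ne hd) h7.symm with ⟨e1, e2, e3⟩ | ⟨e1, e2, e3⟩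
    · left; rw [e2, e3] at h4; exact ⟨e1, h4⟩
    · right; rw [e2, e3] at h4; exact ⟨e1, h4.symm⟩
  by_cases hA : ∀ N, ∃ n > N, 0 < n ∧ a 0 = a n
  · obtain ⟨φ, hφ, hφ2⟩ := Nat.exists_strictMono_subsequence hA
    apply hno
    refine ⟨fun n => b (φ n), fun i j hij => ?_⟩
    rcases h3 (φ i) (φ j) (hφ hij) with h | h
    · exact h.2
    · exact absurd ((hφ2 i).2.symm.trans (hφ2 j).2) (h.2.ne hd)
  · push Not at hA
    obtain ⟨N, hN⟩ := hA
    have hB : ∀ n, N < n → b 0 = b n := by
      intro n hn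
      rcases h3 0 n (by omega) with h | h
      · exact absurd h.1 (hN n hn (by omega))
      · exact h.1
    apply hno
    refine ⟨fun n => a (N + 1 + n), fun i j hij => ?_⟩
    rcases h3 (N + 1 + i) (N + 1 + j) (by omega) with h | h
    · exact absurd ((hB (N + 1 + i) (by omega)).symm.trans (hB (N + 1 + j) (by omega))) (h.2.ne hd)
    · exact h.2

end

end Pool.Agent.W379.Wr
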