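import Pool.Agent.W379.Design3
import Pool.Agent.W379.Wreath
import Pool.Agent.W379.Main1

set_option autoImplicit false

namespace Pool.Agent.W379.Ds

open FreeGroup (of lift mk)
open Pool.Agent.W379.MH
open scoped commutatorElement

/-- words of the base group in seven letters -/
def iP : P →* FreeGroup (Fin 7) := lift ![of 0, of 1, of 2]

/-- stable letters -/
def st : Ltr → FreeGroup (Fin 7)
  | .T => of 3
  | .H => of 4
  | .N => of 5

/-- the last generator -/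
def xx : FreeGroup (Fin 7) := of 6

/-- relator for a pair -/
def rl (i : Ltr) (x y : P) : FreeGroup (Fin 7) := st i * iP x * (st i)⁻¹ * (iP y)⁻¹

/-- the relators -/
def RR : Finset (FreeGroup (Fin 7)) :=
  {rl .T (p ^ 2) p, rl .T v (v ^ 2), rl .T (p * v * p⁻¹) (h ^ 2),
   rl .H h h, rl .H (p ^ 2) p, rl .H v (v ^ 2),
   rl .N (h ^ 2) h, rl .N (p * v ^ 2 * p⁻¹) (p * v * p⁻¹),
   ⁅xx, st .T⁆, ⁅xx, st .H⁆, ⁅xx, st .N⁆}

/-- base element -/
def d0 : P := (l 1 0)⁻¹ * l 1 1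

/-- distinguished element -/
def DDD : FreeGroup (Fin 7) := xx⁻¹ * (iP d0 * xx * (iP d0)⁻¹)

theorem EE_d0 : EE l d0 := ⟨1, 0, 1, by omega, by omega, by omega, rfl⟩

section
variable {K : Type} [Group K] (π : FreeGroup (Fin 7) →* K)

/-- a homomorphism killing the relators satisfies all stable letter relations -/
theorem rel_all (hR : ∀ r ∈ RR, π r = 1) (i : Ltr) (q : FreeGroup (Fin (rk i))) :
    π (st i) * π (iP (f i q)) = π (iP (g i q)) * π (st i) := by
  have base : ∀ (i : Ltr) (x y : P), rl i x y ∈ RR →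
      MulAut.conj (π (st i)) (π (iP x)) = π (iP y) := by
    intro i x y hxy
    have := hR _ hxy
    rw [rl, map_mul, map_mul, map_mul, map_inv, map_inv, mul_inv_eq_one] at this
    rw [MulAut.conj_apply]; exact this
  have key : ((MulAut.conj (π (st i))).toMonoidHom.comp (π.comp (iP.comp (f i)))) =
      π.comp (iP.comp (g i)) := by
    cases i
    · apply FreeGroup.ext_hom
      intro j
      show MulAut.conj (π (st .T)) (π (iP (fT (of j)))) = π (iP (gT (of j)))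
      fin_cases j
      · exact base .T (p ^ 2) p (by simp [RR])
      · exact base .T v (v ^ 2) (by simp [RR])
      · exact base .T (p * v * p⁻¹) (h ^ 2) (by simp [RR])
    · apply FreeGroup.ext_hom
      intro j
      show MulAut.conj (π (st .H)) (π (iP (fH (of j)))) = π (iP (gH (of j)))
      fin_cases j
      · exact base .H h h (by simp [RR])
      · exact base .H (p ^ 2) p (by simp [RR])
      · exact base .H v (v ^ 2) (by simp [RR])
    · apply FreeGroup.ext_hom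
      intro j
      show MulAut.conj (π (st .N)) (π (iP (fN (of j)))) = π (iP (gN (of j)))
      fin_cases j
      · exact base .N (h ^ 2) h (by simp [RR])
      · exact base .N (p * v ^ 2 * p⁻¹) (p * v * p⁻¹) (by simp [RR])
  have h1 := DFunLike.congr_fun key q
  have h2 : π (st i) * π (iP (f i q)) * (π (st i))⁻¹ = π (iP (g i q)) := h1
  rw [← h2]; group

theorem comm_all (hR : ∀ r ∈ RR, π r = 1) (i : Ltr) : Commute (π xx) (π (st i)) := by
  have base : ∀ i, ⁅xx, st i⁆ ∈ RR → Commute (π xx) (π (st i)) := by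
    intro i hi
    have := hR _ hi
    rw [map_commutatorElement] at this
    exact commutatorElement_eq_one_iff_commute.mp this
  cases i
  · exact base _ (by simp [RR])
  · exact base _ (by simp [RR])
  · exact base _ (by simp [RR])

/-- conjugate by something commuting with the last generator -/
def Cj (w w' : P) : Prop := ∃ s : K, Commute (π xx) s ∧ π (iP w) = s * π (iP w') * s⁻¹

theorem Cj.trans {w w' w'' : P} (h1 : Cj π w w') (h2 : Cj π w' w'') : Cj π w w'' := by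
  obtain ⟨s, hs, h1⟩ := h1
  obtain ⟨s', hs', h2⟩ := h2
  exact ⟨s * s', hs.mul_right hs', by rw [h1, h2]; group⟩

theorem Cj_of (hR : ∀ r ∈ RR, π r = 1) (i : Ltr) (q : FreeGroup (Fin (rk i))) :
    Cj π (f i q) (g i q) := by
  refine ⟨(π (st i))⁻¹, (comm_all π hR i).inv_right, ?_⟩
  have := rel_all π hR i q
  rw [inv_inv, mul_assoc, ← this]; group

theorem Cj_T (hR : ∀ r ∈ RR, π r = 1) (n i j : ℕ) (hi : i + 1 ≤ n) (hj : j + 1 ≤ n) :
    Cj π ((l n (i + 1))⁻¹ * l n (j + 1)) ((l n i)⁻¹ * l n j) := by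
  obtain ⟨q1, a1, a2⟩ := mvT n i hi
  obtain ⟨q2, b1, b2⟩ := mvT n j hj
  have := Cj_of π hR .T (q1⁻¹ * q2 : FreeGroup (Fin 3))
  change Cj π (fT (q1⁻¹ * q2)) (gT (q1⁻¹ * q2)) at this
  rw [map_mul, map_mul, map_inv, map_inv, a1, a2, b1, b2] at this
  exact this

theorem Cj_H (hR : ∀ r ∈ RR, π r = 1) (n j : ℕ) (hj : j + 2 ≤ n) :
    Cj π ((l n 0)⁻¹ * l n (j + 2)) ((l n 0)⁻¹ * l n (j + 1)) := by
  obtain ⟨q1, a1, a2⟩ := mvH0 n
  obtain ⟨q2, b1, b2⟩ := mvH n j hj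
  have := Cj_of π hR .H (q1⁻¹ * q2 : FreeGroup (Fin 3))
  change Cj π (fH (q1⁻¹ * q2)) (gH (q1⁻¹ * q2)) at this
  rw [map_mul, map_mul, map_inv, map_inv, a1, a2, b1, b2] at this
  exact this

theorem Cj_N (hR : ∀ r ∈ RR, π r = 1) (n : ℕ) (hn : 1 ≤ n) :
    Cj π ((l (n + 1) 0)⁻¹ * l (n + 1) 1) ((l n 0)⁻¹ * l n 1) := by
  obtain ⟨q1, a1, a2⟩ := mvN n 0 hn (by omega)
  obtain ⟨q2, b1, b2⟩ := mvN n 1 hn le_rfl
  have := Cj_of π hR .N (q1⁻¹ * q2 : FreeGroup (Fin 2))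
  change Cj π (fN (q1⁻¹ * q2)) (gN (q1⁻¹ * q2)) at this
  rw [map_mul, map_mul, map_inv, map_inv, a1, a2, b1, b2] at this
  exact this

theorem Cj_01 (hR : ∀ r ∈ RR, π r = 1) (n : ℕ) : Cj π ((l (n + 1) 0)⁻¹ * l (n + 1) 1) d0 := by
  induction n with
  | zero => exact ⟨1, Commute.one_right _, by simp [d0]⟩
  | succ n ih => exact (Cj_N π hR (n + 1) (by omega)).trans π ih

theorem Cj_0j (hR : ∀ r ∈ RR, π r = 1) (n j : ℕ) (hj : j + 1 ≤ n) :
    Cj π ((l n 0)⁻¹ * l n (j + 1)) d0 := by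
  induction j with
  | zero =>
    obtain ⟨n, rfl⟩ : ∃ k, n = k + 1 := ⟨n - 1, by omega⟩
    exact Cj_01 π hR n
  | succ j ih => exact (Cj_H π hR n j hj).trans π (ih (by omega))

theorem Cj_ij (hR : ∀ r ∈ RR, π r = 1) (n i : ℕ) : ∀ j, i < j → j ≤ n →
    Cj π ((l n i)⁻¹ * l n j) d0 := by
  induction i with
  | zero =>
    intro j h1 h2
    obtain ⟨j, rfl⟩ : ∃ k, j = k + 1 := ⟨j - 1, by omega⟩
    exact Cj_0j π hR n j h2
  | succ i ih =>
    intro j h1 h2
    obtain ⟨j, rfl⟩ : ∃ k, j = k + 1 := ⟨j - 1, by omega⟩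
    exact (Cj_T π hR n i j (by omega) h2).trans π (ih j (by omega) (by omega))

theorem pair_conj (hR : ∀ r ∈ RR, π r = 1) (n i j : ℕ) (hij : i < j) (hj : j ≤ n) :
    ∃ c : K, (π (iP (l n i)) * π xx * (π (iP (l n i)))⁻¹)⁻¹ *
      (π (iP (l n j)) * π xx * (π (iP (l n j)))⁻¹) = c * π DDD * c⁻¹ := by
  obtain ⟨s, hs, h1⟩ := Cj_ij π hR n i j hij hj
  refine ⟨π (iP (l n i)) * s, ?_⟩
  have h2 : π (iP (l n j)) = π (iP (l n i)) * (s * π (iP d0) * s⁻¹) := by
    rw [← h1, map_mul, map_mul, map_inv, map_inv]; group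
  rw [h2, DDD]
  simp only [map_mul, map_inv]
  have h3 : s⁻¹ * (π xx)⁻¹ * s = (π xx)⁻¹ := by
    have := hs.inv_left.eq
    rw [mul_assoc, this]; group
  have h4 : s⁻¹ * π xx * s = π xx := by
    rw [mul_assoc, hs.eq]; group
  calc (π (iP (l n i)) * π xx * (π (iP (l n i)))⁻¹)⁻¹ *
        (π (iP (l n i)) * (s * π (iP d0) * s⁻¹) * π xx *
          (π (iP (l n i)) * (s * π (iP d0) * s⁻¹))⁻¹)
      = π (iP (l n i)) * s * ((s⁻¹ * (π xx)⁻¹ * s) * (π (iP d0) * (s⁻¹ * π xx * s) *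
          (π (iP d0))⁻¹)) * (π (iP (l n i)) * s)⁻¹ := by group
    _ = _ := by rw [h3, h4]

end

end Pool.Agent.W379.Ds
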