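import Mathlib

set_option autoImplicit false

namespace Pool.Agent.W379.MH

open HNNExtension HNNExtension.NormalWord

section
variable {P : Type} [Group P] {I : Type} {Q : I → Type} [∀ i, Group (Q i)]

/-- domain of a letter -/
def dom (f g : ∀ i, Q i →* P) (a : I × Bool) : Subgroup P :=
  if a.2 then (f a.1).range else (g a.1).range

/-- value of a letter -/
def lt {G : Type} [Group G] (t : I → G) (a : I × Bool) : G :=
  if a.2 then t a.1 else (t a.1)⁻¹

/-- reducedness condition -/
def Red (f g : ∀ i, Q i →* P) (a b : (I × Bool) × P) : Prop :=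
  a.1.1 = b.1.1 → a.2 ∈ dom f g a.1 → a.1.2 = b.1.2

/-- product of a word -/
def wp {G : Type} [Group G] (of : P →* G) (t : I → G) (l : List ((I × Bool) × P)) : G :=
  (l.map (fun a => lt t a.1 * of a.2)).prod

@[simp] theorem wp_nil {G : Type} [Group G] (of : P →* G) (t : I → G) : wp of t [] = 1 := rfl

@[simp] theorem wp_cons {G : Type} [Group G] (of : P →* G) (t : I → G) (a : (I × Bool) × P)
    (l : List ((I × Bool) × P)) : wp of t (a :: l) = lt t a.1 * of a.2 * wp of t l := by
  simp [wp]

@[simp] theorem wp_append {G : Type} [Group G] (of : P →* G) (t : I → G)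
    (l l' : List ((I × Bool) × P)) : wp of t (l ++ l') = wp of t l * wp of t l' := by
  simp [wp]

/-- data of a multiple HNN extension -/
structure Sol (f g : ∀ i, Q i →* P) (G : Type) [Group G] (of : P →* G) (t : I → G) : Prop where
  inj : Function.Injective of
  rel : ∀ i q, t i * of (f i q) = of (g i q) * t i
  brit : ∀ l : List ((I × Bool) × P), l.IsChain (Red f g) → wp of t l ∈ of.range → l = []

end

/-- sign -/
def sg (e : Bool) : ℤˣ := if e then 1 else -1

theorem sg_inj (a b : Bool) (h : sg a = sg b) : a = b := by
  revert h; cases a <;> cases b <;> simp [sg]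

theorem exists_sg (u : ℤˣ) : ∃ e, sg e = u := by
  rcases Int.units_eq_one_or u with rfl | rfl
  · exact ⟨true, rfl⟩
  · exact ⟨false, rfl⟩

section
variable {P : Type} [Group P] {I : Type} {Q : Option I → Type} [∀ i, Group (Q i)]

/-- the new group -/
noncomputable abbrev stepφ (f g : ∀ i, Q i →* P) (hf : ∀ i, Function.Injective (f i))
    (hg : ∀ i, Function.Injective (g i)) (G : Type) [Group G] (of : P →* G)
    (hof : Function.Injective of) :
    (of.comp (f none)).range ≃* (of.comp (g none)).range :=
  (MonoidHom.ofInjective (f := of.comp (f none)) (hof.comp (hf none))).symm.trans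
    (MonoidHom.ofInjective (f := of.comp (g none)) (hof.comp (hg none)))

theorem stepφ_apply (f g : ∀ i, Q i →* P) (hf : ∀ i, Function.Injective (f i))
    (hg : ∀ i, Function.Injective (g i)) (G : Type) [Group G] (of : P →* G)
    (hof : Function.Injective of) (q : Q none) :
    ((stepφ f g hf hg G of hof ⟨of (f none q), ⟨q, rfl⟩⟩ : _) : G) = of (g none q) := by
  have h3 : (MonoidHom.ofInjective (f := of.comp (f none)) (hof.comp (hf none))).symm
      ⟨of (f none q), ⟨q, rfl⟩⟩ = q := by
    rw [MulEquiv.symm_apply_eq]
    rfl
  unfold stepφ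
  rw [MulEquiv.trans_apply, h3]
  rfl

theorem step (f g : ∀ i, Q i →* P) (hf : ∀ i, Function.Injective (f i))
    (hg : ∀ i, Function.Injective (g i)) (G : Type) [Group G] (of : P →* G) (t : I → G)
    (hS : Sol (fun i => f (some i)) (fun i => g (some i)) G of t) :
    ∃ (G' : Type) (_ : Group G') (of' : P →* G') (t' : Option I → G'), Sol f g G' of' t' := by
  classical
  obtain ⟨A', hA'⟩ : ∃ A', A' = (of.comp (f none)).range := ⟨_, rfl⟩
  obtain ⟨B', hB'⟩ : ∃ B', B' = (of.comp (g none)).range := ⟨_, rfl⟩
  obtain ⟨φ, hφ⟩ : ∃ φ : A' ≃* B', ∀ q (h : of (f none q) ∈ A'),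
      (φ ⟨of (f none q), h⟩ : G) = of (g none q) := by
    subst hA'; subst hB'
    exact ⟨stepφ f g hf hg G of hS.inj, fun q _ => stepφ_apply f g hf hg G of hS.inj q⟩
  set ι : G →* HNNExtension G A' B' φ := HNNExtension.of with hι
  set t' : Option I → HNNExtension G A' B' φ := fun o => o.elim HNNExtension.t (fun i => ι (t i)) with ht'
  have hιinj : Function.Injective ι := HNNExtension.of_injective φ
  refine ⟨HNNExtension G A' B' φ, inferInstance, ι.comp of, t', ?_⟩
  have hlt : ∀ i e, lt t' (some i, e) = ι (lt t (i, e)) := by
    intro i e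
    cases e <;> simp [lt, ht']
  have hltn : ∀ e, lt t' (none, e) = HNNExtension.t ^ ((sg e : ℤˣ) : ℤ) := by
    intro e
    cases e <;> simp [lt, ht', sg]
  have hsub : ∀ e, toSubgroup A' B' (sg e) ≤ of.range := by
    intro e x hx
    cases e
    · simp only [sg, Bool.false_eq_true, if_false, toSubgroup_neg_one, hB'] at hx
      obtain ⟨q, rfl⟩ := hx
      exact ⟨_, rfl⟩
    · simp only [sg, if_true, toSubgroup_one, hA'] at hx
      obtain ⟨q, rfl⟩ := hx
      exact ⟨_, rfl⟩
  have hsub2 : ∀ e p, of p ∈ toSubgroup A' B' (sg e) → p ∈ dom f g (none, e) := by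
    intro e p hx
    cases e
    · simp only [sg, Bool.false_eq_true, if_false, toSubgroup_neg_one, hB'] at hx
      obtain ⟨q, hq⟩ := hx
      have := hS.inj hq
      subst this
      simp only [dom, Bool.false_eq_true, if_false]
      exact ⟨q, rfl⟩
    · simp only [sg, if_true, toSubgroup_one, hA'] at hx
      obtain ⟨q, hq⟩ := hx
      have := hS.inj hq
      subst this
      simp only [dom, if_true]
      exact ⟨q, rfl⟩
  refine ⟨hιinj.comp hS.inj, ?_, ?_⟩
  · intro o q
    cases o with
    | none =>
      have h0 : of (f none q) ∈ A' := by rw [hA']; exact ⟨q, rfl⟩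
      have h1 := HNNExtension.t_mul_of (φ := φ) ⟨of (f none q), h0⟩
      have h2 : (φ ⟨of (f none q), h0⟩ : G) = of (g none q) := hφ q h0
      rw [h2] at h1
      exact h1
    | some i =>
      have := hS.rel i q
      show ι (t i) * ι (of (f (some i) q)) = ι (of (g (some i) q)) * ι (t i)
      rw [← map_mul, ← map_mul, this]
  · -- the grouping lemma
    have key : ∀ l : List ((Option I × Bool) × P), l.IsChain (Red f g) →
        ∃ (u : List ((I × Bool) × P)) (r : List (ℤˣ × G)),
          u.IsChain (Red (fun i => f (some i)) (fun i => g (some i))) ∧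
          r.IsChain (fun a b => a.2 ∈ toSubgroup A' B' a.1 → a.1 = b.1) ∧
          wp (ι.comp of) t' l = ι (wp of t u) *
            (r.map (fun x => HNNExtension.t ^ (x.1 : ℤ) * ι x.2)).prod ∧
          (∀ x ∈ u.head?, l.head? = some ((some x.1.1, x.1.2), x.2)) ∧
          (u = [] → ∀ b ∈ r.head?, ∃ e p, sg e = b.1 ∧ l.head? = some ((none, e), p)) ∧
          (l ≠ [] → u ≠ [] ∨ r ≠ []) := by
      intro l
      induction l with
      | nil =>
        intro _
        exact ⟨[], [], List.isChain_nil, List.isChain_nil, by simp, by simp, by simp, by simp⟩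
      | cons a l ih =>
        intro hl
        rw [List.isChain_cons] at hl
        obtain ⟨u, r, h1, h2, h3, h4, h5, h6⟩ := ih hl.2
        obtain ⟨⟨o, e⟩, p⟩ := a
        cases o with
        | some i =>
          refine ⟨((i, e), p) :: u, r, ?_, h2, ?_, ?_, ?_, ?_⟩
          · rw [List.isChain_cons]
            refine ⟨?_, h1⟩
            intro x hx
            have h7 := hl.1 _ (h4 x hx)
            intro h8 h9
            have h8' : i = x.1.1 := h8
            exact h7 (by simp [h8']) h9
          · rw [wp_cons, wp_cons, h3]
            simp only [hlt, map_mul, MonoidHom.comp_apply]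
            group
          · intro x hx
            simp only [List.head?_cons, Option.mem_def, Option.some.injEq] at hx
            subst hx
            simp
          · simp
          · simp
        | none =>
          refine ⟨[], (sg e, of p * wp of t u) :: r, List.isChain_nil, ?_, ?_, by simp, ?_, by simp⟩
          · rw [List.isChain_cons]
            refine ⟨?_, h2⟩
            intro b hb hmem
            have h7 : of p * wp of t u ∈ of.range := hsub e hmem
            have h8 : wp of t u ∈ of.range := by
              have : wp of t u = (of p)⁻¹ * (of p * wp of t u) := by group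
              rw [this]
              exact mul_mem (inv_mem ⟨p, rfl⟩) h7
            have h9 : u = [] := hS.brit u h1 h8
            obtain ⟨e', p', h10, h11⟩ := h5 h9 b hb
            have h12 := hl.1 _ h11
            subst h9
            have h13 : p ∈ dom f g (none, e) := by
              apply hsub2
              simpa using hmem
            have h14 : e = e' := h12 rfl h13
            rw [h14, h10]
          · rw [wp_cons, h3]
            simp only [hltn, wp_nil, map_one, one_mul, List.map_cons, List.prod_cons, map_mul,
              MonoidHom.comp_apply]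
            group
          · intro _ b hb
            simp only [List.head?_cons, Option.mem_def, Option.some.injEq] at hb
            subst hb
            exact ⟨e, p, rfl, rfl⟩
    intro l hl hmem
    by_contra hne
    obtain ⟨u, r, h1, h2, h3, -, -, h6⟩ := key l hl
    let w : ReducedWord G A' B' := ⟨wp of t u, r, h2⟩
    have hw : w.prod φ = wp (ι.comp of) t' l := by
      rw [h3]; rfl
    have h7 : w.toList = [] := by
      apply ReducedWord.toList_eq_nil_of_mem_of_range φ w
      rw [hw]
      obtain ⟨p, hp⟩ := hmem
      exact ⟨of p, hp⟩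
    have h8 : r = [] := h7
    subst h8
    rcases h6 hne with h9 | h9
    · apply h9
      apply hS.brit u h1
      obtain ⟨p, hp⟩ := hmem
      refine ⟨p, hιinj ?_⟩
      rw [h3] at hp
      simpa using hp
    · exact h9 rfl

end

theorem exists_sol {P : Type} [Group P] (I : Type) [Finite I] :
    ∀ (Q : I → Type) (_ : ∀ i, Group (Q i)) (f g : ∀ i, Q i →* P)
      (_ : ∀ i, Function.Injective (f i)) (_ : ∀ i, Function.Injective (g i)),
      ∃ (G : Type) (_ : Group G) (of : P →* G) (t : I → G), Sol f g G of t := by
  classical
  induction I using Finite.induction_empty_option with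
  | of_equiv e ih =>
    rename_i α β
    intro Q _ f g hf hg
    obtain ⟨G, hG, of, t, hS⟩ := ih (fun i => Q (e i)) (fun i => inferInstance)
      (fun i => f (e i)) (fun i => g (e i)) (fun i => hf _) (fun i => hg _)
    refine ⟨G, hG, of, fun j => t (e.symm j), hS.inj, ?_, ?_⟩
    · intro j q
      obtain ⟨i, rfl⟩ := e.surjective j
      have := hS.rel i q
      simpa using this
    · intro l hl hmem
      have h1 := hS.brit (l.map (fun a => ((e.symm a.1.1, a.1.2), a.2))) (by
        rw [List.isChain_map]
        refine hl.imp ?_
        rintro ⟨⟨a, ea⟩, pa⟩ ⟨⟨b, eb⟩, pb⟩ hab h2 h3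
        apply hab (e.symm.injective h2)
        simp only [dom] at h3 ⊢
        obtain ⟨a, rfl⟩ := e.surjective a
        have h4 : e.symm (e a) = a := e.symm_apply_apply a
        generalize e.symm (e a) = c at h3 h4
        subst h4
        exact h3) (by
        have : wp of t (l.map (fun a => ((e.symm a.1.1, a.1.2), a.2))) =
            wp of (fun j => t (e.symm j)) l := by
          simp only [wp, List.map_map]
          rfl
        rw [this]; exact hmem)
      simpa using h1
  | h_empty =>
    intro Q _ f g hf hg
    refine ⟨P, inferInstance, MonoidHom.id P, fun i => i.elim, Function.injective_id, ?_, ?_⟩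
    · intro i; exact i.elim
    · intro l _ _
      cases l with
      | nil => rfl
      | cons a l => exact a.1.1.elim
  | h_option ih =>
    rename_i α
    intro Q _ f g hf hg
    obtain ⟨G, hG, of, t, hS⟩ := ih (fun i => Q (some i)) (fun i => inferInstance)
      (fun i => f (some i)) (fun i => g (some i)) (fun i => hf _) (fun i => hg _)
    exact step f g hf hg G of t hS

end Pool.Agent.W379.MH
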