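import Pool.Agent.W379.WL

set_option autoImplicit false

namespace Pool.Agent.W379

theorem WL.pow {V G : Type} [Group G] {γ : V → G} {r : ℕ} {g : G} (hg : WL γ r g) (m : ℕ) :
    WL γ (m * r) (g ^ m) := by
  induction m with
  | zero => simpa using WL.one 0
  | succ m ih =>
    rw [pow_succ, add_mul, one_mul]
    exact ih.mul hg

theorem WL.list_prod {V G : Type} [Group G] {γ : V → G} {r : ℕ} (l : List G)
    (h : ∀ g ∈ l, WL γ r g) : WL γ (l.length * r) l.prod := by
  induction l with
  | nil => simpa using WL.one 0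
  | cons a l ih =>
    rw [List.prod_cons, List.length_cons, add_mul, one_mul, add_comm]
    exact (h a (by simp)).mul (ih (fun g hg => h g (by simp [hg])))

/-- boxes in a free abelian subgroup -/
theorem box_WL {V G : Type} [Group G] {γ : V → G} (N : ℕ)
    (h : (Fin N → Multiplicative ℤ) →* G) (w : ℕ)
    (hw : ∀ i, WL γ w (h (Pi.mulSingle i (Multiplicative.ofAdd 1)))) (m : ℕ) (e : Fin N → ℕ)
    (he : ∀ i, e i ≤ m) : WL γ (N * (m * w)) (h (fun i => Multiplicative.ofAdd (e i : ℤ))) := by
  classical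
  have h1 : (fun i => Multiplicative.ofAdd (e i : ℤ)) =
      ((List.finRange N).map (fun i => (Pi.mulSingle i (Multiplicative.ofAdd (1 : ℤ)) :
        Fin N → Multiplicative ℤ) ^ (e i))).prod := by
    funext j
    show _ = Pi.evalMonoidHom (fun _ : Fin N => Multiplicative ℤ) j (List.prod _)
    rw [map_list_prod, List.map_map]
    have : ∀ i, ((Pi.evalMonoidHom (fun _ : Fin N => Multiplicative ℤ) j) ∘
        (fun i => (Pi.mulSingle i (Multiplicative.ofAdd (1 : ℤ)) : Fin N → Multiplicative ℤ) ^ (e i))) i =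
        if i = j then Multiplicative.ofAdd (e i : ℤ) else 1 := by
      intro i
      simp only [Function.comp_apply, map_pow, Pi.evalMonoidHom_apply]
      by_cases hij : i = j
      · subst hij
        rw [Pi.mulSingle_eq_same, if_pos rfl, ← ofAdd_nsmul]; simp
      · rw [Pi.mulSingle_eq_of_ne (fun h => hij h.symm), if_neg hij, one_pow]
    rw [funext this]
    have : ∀ l : List (Fin N), l.Nodup → ((l.map (fun i => if i = j then
        Multiplicative.ofAdd (e i : ℤ) else 1)).prod =
        if j ∈ l then Multiplicative.ofAdd (e j : ℤ) else 1) := by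
      intro l
      induction l with
      | nil => simp
      | cons a l ih =>
        intro hnd
        rw [List.nodup_cons] at hnd
        rw [List.map_cons, List.prod_cons, ih hnd.2]
        by_cases ha : a = j
        · subst ha
          simp [hnd.1]
        · simp [ha, Ne.symm ha]
    rw [this _ (List.nodup_finRange N), if_pos (List.mem_finRange j)]
  rw [h1, map_list_prod, List.map_map]
  have h2 := WL.list_prod (γ := γ) (r := m * w) ((List.finRange N).map (h ∘ (fun i =>
    (Pi.mulSingle i (Multiplicative.ofAdd (1 : ℤ)) : Fin N → Multiplicative ℤ) ^ (e i)))) (by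
      intro g hg
      rw [List.mem_map] at hg
      obtain ⟨i, -, rfl⟩ := hg
      rw [Function.comp_apply, map_pow]
      exact ((hw i).pow (e i)).mono (Nat.mul_le_mul_right _ (he i)))
  rw [List.length_map, List.length_finRange] at h2
  exact h2

theorem sum_conv {G : Type} [Group G] [DecidableEq G] (S : Finset G) :
    ∑ x ∈ (S ×ˢ S).image (fun p => p.1 * p.2), (S.filter (fun y => y⁻¹ * x ∈ S)).card =
      S.card * S.card := by
  have h1 : ∀ x, (S.filter (fun y => y⁻¹ * x ∈ S)).card =
      ((S ×ˢ S).filter (fun p => p.1 * p.2 = x)).card := by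
    intro x
    apply Finset.card_bij' (fun y _ => (y, y⁻¹ * x)) (fun p _ => p.1)
    · intro y hy
      rw [Finset.mem_filter] at hy
      simp [hy.1, hy.2]
    · intro p hp
      rw [Finset.mem_filter, Finset.mem_product] at hp
      rw [Finset.mem_filter]
      refine ⟨hp.1.1, ?_⟩
      rw [← hp.2]; simpa using hp.1.2
    · intro y _; rfl
    · intro p hp
      rw [Finset.mem_filter] at hp
      ext
      · rfl
      · simp [← hp.2]
  simp_rw [h1]
  rw [← Finset.card_eq_sum_card_fiberwise (s := S ×ˢ S) (t := (S ×ˢ S).image (fun p => p.1 * p.2))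
    (f := fun p => p.1 * p.2)]
  · rw [Finset.card_product]
  · intro p hp
    exact Finset.mem_coe.mpr (Finset.mem_image_of_mem _ (Finset.mem_coe.mp hp))

theorem rd_fails {ι G : Type} [Group G] (γ : ι → G)
    (hgen : Subgroup.closure (Set.range γ) = ⊤)
    (hZ : ∀ N : ℕ, ∃ h : (Fin N → Multiplicative ℤ) →* G, Function.Injective h) :
    ¬ ∃ C k : ℕ, ∀ r : ℕ, ∀ f g : G →₀ ℂ, (∀ y ∈ f.support, WL γ r y) →
      ∑' x : G, ‖∑ y ∈ f.support, f y * g (y⁻¹ * x)‖ ^ 2
        ≤ (C : ℝ) * ((1 : ℝ) + (r : ℝ)) ^ k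
            * (∑ y ∈ f.support, ‖f y‖ ^ 2) * (∑ y ∈ g.support, ‖g y‖ ^ 2) := by
  classical
  rintro ⟨C, k, hC⟩
  obtain ⟨h, hh⟩ := hZ (k + 1)
  obtain ⟨w, hw⟩ : ∃ w, ∀ i, WL γ w (h (Pi.mulSingle i (Multiplicative.ofAdd 1))) := by
    have : ∀ i, ∃ w, WL γ w (h (Pi.mulSingle i (Multiplicative.ofAdd (1 : ℤ)))) := fun i =>
      WL.exists_of_closure (by rw [hgen]; trivial)
    choose w hw using this
    exact ⟨Finset.univ.sup w, fun i => (hw i).mono (Finset.le_sup (Finset.mem_univ i))⟩
  -- the key inequality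
  have key : ∀ m : ℕ, 1 ≤ m → (m : ℝ) ^ (k + 1) ≤
      (2 : ℝ) ^ (k + 1) * ((C : ℝ) * (1 + (((k + 1) * (m * w) : ℕ) : ℝ)) ^ k) := by
    intro m hm
    let ev : (Fin (k + 1) → ℕ) → G := fun e => h (fun i => Multiplicative.ofAdd (e i : ℤ))
    have hev : Function.Injective ev := by
      intro e e' hee
      have := hh hee
      funext i
      have h2 := congrFun this i
      simpa using h2
    have hevmul : ∀ e e', ev e * ev e' = ev (e + e') := by
      intro e e'
      simp only [ev]
      rw [← map_mul]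
      congr 1
    let box : ℕ → Finset (Fin (k + 1) → ℕ) := fun m => Fintype.piFinset (fun _ => Finset.range m)
    have hbox : ∀ m, (box m).card = m ^ (k + 1) := by
      intro m
      simp [box, Fintype.card_piFinset]
    set S : Finset G := (box m).image ev with hS
    have hScard : S.card = m ^ (k + 1) := by
      rw [hS, Finset.card_image_of_injective _ hev, hbox]
    set T2 : Finset G := (S ×ˢ S).image (fun p => p.1 * p.2) with hT2
    have hT2card : T2.card ≤ (2 * m) ^ (k + 1) := by
      rw [← hbox (2 * m), ← Finset.card_image_of_injective (box (2 * m)) hev]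
      apply Finset.card_le_card
      intro x hx
      rw [hT2, Finset.mem_image] at hx
      obtain ⟨⟨a, b⟩, hab, rfl⟩ := hx
      rw [Finset.mem_product, hS, Finset.mem_image, Finset.mem_image] at hab
      obtain ⟨⟨e, he, hea⟩, ⟨e', he', heb⟩⟩ := hab
      dsimp only at hea heb ⊢
      rw [← hea, ← heb, hevmul]
      apply Finset.mem_image_of_mem
      simp only [box, Fintype.mem_piFinset, Finset.mem_range] at he he' ⊢
      intro i
      have := he i
      have := he' i
      rw [Pi.add_apply]; omega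
    let f : G →₀ ℂ := Finsupp.indicator S (fun _ _ => (1 : ℂ))
    have hfa : ∀ x, f x = if x ∈ S then 1 else 0 := by
      intro x
      simp [f, Finsupp.indicator_apply]
    have hfs : f.support = S := by
      ext x
      rw [Finsupp.mem_support_iff, hfa]
      by_cases hx : x ∈ S <;> simp [hx]
    have h1 := hC ((k + 1) * (m * w)) f f (by
      intro y hy
      rw [hfs, hS, Finset.mem_image] at hy
      obtain ⟨e, he, rfl⟩ := hy
      apply box_WL _ _ _ hw
      intro i
      simp only [box, Fintype.mem_piFinset, Finset.mem_range] at he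
      exact (he i).le)
    rw [hfs] at h1
    have h2 : ∀ x, ‖∑ y ∈ S, f y * f (y⁻¹ * x)‖ ^ 2 =
        (((S.filter (fun y => y⁻¹ * x ∈ S)).card : ℕ) : ℝ) ^ 2 := by
      intro x
      have : ∑ y ∈ S, f y * f (y⁻¹ * x) = (((S.filter (fun y => y⁻¹ * x ∈ S)).card : ℕ) : ℂ) := by
        rw [Finset.card_filter]
        push_cast
        apply Finset.sum_congr rfl
        intro y hy
        rw [hfa, hfa, if_pos hy, one_mul]
      rw [this]
      simp
    have h3 : ∑ y ∈ S, ‖f y‖ ^ 2 = (S.card : ℝ) := by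
      rw [Finset.sum_congr rfl (g := fun _ => (1 : ℝ))]
      · simp
      · intro y hy; rw [hfa, if_pos hy]; simp
    simp_rw [h2] at h1
    rw [h3] at h1
    have h4 : ∑' x : G, (((S.filter (fun y => y⁻¹ * x ∈ S)).card : ℕ) : ℝ) ^ 2 =
        ∑ x ∈ T2, (((S.filter (fun y => y⁻¹ * x ∈ S)).card : ℕ) : ℝ) ^ 2 := by
      apply tsum_eq_sum
      intro x hx
      have : S.filter (fun y => y⁻¹ * x ∈ S) = ∅ := by
        rw [Finset.filter_eq_empty_iff]
        intro y hy hyx
        apply hx
        rw [hT2, Finset.mem_image]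
        exact ⟨(y, y⁻¹ * x), by simp [hy, hyx], by simp⟩
      rw [this]; simp
    rw [h4] at h1
    have h5 : (∑ x ∈ T2, (((S.filter (fun y => y⁻¹ * x ∈ S)).card : ℕ) : ℝ)) ^ 2 ≤
        (T2.card : ℝ) * ∑ x ∈ T2, (((S.filter (fun y => y⁻¹ * x ∈ S)).card : ℕ) : ℝ) ^ 2 :=
      sq_sum_le_card_mul_sum_sq
    have h6 : ∑ x ∈ T2, (((S.filter (fun y => y⁻¹ * x ∈ S)).card : ℕ) : ℝ) =
        (S.card : ℝ) * S.card := by
      have := sum_conv S
      rw [← hT2] at this
      exact_mod_cast this
    rw [h6] at h5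
    have hM : (0 : ℝ) < (m : ℝ) ^ (k + 1) := by positivity
    have hSr : (S.card : ℝ) = (m : ℝ) ^ (k + 1) := by rw [hScard]; push_cast; rfl
    have hTr : (T2.card : ℝ) ≤ 2 ^ (k + 1) * (m : ℝ) ^ (k + 1) := by
      have : (T2.card : ℝ) ≤ ((2 * m) ^ (k + 1) : ℕ) := by exact_mod_cast hT2card
      refine this.trans (le_of_eq ?_)
      push_cast
      rw [mul_pow]
    rw [hSr] at h5 h1
    set M : ℝ := (m : ℝ) ^ (k + 1) with hMdef
    set E : ℝ := ∑ x ∈ T2, (((S.filter (fun y => y⁻¹ * x ∈ S)).card : ℕ) : ℝ) ^ 2 with hE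
    set Q : ℝ := (C : ℝ) * (1 + (((k + 1) * (m * w) : ℕ) : ℝ)) ^ k with hQ
    have hE0 : 0 ≤ E := Finset.sum_nonneg (fun _ _ => by positivity)
    have h7 : (M * M) ^ 2 ≤ (2 ^ (k + 1) * M) * (Q * M * M) := by
      refine h5.trans ?_
      exact mul_le_mul hTr h1 hE0 (by positivity)
    have h8 : M * (M * M * M) ≤ (2 ^ (k + 1) * Q) * (M * M * M) := by
      calc M * (M * M * M) = (M * M) ^ 2 := by ring
        _ ≤ _ := h7
        _ = _ := by ring
    exact le_of_mul_le_mul_right h8 (by positivity)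
  -- contradiction
  set K : ℕ := 2 ^ (k + 1) * (C * (1 + (k + 1) * w) ^ k) with hK
  have h9 := key (K + 1) (by omega)
  have h10 : ((K + 1 : ℕ) : ℝ) ^ (k + 1) ≤ (K : ℝ) * ((K + 1 : ℕ) : ℝ) ^ k := by
    refine h9.trans ?_
    have h11 : (1 : ℝ) + (((k + 1) * ((K + 1) * w) : ℕ) : ℝ) ≤
        (1 + (k + 1) * w) * ((K + 1 : ℕ) : ℝ) := by
      push_cast
      have : (0 : ℝ) ≤ K := by positivity
      nlinarith
    calc (2 : ℝ) ^ (k + 1) * ((C : ℝ) * (1 + (((k + 1) * ((K + 1) * w) : ℕ) : ℝ)) ^ k)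
        ≤ (2 : ℝ) ^ (k + 1) * ((C : ℝ) * ((1 + (k + 1) * w) * ((K + 1 : ℕ) : ℝ)) ^ k) := by
          gcongr
      _ = (K : ℝ) * ((K + 1 : ℕ) : ℝ) ^ k := by
          rw [hK, mul_pow]; push_cast; ring
  have h12 : ((K + 1 : ℕ) : ℝ) ≤ (K : ℝ) := by
    rw [pow_succ, mul_comm] at h10
    exact le_of_mul_le_mul_right h10 (by positivity)
  push_cast at h12
  linarith

end Pool.Agent.W379
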