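import Pool.Agent.W379.NF2

set_option autoImplicit false

namespace Pool.Agent.W379

open scoped commutatorElement

/-- defining relations of the right-angled Artin group. -/
def raagRels {V : Type} (Γ : SimpleGraph V) : Set (FreeGroup V) :=
  {r | ∃ a b, Γ.Adj a b ∧ r = ⁅FreeGroup.of a, FreeGroup.of b⁆}

/-- the right-angled Artin group of a graph -/
abbrev RAAG {V : Type} (Γ : SimpleGraph V) : Type := PresentedGroup (raagRels Γ)

namespace RAAG

variable {V : Type} {Γ : SimpleGraph V}

/-- generators -/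
def gen (Γ : SimpleGraph V) (v : V) : RAAG Γ := PresentedGroup.of v

theorem gen_comm {a b : V} (h : Γ.Adj a b) : Commute (gen Γ a) (gen Γ b) := by
  have h1 : (PresentedGroup.mk (raagRels Γ)) ⁅FreeGroup.of a, FreeGroup.of b⁆ = 1 :=
    PresentedGroup.one_of_mem ⟨a, b, h, rfl⟩
  rw [map_commutatorElement, commutatorElement_eq_one_iff_commute] at h1
  exact h1

/-- universal property -/
def lift {G : Type} [Group G] (f : V → G) (h : ∀ a b, Γ.Adj a b → Commute (f a) (f b)) :
    RAAG Γ →* G :=
  PresentedGroup.toGroup (f := f) (by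
    rintro r ⟨a, b, hab, rfl⟩
    rw [map_commutatorElement, commutatorElement_eq_one_iff_commute]
    simpa using h a b hab)

@[simp] theorem lift_gen {G : Type} [Group G] (f : V → G)
    (h : ∀ a b, Γ.Adj a b → Commute (f a) (f b)) (v : V) : lift f h (gen Γ v) = f v :=
  PresentedGroup.toGroup.of _

theorem hom_ext {G : Type} [Group G] {f g : RAAG Γ →* G}
    (h : ∀ v, f (gen Γ v) = g (gen Γ v)) : f = g :=
  PresentedGroup.ext h

theorem closure_gen : Subgroup.closure (Set.range (gen Γ)) = ⊤ :=
  PresentedGroup.closure_range_of _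

/-- inclusion of the subgraph group -/
def incl (Γ : SimpleGraph V) (S : Set V) : RAAG (Γ.induce S) →* RAAG Γ :=
  lift (fun v => gen Γ v.1) (fun _ _ h => gen_comm h)

@[simp] theorem incl_gen (S : Set V) (v : S) : incl Γ S (gen _ v) = gen Γ v.1 := lift_gen _ _ _

open Classical in
/-- retraction -/
noncomputable def retr (Γ : SimpleGraph V) (S : Set V) : RAAG Γ →* RAAG (Γ.induce S) :=
  lift (fun v => if h : v ∈ S then gen _ (⟨v, h⟩ : S) else 1) (by
    intro a b hab
    split_ifs with ha hb
    · exact gen_comm (by simpa using hab)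
    · exact Commute.one_right _
    · exact Commute.one_left _
    · exact Commute.one_left _)

theorem retr_gen_mem (S : Set V) {v : V} (h : v ∈ S) : retr Γ S (gen Γ v) = gen _ (⟨v, h⟩ : S) := by
  unfold retr; rw [lift_gen, dif_pos h]

theorem retr_gen_not_mem (S : Set V) {v : V} (h : v ∉ S) : retr Γ S (gen Γ v) = 1 := by
  unfold retr; rw [lift_gen, dif_neg h]

@[simp] theorem retr_incl (S : Set V) (x : RAAG (Γ.induce S)) : retr Γ S (incl Γ S x) = x := by
  have : (retr Γ S).comp (incl Γ S) = MonoidHom.id _ := by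
    apply hom_ext
    intro v
    simp [retr_gen_mem S v.2]
  exact DFunLike.congr_fun this x

theorem incl_injective (S : Set V) : Function.Injective (incl Γ S) :=
  Function.LeftInverse.injective (retr_incl S)

/-- idempotent endomorphism onto the special subgroup -/
noncomputable def rho (Γ : SimpleGraph V) (S : Set V) : RAAG Γ →* RAAG Γ :=
  (incl Γ S).comp (retr Γ S)

theorem rho_gen_mem (S : Set V) {v : V} (h : v ∈ S) : rho Γ S (gen Γ v) = gen Γ v := by
  simp [rho, retr_gen_mem S h]

theorem rho_gen_not_mem (S : Set V) {v : V} (h : v ∉ S) : rho Γ S (gen Γ v) = 1 := by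
  simp [rho, retr_gen_not_mem S h]

/-- special subgroup -/
noncomputable def sp (Γ : SimpleGraph V) (S : Set V) : Subgroup (RAAG Γ) := (rho Γ S).range

theorem mem_sp_iff (S : Set V) (x : RAAG Γ) : x ∈ sp Γ S ↔ rho Γ S x = x := by
  constructor
  · rintro ⟨y, rfl⟩
    simp [rho]
  · intro h; exact ⟨x, h⟩

theorem sp_eq_closure (S : Set V) : sp Γ S = Subgroup.closure (gen Γ '' S) := by
  apply le_antisymm
  · rintro _ ⟨x, rfl⟩
    have hx : x ∈ Subgroup.closure (Set.range (gen Γ)) := by rw [closure_gen]; trivial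
    induction hx using Subgroup.closure_induction with
    | mem x hx =>
      obtain ⟨v, rfl⟩ := hx
      by_cases h : v ∈ S
      · rw [rho_gen_mem S h]; exact Subgroup.subset_closure ⟨v, h, rfl⟩
      · rw [rho_gen_not_mem S h]; exact one_mem _
    | one => simp
    | mul x y _ _ hx hy => rw [map_mul]; exact mul_mem hx hy
    | inv x _ hx => rw [map_inv]; exact inv_mem hx
  · rw [Subgroup.closure_le]
    rintro _ ⟨v, hv, rfl⟩
    exact ⟨gen Γ v, rho_gen_mem S hv⟩

theorem sp_mono {S T : Set V} (h : S ⊆ T) : sp Γ S ≤ sp Γ T := by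
  rw [sp_eq_closure, sp_eq_closure]
  exact Subgroup.closure_mono (Set.image_mono h)

theorem gen_mem_sp {S : Set V} {v : V} (h : v ∈ S) : gen Γ v ∈ sp Γ S := by
  rw [sp_eq_closure]; exact Subgroup.subset_closure ⟨v, h, rfl⟩

theorem sp_eq_range (S : Set V) : sp Γ S = (incl Γ S).range := by
  apply le_antisymm
  · rintro _ ⟨x, rfl⟩; exact ⟨retr Γ S x, rfl⟩
  · rintro _ ⟨x, rfl⟩; exact ⟨incl Γ S x, by simp [rho]⟩

theorem rho_comp (S T : Set V) (x : RAAG Γ) : rho Γ S (rho Γ T x) = rho Γ (S ∩ T) x := by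
  have : (rho Γ S).comp (rho Γ T) = rho Γ (S ∩ T) := by
    apply hom_ext
    intro v
    by_cases hT : v ∈ T
    · by_cases hS : v ∈ S
      · simp [rho_gen_mem T hT, rho_gen_mem S hS, rho_gen_mem (S ∩ T) (v := v) ⟨hS, hT⟩]
      · simp [rho_gen_mem T hT, rho_gen_not_mem S hS,
          rho_gen_not_mem (S ∩ T) (v := v) (fun h => hS h.1)]
    · simp [rho_gen_not_mem T hT, rho_gen_not_mem (S ∩ T) (v := v) (fun h => hT h.2)]
  exact DFunLike.congr_fun this x

theorem exists_finset (x : RAAG Γ) : ∃ S : Finset V, x ∈ sp Γ (S : Set V) := by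
  classical
  have hx : x ∈ Subgroup.closure (Set.range (gen Γ)) := by rw [closure_gen]; trivial
  induction hx using Subgroup.closure_induction with
  | mem x hx =>
    obtain ⟨v, rfl⟩ := hx
    exact ⟨{v}, gen_mem_sp (by simp)⟩
  | one => exact ⟨∅, one_mem _⟩
  | mul x y _ _ hx hy =>
    obtain ⟨S, hS⟩ := hx
    obtain ⟨T, hT⟩ := hy
    exact ⟨S ∪ T, mul_mem (sp_mono (by simp) hS) (sp_mono (by simp) hT)⟩
  | inv x _ hx =>
    obtain ⟨S, hS⟩ := hx
    exact ⟨S, inv_mem hS⟩

/-! ### Decomposition at a vertex -/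

variable (Γ) (v : V)

/-- the group of the graph without `v` -/
abbrev Ad : Type := RAAG (Γ.induce ({v}ᶜ : Set V))

variable {v} in
/-- vertex of the smaller graph -/
def mkc {w : V} (h : w ≠ v) : ({v}ᶜ : Set V) := ⟨w, h⟩

/-- neighbours of `v` -/
def nb : Set (({v}ᶜ : Set V)) := {w | Γ.Adj v w.1}

/-- the subgroup generated by the link -/
noncomputable abbrev Ck : Subgroup (Ad Γ v) := sp (Γ.induce ({v}ᶜ : Set V)) (nb Γ v)

/-- the basis of the free kernel -/
abbrev Xk : Type := Ad Γ v ⧸ Ck Γ v

open Classical in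
/-- the decomposition -/
noncomputable def psi : RAAG Γ →* Aff (Xk Γ v) (Ad Γ v) :=
  lift (fun w => if h : w = v then SemidirectProduct.inl (FreeGroup.of (QuotientGroup.mk 1))
    else SemidirectProduct.inr (gen _ (mkc h))) (by
    have key : ∀ w, (hw : w ≠ v) → Γ.Adj v w →
        Commute (SemidirectProduct.inl (FreeGroup.of (QuotientGroup.mk 1)) :
          Aff (Xk Γ v) (Ad Γ v))
          (SemidirectProduct.inr (gen _ (mkc hw))) := by
      intro w hw hadj
      show _ * _ = _ * _
      ext
      · simp only [SemidirectProduct.mul_left, SemidirectProduct.left_inl,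
          SemidirectProduct.left_inr, SemidirectProduct.right_inl, SemidirectProduct.right_inr,
          map_one, mul_one, one_mul, fgAct_of]
        congr 1
        have : gen _ (mkc hw) ∈ Ck Γ v := gen_mem_sp (by exact hadj)
        rw [MulAction.Quotient.smul_mk, smul_eq_mul, mul_one]
        exact (QuotientGroup.eq.mpr (by simpa using this))
      · simp
    intro a b hab
    split_ifs with ha hb hb
    · subst ha hb; exact absurd hab (Γ.loopless.irrefl _)
    · subst ha; exact key b hb hab
    · subst hb; exact (key a ha hab.symm).symm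
    · exact Commute.map (gen_comm (by simpa [mkc] using hab)) _)

theorem psi_gen_self : psi Γ v (gen Γ v) = SemidirectProduct.inl (FreeGroup.of (QuotientGroup.mk 1)) := by
  unfold psi; rw [lift_gen, dif_pos rfl]

theorem psi_gen_ne {w : V} (h : w ≠ v) :
    psi Γ v (gen Γ w) = SemidirectProduct.inr (gen _ (mkc h)) := by
  unfold psi; rw [lift_gen, dif_neg h]

theorem commute_incl_Ck (c : Ad Γ v) (hc : c ∈ Ck Γ v) :
    Commute (incl Γ _ c) (gen Γ v) := by
  change c ∈ sp (Γ.induce ({v}ᶜ : Set V)) (nb Γ v) at hc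
  rw [sp_eq_closure] at hc
  induction hc using Subgroup.closure_induction with
  | mem x hx =>
    obtain ⟨w, hw, rfl⟩ := hx
    rw [incl_gen]
    exact gen_comm (SimpleGraph.Adj.symm hw)
  | one => rw [map_one]; exact Commute.one_left _
  | mul x y _ _ hx hy => rw [map_mul]; exact Commute.mul_left hx hy
  | inv x _ hx => rw [map_inv]; exact hx.inv_left

/-- conjugates of `v` -/
noncomputable def vconj : Xk Γ v → RAAG Γ :=
  Quotient.lift (fun a : Ad Γ v => incl Γ _ a * gen Γ v * (incl Γ _ a)⁻¹) (by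
    intro a b hab
    have h1 : a⁻¹ * b ∈ Ck Γ v := QuotientGroup.leftRel_apply.mp hab
    have h2 := commute_incl_Ck Γ v _ h1
    have h3 : b = a * (a⁻¹ * b) := by group
    show _ = _
    conv_rhs => rw [h3]
    rw [map_mul, mul_inv_rev]
    have : incl Γ _ a * incl Γ _ (a⁻¹ * b) * gen Γ v * ((incl Γ _ (a⁻¹ * b))⁻¹ * (incl Γ _ a)⁻¹) =
      incl Γ _ a * (incl Γ _ (a⁻¹ * b) * gen Γ v * (incl Γ _ (a⁻¹ * b))⁻¹) * (incl Γ _ a)⁻¹ := by
      simp only [mul_assoc]
    rw [this, h2.eq]
    group)

theorem vconj_mk (a : Ad Γ v) :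
    vconj Γ v (QuotientGroup.mk a) = incl Γ _ a * gen Γ v * (incl Γ _ a)⁻¹ := rfl

/-- the inverse of the decomposition -/
noncomputable def psiInv : Aff (Xk Γ v) (Ad Γ v) →* RAAG Γ :=
  SemidirectProduct.lift (FreeGroup.lift (vconj Γ v)) (incl Γ _) (by
    intro a
    apply FreeGroup.ext_hom
    intro x
    obtain ⟨b, rfl⟩ := QuotientGroup.mk_surjective x
    simp only [MonoidHom.coe_comp, MulEquiv.coe_toMonoidHom, Function.comp_apply, fgAct_of,
      FreeGroup.lift_apply_of, MulAut.conj_apply]
    rw [MulAction.Quotient.smul_mk, vconj_mk, vconj_mk, smul_eq_mul, map_mul]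
    group)

@[simp] theorem psiInv_psi (x : RAAG Γ) : psiInv Γ v (psi Γ v x) = x := by
  have : (psiInv Γ v).comp (psi Γ v) = MonoidHom.id _ := by
    apply hom_ext
    intro w
    by_cases h : w = v
    · subst h
      rw [MonoidHom.comp_apply, psi_gen_self, psiInv, SemidirectProduct.lift_inl,
        FreeGroup.lift_apply_of, vconj_mk]
      simp
    · rw [MonoidHom.comp_apply, psi_gen_ne Γ v h, psiInv, SemidirectProduct.lift_inr, incl_gen]
      rfl
  exact DFunLike.congr_fun this x

theorem psi_injective : Function.Injective (psi Γ v) :=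
  Function.LeftInverse.injective (psiInv_psi Γ v)

@[simp] theorem psiInv_inr (a : Ad Γ v) : psiInv Γ v (SemidirectProduct.inr a) = incl Γ _ a := by
  simp [psiInv]

theorem psi_right (x : RAAG Γ) : (psi Γ v x).right = retr Γ ({v}ᶜ : Set V) x := by
  have : (SemidirectProduct.rightHom).comp (psi Γ v) = retr Γ ({v}ᶜ : Set V) := by
    apply hom_ext
    intro w
    by_cases h : w = v
    · subst h
      rw [MonoidHom.comp_apply, psi_gen_self, retr_gen_not_mem _ (by simp)]
      simp
    · rw [MonoidHom.comp_apply, psi_gen_ne Γ v h, retr_gen_mem _ (by simpa using h)]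
      simp [mkc]
  exact DFunLike.congr_fun this x

end RAAG

end Pool.Agent.W379
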