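import Mathlib

set_option autoImplicit false

namespace Pool.Agent.W379

/-- `g` is a product of at most `r` letters. -/
def WL {V G : Type} [Group G] (γ : V → G) (r : ℕ) (g : G) : Prop :=
  ∃ l : List (V × Bool), l.length ≤ r ∧ FreeGroup.lift γ (FreeGroup.mk l) = g

section
variable {V G : Type} [Group G] {γ : V → G}

theorem WL.mono {r s : ℕ} {g : G} (h : r ≤ s) (hg : WL γ r g) : WL γ s g := by
  obtain ⟨l, h1, h2⟩ := hg
  exact ⟨l, h1.trans h, h2⟩

theorem WL.one (r : ℕ) : WL γ r 1 := ⟨[], by simp, by simp [← FreeGroup.one_eq_mk]⟩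

theorem WL.mul {r s : ℕ} {g h : G} (hg : WL γ r g) (hh : WL γ s h) : WL γ (r + s) (g * h) := by
  obtain ⟨l, h1, rfl⟩ := hg
  obtain ⟨l', h1', rfl⟩ := hh
  refine ⟨l ++ l', by simp; omega, ?_⟩
  rw [← FreeGroup.mul_mk, map_mul]

theorem WL.inv {r : ℕ} {g : G} (hg : WL γ r g) : WL γ r g⁻¹ := by
  obtain ⟨l, h1, rfl⟩ := hg
  refine ⟨FreeGroup.invRev l, by simpa using h1, ?_⟩
  rw [← FreeGroup.inv_mk, map_inv]

theorem WL.gen (v : V) : WL γ 1 (γ v) := ⟨[(v, true)], by simp, by simp⟩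

theorem WL.exists_of_closure {g : G} (hg : g ∈ Subgroup.closure (Set.range γ)) :
    ∃ r, WL γ r g := by
  induction hg using Subgroup.closure_induction with
  | mem x hx => obtain ⟨v, rfl⟩ := hx; exact ⟨1, WL.gen v⟩
  | one => exact ⟨0, WL.one 0⟩
  | mul x y _ _ hx hy =>
    obtain ⟨r, hr⟩ := hx; obtain ⟨s, hs⟩ := hy; exact ⟨r + s, hr.mul hs⟩
  | inv x _ hx => obtain ⟨r, hr⟩ := hx; exact ⟨r, hr.inv⟩

/-- subadditive functions are bounded by the word length -/
theorem WL.le_of_subadd (L : G → ℕ) (h1 : L 1 = 0) (hm : ∀ g h, L (g * h) ≤ L g + L h)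
    (hi : ∀ g, L g⁻¹ = L g) (hγ : ∀ v, L (γ v) ≤ 1) {r : ℕ} {g : G} (hg : WL γ r g) :
    L g ≤ r := by
  obtain ⟨l, hl, rfl⟩ := hg
  refine le_trans ?_ hl
  clear hl
  induction l with
  | nil => rw [← FreeGroup.one_eq_mk, map_one, h1]; simp
  | cons a l ih =>
    have : FreeGroup.mk (a :: l) = FreeGroup.mk [a] * FreeGroup.mk l := by
      rw [FreeGroup.mul_mk]; rfl
    rw [this, map_mul]
    refine (hm _ _).trans ?_
    have h2 : L (FreeGroup.lift γ (FreeGroup.mk [a])) ≤ 1 := by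
      rcases a with ⟨v, b⟩
      cases b
      · simp [hi, hγ]
      · simp [hγ]
    simp only [List.length_cons]
    omega

theorem WL.map {K W : Type} [Group K] {δ : W → K} (f : G →* K) (h : ∀ v, WL δ 1 (f (γ v)))
    {r : ℕ} {g : G} (hg : WL γ r g) : WL δ r (f g) := by
  obtain ⟨l, hl, rfl⟩ := hg
  refine WL.mono hl ?_
  clear hl
  induction l with
  | nil => rw [← FreeGroup.one_eq_mk, map_one, map_one]; exact WL.one _
  | cons a l ih =>
    have : FreeGroup.mk (a :: l) = FreeGroup.mk [a] * FreeGroup.mk l := by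
      rw [FreeGroup.mul_mk]; rfl
    rw [this, map_mul, map_mul, List.length_cons, add_comm]
    refine WL.mul ?_ ih
    rcases a with ⟨v, b⟩
    cases b
    · simpa using (h v).inv
    · simpa using h v

/-- polynomial growth of a subgroup w.r.t. the word length of the ambient group. -/
def PG {V G : Type} [Group G] (γ : V → G) (M : Subgroup G) : Prop :=
  ∃ C k : ℕ, ∀ r : ℕ, ∀ T : Finset G, (∀ t ∈ T, t ∈ M ∧ WL γ r t) → T.card ≤ C * (1 + r) ^ k

theorem PG.bot : PG γ (⊥ : Subgroup G) := by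
  refine ⟨1, 0, fun r T hT => ?_⟩
  simp only [pow_zero, mul_one]
  rw [Finset.card_le_one]
  intro a ha b hb
  rw [Subgroup.mem_bot.mp (hT a ha).1, Subgroup.mem_bot.mp (hT b hb).1]

/-- conjugation -/
theorem PG.of_conj {M : Subgroup G} (x : G) {s : ℕ} (hx : WL γ s x)
    (h : PG γ (M.map (MulAut.conj x).toMonoidHom)) : PG γ M := by
  classical
  obtain ⟨C, k, hC⟩ := h
  refine ⟨C * (1 + 2 * s) ^ k, k, fun r T hT => ?_⟩
  have h1 := hC (r + 2 * s) (T.image (fun t => x * t * x⁻¹)) (by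
    intro t ht
    rw [Finset.mem_image] at ht
    obtain ⟨t, ht, rfl⟩ := ht
    refine ⟨⟨t, (hT t ht).1, by simp⟩, ?_⟩
    exact (((hx.mul (hT t ht).2).mul hx.inv).mono (by omega)))
  rw [Finset.card_image_of_injective] at h1
  · refine h1.trans ?_
    rw [mul_assoc, ← mul_pow]
    apply Nat.mul_le_mul_left
    apply Nat.pow_le_pow_left
    nlinarith
  · intro a b hab
    simpa using hab

/-- fibering: values of a function in an interval of linear size, fibres controlled by `M1`. -/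
theorem PG.of_fiber {M M1 : Subgroup G} (h1 : PG γ M1) (c d : ℕ)
    (f : ℕ → G → ℕ) (a : ℕ → ℕ)
    (hf : ∀ r, ∀ g ∈ M, WL γ r g → a r ≤ f r g ∧ f r g ≤ a r + c * r + d)
    (hfib : ∀ r, ∀ g ∈ M, ∀ g' ∈ M, WL γ r g → WL γ r g' → f r g = f r g' → g⁻¹ * g' ∈ M1) :
    PG γ M := by
  classical
  obtain ⟨C, k, hC⟩ := h1
  refine ⟨C * 2 ^ k * (c + d + 1), k + 1, fun r T hT => ?_⟩
  have key : T.card ≤ (C * (1 + 2 * r) ^ k) * (T.image (f r)).card := by
    apply Finset.card_le_mul_card_image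
    intro b hb
    rw [Finset.mem_image] at hb
    obtain ⟨g, hg, hgb⟩ := hb
    rw [← Finset.card_image_of_injective _ (mul_right_injective g⁻¹)]
    apply hC
    intro t ht
    rw [Finset.mem_image] at ht
    obtain ⟨g', hg', rfl⟩ := ht
    rw [Finset.mem_filter] at hg'
    refine ⟨hfib r g (hT g hg).1 g' (hT g' hg'.1).1 (hT g hg).2 (hT g' hg'.1).2
      (hgb.trans hg'.2.symm), ?_⟩
    exact (((hT g hg).2.inv).mul (hT g' hg'.1).2).mono (by omega)
  have himg : (T.image (f r)).card ≤ c * r + d + 1 := by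
    have : T.image (f r) ⊆ Finset.Icc (a r) (a r + c * r + d) := by
      intro b hb
      rw [Finset.mem_image] at hb
      obtain ⟨g, hg, rfl⟩ := hb
      rw [Finset.mem_Icc]
      exact hf r g (hT g hg).1 (hT g hg).2
    refine (Finset.card_le_card this).trans ?_
    rw [Nat.card_Icc]; omega
  calc T.card ≤ (C * (1 + 2 * r) ^ k) * (T.image (f r)).card := key
    _ ≤ (C * (2 * (1 + r)) ^ k) * ((c + d + 1) * (1 + r)) := by
        apply Nat.mul_le_mul
        · apply Nat.mul_le_mul_left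
          apply Nat.pow_le_pow_left
          omega
        · refine himg.trans ?_
          nlinarith
    _ = C * 2 ^ k * (c + d + 1) * (1 + r) ^ (k + 1) := by
        rw [mul_pow, pow_succ]; ring

end

end Pool.Agent.W379
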