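import Pool.Agent.W379.RaagNI
import Pool.Agent.W379.WL

set_option autoImplicit false

namespace Pool.Agent.W379

namespace RAAG

variable {V : Type} (Γ : SimpleGraph V)

theorem exists_WL (x : RAAG Γ) : ∃ r, WL (gen Γ) r x :=
  WL.exists_of_closure (by rw [closure_gen]; trivial)

theorem disp_psi_le [DecidableEq V] (v : V) [DecidableEq (Xk Γ v)] {r : ℕ} {g : RAAG Γ}
    (hg : WL (gen Γ) r g) : disp (psi Γ v g) ≤ r := by
  refine hg.le_of_subadd (fun g => disp (psi Γ v g)) ?_ ?_ ?_ ?_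
  · simp [disp]
  · intro g h; simp only [map_mul]; exact disp_mul_le _ _
  · intro g; simp only [map_inv]; exact disp_inv _
  · intro w
    by_cases h : w = v
    · subst h
      simp only [psi_gen_self, disp_inl, FreeGroup.norm_of, le_refl]
    · simp [psi_gen_ne Γ v h, disp]

/-- a nontrivial element of a special subgroup is hyperbolic at some vertex. -/
theorem exists_hyp (S : Set V) (m : RAAG Γ) (hm : m ∈ sp Γ S) (hm1 : m ≠ 1) :
    ∃ v ∈ S, ∀ x : RAAG Γ, x⁻¹ * m * x ∉ sp Γ ({v}ᶜ : Set V) := by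
  classical
  have hex : ∃ n : ℕ, ∃ F : Finset V, F.card = n ∧ (F : Set V) ⊆ S ∧
      ∃ x : RAAG Γ, x⁻¹ * m * x ∈ sp Γ (F : Set V) := by
    obtain ⟨F0, hF0⟩ := exists_finset m
    refine ⟨_, F0.filter (· ∈ S), rfl, by intro v; simp, 1, ?_⟩
    rw [inv_one, one_mul, mul_one, mem_sp_iff]
    have h1 := (mem_sp_iff _ _).mp hm
    have h2 := (mem_sp_iff _ _).mp hF0
    have : ((F0.filter (· ∈ S) : Finset V) : Set V) = S ∩ F0 := by
      ext v; simp [and_comm]
    rw [this, ← rho_comp, h2, h1]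
  obtain ⟨F, hFc, hFS, b, hb⟩ := Nat.find_spec hex
  have hmin := fun k hk => Nat.find_min hex (m := k) hk
  have hF : F.Nonempty := by
    rw [Finset.nonempty_iff_ne_empty]
    rintro rfl
    apply hm1
    rw [sp_eq_closure] at hb
    simp only [Finset.coe_empty, Set.image_empty, Subgroup.closure_empty, Subgroup.mem_bot] at hb
    have : m = b * (b⁻¹ * m * b) * b⁻¹ := by group
    rw [this, hb]; group
  obtain ⟨v, hv⟩ := hF
  refine ⟨v, hFS hv, fun x hx => ?_⟩
  refine hmin (F.erase v).card ?_ ⟨F.erase v, rfl, ?_, ?_⟩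
  · rw [← hFc, Finset.card_erase_of_mem hv]
    have := Finset.card_pos.mpr ⟨v, hv⟩
    omega
  · intro w hw
    exact hFS (Finset.mem_of_mem_erase hw)
  · -- b⁻¹ m b = c n c⁻¹
    obtain ⟨n, hn⟩ : ∃ n, n = x⁻¹ * m * x := ⟨_, rfl⟩
    obtain ⟨c, hc⟩ : ∃ c, c = b⁻¹ * x := ⟨_, rfl⟩
    rw [← hn] at hx
    have h1 : b⁻¹ * m * b = c * n * c⁻¹ := by rw [hc, hn]; group
    have h2 := (mem_sp_iff _ _).mp hb
    have h3 := (mem_sp_iff _ _).mp hx
    refine ⟨b * rho Γ (F : Set V) c, ?_⟩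
    have h4 : (b * rho Γ (F : Set V) c)⁻¹ * m * (b * rho Γ (F : Set V) c) = rho Γ (F : Set V) n := by
      calc _ = (rho Γ (F : Set V) c)⁻¹ * (b⁻¹ * m * b) * rho Γ (F : Set V) c := by group
        _ = (rho Γ (F : Set V) c)⁻¹ * (rho Γ (F : Set V) (b⁻¹ * m * b)) * rho Γ (F : Set V) c := by
            rw [h2]
        _ = _ := by rw [h1, map_mul, map_mul, map_inv]; group
    rw [h4]
    have h5 : rho Γ (F : Set V) n = rho Γ ((F : Set V) ∩ {v}ᶜ) n := by rw [← rho_comp, h3]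
    rw [h5]
    have : ((F.erase v : Finset V) : Set V) = (F : Set V) ∩ {v}ᶜ := by
      ext w; simp [and_comm]
    rw [this]
    exact ⟨n, rfl⟩

/-- inclusion of the link group -/
theorem incl_Ck (v : V) (c : Ad Γ v) (hc : c ∈ Ck Γ v) :
    incl Γ ({v}ᶜ : Set V) c ∈ sp Γ {w | Γ.Adj v w} := by
  change c ∈ sp (Γ.induce ({v}ᶜ : Set V)) (nb Γ v) at hc
  rw [sp_eq_closure] at hc
  induction hc using Subgroup.closure_induction with
  | mem x hx =>
    obtain ⟨w, hw, rfl⟩ := hx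
    rw [incl_gen]
    exact gen_mem_sp hw
  | one => rw [map_one]; exact one_mem _
  | mul x y _ _ hx hy => rw [map_mul]; exact mul_mem hx hy
  | inv x _ hx => rw [map_inv]; exact inv_mem hx

/-- one step of the descent. -/
theorem step (S : Set V) (M : Subgroup (RAAG Γ)) (hMS : M ≤ sp Γ S)
    (hcomm : ∀ a ∈ M, ∀ b ∈ M, a * b = b * a) (hM : ¬ PG (gen Γ) M) :
    ∃ v ∈ S, ∃ M' : Subgroup (RAAG Γ), M' ≤ sp Γ (S ∩ {w | Γ.Adj v w}) ∧
      (∀ a ∈ M', ∀ b ∈ M', a * b = b * a) ∧ ¬ PG (gen Γ) M' := by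
  classical
  have hne : M ≠ ⊥ := by rintro rfl; exact hM PG.bot
  obtain ⟨⟨m, hm⟩, hm1'⟩ := Subgroup.ne_bot_iff_exists_ne_one.mp hne
  have hm1 : m ≠ 1 := fun h => hm1' (Subtype.ext h)
  obtain ⟨v, hvS, hv⟩ := exists_hyp Γ S m (hMS hm) hm1
  refine ⟨v, hvS, ?_⟩
  obtain ⟨u, hu⟩ := exists_cyc (psi Γ v m)
  set cj : RAAG Γ → Aff (Xk Γ v) (Ad Γ v) :=
    fun g => (SemidirectProduct.inl u)⁻¹ * psi Γ v g * SemidirectProduct.inl u with hcj
  have cj_mul : ∀ g h, cj (g * h) = cj g * cj h := by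
    intro g h; simp only [hcj, map_mul]; group
  have cj_inv : ∀ g, cj g⁻¹ = (cj g)⁻¹ := by
    intro g; simp only [hcj, map_inv]; group
  set y := psiInv Γ v (SemidirectProduct.inl u) with hy
  have hback : ∀ g, (cj g).left = 1 → g = y * incl Γ _ (cj g).right * y⁻¹ := by
    intro g hg
    have h1 : cj g = SemidirectProduct.inr (cj g).right := by
      ext
      · rw [hg]; simp
      · simp
    have h2 : psi Γ v g = SemidirectProduct.inl u * cj g * (SemidirectProduct.inl u)⁻¹ := by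
      simp only [hcj]; group
    have h3 := congrArg (psiInv Γ v) h2
    rw [psiInv_psi, map_mul, map_mul, map_inv, h1, psiInv_inr] at h3
    exact h3
  rcases hu with hu | ⟨h0, h2⟩
  · exfalso
    refine hv y ?_
    have := hback m hu
    have h4 : y⁻¹ * m * y = incl Γ _ (cj m).right := by
      conv_lhs => rw [this]
      group
    rw [h4, sp_eq_range]
    exact ⟨_, rfl⟩
  change 0 < disp (cj m) at h0
  change disp (cj m * cj m) = 2 * disp (cj m) at h2
  have hcc : ∀ g ∈ M, Commute (cj g) (cj m) := by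
    intro g hg
    show _ * _ = _ * _
    rw [← cj_mul, ← cj_mul, hcomm g hg m hm]
  obtain ⟨x0, hx0⟩ := first_letter (cj m) (by
    intro h
    unfold disp at h0
    rw [h, FreeGroup.norm_one] at h0
    exact absurd h0 (lt_irrefl _))
  obtain ⟨a, rfl⟩ := QuotientGroup.mk_surjective x0
  -- the subgroup M1
  let M1 : Subgroup (RAAG Γ) :=
    { carrier := {g | g ∈ M ∧ (cj g).left = 1}
      one_mem' := ⟨M.one_mem, by simp [hcj]⟩
      mul_mem' := by
        rintro g h ⟨hg, hg1⟩ ⟨hh, hh1⟩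
        refine ⟨M.mul_mem hg hh, ?_⟩
        rw [cj_mul, SemidirectProduct.mul_left, hg1, hh1]; simp
      inv_mem' := by
        rintro g ⟨hg, hg1⟩
        refine ⟨M.inv_mem hg, ?_⟩
        rw [cj_inv, SemidirectProduct.inv_left, hg1]; simp }
  have hM1 : ∀ g ∈ M1, ∀ z : RAAG Γ, z = y * incl Γ _ a → z⁻¹ * g * z ∈ sp Γ {w | Γ.Adj v w} := by
    rintro g ⟨hg, hg1⟩ z rfl
    have h5 := hx0 (cj g) hg1 (hcc g hg)
    rw [MulAction.Quotient.smul_mk, smul_eq_mul] at h5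
    have h6 : a⁻¹ * (cj g).right * a ∈ Ck Γ v := by
      have h7 := QuotientGroup.eq.mp h5.symm
      rwa [← mul_assoc] at h7
    have h8 := incl_Ck Γ v _ h6
    have h9 := hback g hg1
    have h10 : (y * incl Γ _ a)⁻¹ * g * (y * incl Γ _ a) = incl Γ _ (a⁻¹ * (cj g).right * a) := by
      rw [map_mul, map_mul, map_inv]
      conv_lhs => rw [h9]
      group
    rw [h10]
    exact h8
  set z := y * incl Γ _ a with hz
  set w := rho Γ S z with hw
  have hM1S : ∀ g ∈ M1, w⁻¹ * g * w ∈ sp Γ (S ∩ {w | Γ.Adj v w}) := by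
    intro g hg
    have h1 := hM1 g hg z rfl
    have h3 : g = rho Γ S g := ((mem_sp_iff _ _).mp (hMS hg.1)).symm
    have h4 : w⁻¹ * g * w = rho Γ S (z⁻¹ * g * z) := by
      rw [map_mul, map_mul, map_inv, ← h3]
    rw [h4, ← (mem_sp_iff _ _).mp h1, rho_comp]
    exact ⟨_, rfl⟩
  refine ⟨M1.map (MulAut.conj w⁻¹).toMonoidHom, ?_, ?_, ?_⟩
  · rintro _ ⟨g, hg, rfl⟩
    have := hM1S g hg
    simpa using this
  · rintro _ ⟨g, hg, rfl⟩ _ ⟨h, hh, rfl⟩
    rw [← map_mul, ← map_mul, hcomm g hg.1 h hh.1]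
  · intro hPG
    apply hM
    obtain ⟨s, hs⟩ := exists_WL Γ w⁻¹
    have hPG1 : PG (gen Γ) M1 := PG.of_conj w⁻¹ hs hPG
    set U := FreeGroup.norm u with hU
    have hdisp : ∀ r g, WL (gen Γ) r g → disp (cj g) ≤ r + 2 * U := by
      intro r g hg
      have h1 := disp_mul_le ((SemidirectProduct.inl u)⁻¹ * psi Γ v g)
        (SemidirectProduct.inl u : Aff (Xk Γ v) (Ad Γ v))
      have h2 := disp_mul_le (SemidirectProduct.inl u : Aff (Xk Γ v) (Ad Γ v))⁻¹ (psi Γ v g)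
      have h3 := disp_psi_le Γ v hg
      rw [disp_inl] at h1
      rw [disp_inv, disp_inl] at h2
      simp only [hcj]
      omega
    refine PG.of_fiber hPG1 2 (4 * U)
      (fun r g => disp ((cj g)⁻¹ * ((cj m)⁻¹) ^ (r + 2 * U + 1)))
      (fun r => disp ((cj m) ^ (r + 2 * U + 1)) - (r + 2 * U)) ?_ ?_
    · intro r g hg hgr
      have h1 := axis_range (cj m) (cj g) (r + 2 * U + 1)
      have h3 := hdisp r g hgr
      have h4 : r + 2 * U ≤ disp (cj m ^ (r + 2 * U + 1)) := by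
        rw [disp_pow _ h2 h0]
        nlinarith
      omega
    · intro r g hg g' hg' hgr hgr' he
      have h3 := hdisp r g hgr
      have h4 := hdisp r g' hgr'
      have h5 := axis_unique (cj m) h2 h0 (cj g) (cj g') (hcc g hg) (hcc g' hg') (r + 2 * U + 1)
        (by omega) (by omega) he
      refine ⟨M.mul_mem (M.inv_mem hg) hg', ?_⟩
      rw [cj_mul, cj_inv]
      exact h5

/-- Subgroups without free subgroups have polynomial growth when there is no infinite clique. -/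
theorem growth (hno : ¬ ∃ f : ℕ → V, ∀ i j, i < j → Γ.Adj (f i) (f j))
    (M : Subgroup (RAAG Γ)) (hM : NF2 M) : PG (gen Γ) M := by
  classical
  by_contra hPG
  apply hno
  let St := {p : Set V × Subgroup (RAAG Γ) // p.2 ≤ sp Γ p.1 ∧
    (∀ a ∈ p.2, ∀ b ∈ p.2, a * b = b * a) ∧ ¬ PG (gen Γ) p.2}
  have hstep : ∀ p : St, ∃ q : V × St, q.1 ∈ p.1.1 ∧ q.2.1.1 = p.1.1 ∩ {w | Γ.Adj q.1 w} := by
    intro p
    obtain ⟨v, hv, M', h1, h2, h3⟩ := step Γ p.1.1 p.1.2 p.2.1 p.2.2.1 p.2.2.2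
    exact ⟨(v, ⟨(p.1.1 ∩ {w | Γ.Adj v w}, M'), h1, h2, h3⟩), hv, rfl⟩
  choose nx hnx1 hnx2 using hstep
  let s0 : St := ⟨(Set.univ, M), by
    refine ⟨?_, fun a ha b hb => AB Γ M hM a ha b hb, hPG⟩
    intro x _
    rw [sp_eq_closure, Set.image_univ, closure_gen]; trivial⟩
  let sq : ℕ → St := fun n => Nat.rec s0 (fun _ p => (nx p).2) n
  have hsq : ∀ n, sq (n + 1) = (nx (sq n)).2 := fun n => rfl
  have hmono : ∀ i j, i ≤ j → (sq j).1.1 ⊆ (sq i).1.1 := by
    intro i j hij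
    induction j, hij using Nat.le_induction with
    | base => exact subset_rfl
    | succ j _ ih =>
      rw [hsq, hnx2]
      exact Set.inter_subset_left.trans ih
  refine ⟨fun n => (nx (sq n)).1, fun i j hij => ?_⟩
  have h1 : (nx (sq j)).1 ∈ (sq j).1.1 := hnx1 (sq j)
  have h2 := hmono (i + 1) j hij h1
  rw [hsq, hnx2] at h2
  exact h2.2

end RAAG

end Pool.Agent.W379
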