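import Pool.Agent.W379.Raag

set_option autoImplicit false

namespace Pool.Agent.W379

open scoped commutatorElement

/-- in `Aff X H`: an inverted element of the free kernel yields a swap. -/
theorem inv_swap {X H : Type} [Group H] [MulAction H X] (g : Aff X H) (t : FreeGroup X)
    (ht : t ≠ 1) (hg : g * SemidirectProduct.inl t * g⁻¹ = (SemidirectProduct.inl t)⁻¹) :
    ∃ (h : H) (x y : X), x ≠ y ∧ h • x = y ∧ h • y = x := by
  classical
  obtain ⟨K, hK⟩ := norm_pow_free t ht
  set N := 2 * disp g + K + disp (g * g) with hN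
  have hpow : g * (SemidirectProduct.inl t) ^ N * g⁻¹ = ((SemidirectProduct.inl t) ^ N)⁻¹ := by
    rw [← conj_pow, hg, inv_pow]
  set T : Aff X H := (SemidirectProduct.inl t) ^ N with hT
  have hsq : (g * T) * (g * T) = g * g := by
    have : g * T = T⁻¹ * g := by rw [← hpow]; group
    calc (g * T) * (g * T) = g * (T * (g * T)) := by group
      _ = g * (T * (T⁻¹ * g)) := by rw [this]
      _ = g * g := by group
  have h1 : disp ((g * T) * (g * T)) ≤ disp (g * T) := by
    rw [hsq]
    have h2 : disp T ≤ disp g + disp (g * T) := by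
      have := disp_mul_le g⁻¹ (g * T)
      rwa [inv_mul_cancel_left, disp_inv] at this
    have h3 := hK N
    have h4 : disp T = FreeGroup.norm (t ^ N) := by
      rw [hT, ← map_pow, disp_inl]
    omega
  obtain ⟨u, hu⟩ := elliptic_of_sq _ h1
  set g1 := (SemidirectProduct.inl u)⁻¹ * (g * T) * SemidirectProduct.inl u with hg1
  refine ⟨g1.right, ?_⟩
  have hc : g1 * (SemidirectProduct.inl (u⁻¹ * t * u)) * g1⁻¹ =
      (SemidirectProduct.inl (u⁻¹ * t * u))⁻¹ := by
    have hT2 : (g * T) * SemidirectProduct.inl t * (g * T)⁻¹ = (SemidirectProduct.inl t)⁻¹ := by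
      have hcm : Commute T (SemidirectProduct.inl t) := (Commute.refl _).pow_left N
      calc (g * T) * SemidirectProduct.inl t * (g * T)⁻¹
          = g * (T * SemidirectProduct.inl t * T⁻¹) * g⁻¹ := by group
        _ = g * (SemidirectProduct.inl t) * g⁻¹ := by rw [hcm.eq]; group
        _ = _ := hg
    rw [hg1]
    simp only [map_mul, map_inv]
    calc _ = (SemidirectProduct.inl u)⁻¹ * ((g * T) * SemidirectProduct.inl t * (g * T)⁻¹) *
          SemidirectProduct.inl u := by group
      _ = _ := by rw [hT2]; group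
  have hl := congrArg SemidirectProduct.left hc
  have : g1 = SemidirectProduct.inr g1.right := by
    ext
    · rw [hu]; simp
    · simp
  rw [this] at hl
  have h5 : SemidirectProduct.inr g1.right * SemidirectProduct.inl (u⁻¹ * t * u) *
      (SemidirectProduct.inr g1.right)⁻¹ = (SemidirectProduct.inl (fgAct H X g1.right (u⁻¹ * t * u)) :
        Aff X H) := by
    rw [SemidirectProduct.inl_aut, ← map_inv SemidirectProduct.inr]
  rw [h5, SemidirectProduct.left_inl, ← map_inv, SemidirectProduct.left_inl] at hl
  refine swap_of_inv _ _ hl ?_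
  intro h
  apply ht
  have : t = u * (u⁻¹ * t * u) * u⁻¹ := by group
  rw [this, h]; group

namespace RAAG

theorem subsingleton_of_empty {V : Type} (Γ : SimpleGraph V) [IsEmpty V] : Subsingleton (RAAG Γ) := by
  refine ⟨fun a b => ?_⟩
  obtain ⟨a, rfl⟩ := PresentedGroup.mk_surjective _ a
  obtain ⟨b, rfl⟩ := PresentedGroup.mk_surjective _ b
  rw [Subsingleton.elim a b]

theorem card_compl {V : Type} [Finite V] (v : V) : Nat.card (({v}ᶜ : Set V)) + 1 = Nat.card V := by
  classical
  have := Fintype.ofFinite V
  rw [Nat.card_eq_fintype_card, Nat.card_eq_fintype_card, Fintype.card_compl_set]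
  have h1 : 0 < Fintype.card V := Fintype.card_pos_iff.mpr ⟨v⟩
  simp
  omega

/-- no nontrivial element is conjugate to its inverse. -/
theorem NI_fin (n : ℕ) : ∀ (V : Type) [Finite V] (Γ : SimpleGraph V), Nat.card V = n →
    ∀ g m : RAAG Γ, g * m * g⁻¹ = m⁻¹ → m = 1 := by
  induction n with
  | zero =>
    intro V _ Γ hV g m _
    have : IsEmpty V := by
      rcases Nat.card_eq_zero.mp hV with h | h
      · exact h
      · exact absurd ‹Finite V› (not_finite_iff_infinite.mpr h)
    have := subsingleton_of_empty Γ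
    exact Subsingleton.elim _ _
  | succ n ih =>
    intro V _ Γ hV g m hgm
    have hne : Nonempty V := by
      rcases isEmpty_or_nonempty V with h | h
      · simp at hV
      · exact h
    obtain ⟨v⟩ := hne
    have hc : Nat.card (({v}ᶜ : Set V)) = n := by have := card_compl v; omega
    have ihA := ih (({v}ᶜ : Set V)) (Γ.induce ({v}ᶜ : Set V)) hc
    have h1 : (psi Γ v m).right = 1 := by
      apply ihA (psi Γ v g).right
      have := congrArg (fun x => (psi Γ v x).right) hgm
      simpa using this
    by_contra hm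
    set t := (psi Γ v m).left with ht
    have hmt : psi Γ v m = SemidirectProduct.inl t := by
      ext
      · simp [ht]
      · simp [h1]
    have ht1 : t ≠ 1 := by
      intro h
      apply hm
      apply psi_injective Γ v
      rw [hmt, h]; simp
    obtain ⟨h, x, y, hxy, h2, h3⟩ := inv_swap (psi Γ v g) t ht1 (by
      rw [← hmt, ← map_inv, ← map_mul, ← map_mul, hgm, map_inv])
    obtain ⟨a, rfl⟩ := QuotientGroup.mk_surjective x
    obtain ⟨b, rfl⟩ := QuotientGroup.mk_surjective y
    rw [MulAction.Quotient.smul_mk, smul_eq_mul] at h2 h3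
    have e1 : (h * a)⁻¹ * b ∈ Ck Γ v := QuotientGroup.eq.mp h2
    have e2 : (h * b)⁻¹ * a ∈ Ck Γ v := QuotientGroup.eq.mp h3
    set h1' := a⁻¹ * h * a with hh1
    have e3 : h1' * h1' ∈ Ck Γ v := by
      have : h1' * h1' = (((h * a)⁻¹ * b) * ((h * b)⁻¹ * a))⁻¹ := by
        rw [hh1]; simp [mul_assoc]
      rw [this]
      exact inv_mem (mul_mem e1 e2)
    set c1 := rho (Γ.induce ({v}ᶜ : Set V)) (nb Γ v) h1' with hc1
    have e5 : c1 * c1 = h1' * h1' := by
      rw [hc1, ← map_mul]
      exact (mem_sp_iff _ _).mp e3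
    have e6 : c1 * (h1' * c1⁻¹) * c1⁻¹ = (h1' * c1⁻¹)⁻¹ := by
      have : c1⁻¹ * c1⁻¹ = (h1' * h1')⁻¹ := by rw [← e5]; group
      calc c1 * (h1' * c1⁻¹) * c1⁻¹ = c1 * h1' * (c1⁻¹ * c1⁻¹) := by group
        _ = c1 * h1' * (h1' * h1')⁻¹ := by rw [this]
        _ = _ := by group
    have e7 := ihA _ _ e6
    have e8 : h1' ∈ Ck Γ v := by
      have : h1' = c1 := by rwa [mul_inv_eq_one] at e7
      rw [this, hc1]
      exact ⟨h1', rfl⟩
    apply hxy
    rw [QuotientGroup.eq]
    have : a⁻¹ * b = h1' * ((h * a)⁻¹ * b) := by rw [hh1]; group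
    rw [this]
    exact mul_mem e8 e1

theorem NI {V : Type} (Γ : SimpleGraph V) (g m : RAAG Γ) (h : g * m * g⁻¹ = m⁻¹) : m = 1 := by
  classical
  obtain ⟨S, hS⟩ := exists_finset g
  obtain ⟨T, hT⟩ := exists_finset m
  have hS' : g ∈ sp Γ ((S ∪ T : Finset V) : Set V) := sp_mono (by simp) hS
  have hT' : m ∈ sp Γ ((S ∪ T : Finset V) : Set V) := sp_mono (by simp) hT
  rw [sp_eq_range] at hS' hT'
  obtain ⟨g', rfl⟩ := hS'
  obtain ⟨m', rfl⟩ := hT'
  have : m' = 1 := by
    apply NI_fin _ _ _ rfl g' m'
    apply incl_injective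
    simpa using h
  rw [this, map_one]

/-- a torsion-free statement for the kernel. -/
theorem AB_fin (n : ℕ) : ∀ (V : Type) [Finite V] (Γ : SimpleGraph V), Nat.card V = n →
    ∀ M : Subgroup (RAAG Γ), NF2 M → ∀ a ∈ M, ∀ b ∈ M, a * b = b * a := by
  classical
  induction n with
  | zero =>
    intro V _ Γ hV M _ a _ b _
    have : IsEmpty V := by
      rcases Nat.card_eq_zero.mp hV with h | h
      · exact h
      · exact absurd ‹Finite V› (not_finite_iff_infinite.mpr h)
    have := subsingleton_of_empty Γ
    exact Subsingleton.elim _ _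
  | succ n ih =>
    intro V _ Γ hV M hM a ha b hb
    have hne : Nonempty V := by
      rcases isEmpty_or_nonempty V with h | h
      · simp at hV
      · exact h
    obtain ⟨v⟩ := hne
    have hc : Nat.card (({v}ᶜ : Set V)) = n := by have := card_compl v; omega
    have hR := ih (({v}ᶜ : Set V)) (Γ.induce ({v}ᶜ : Set V)) hc
      (M.map (SemidirectProduct.rightHom.comp (psi Γ v))) (hM.map _)
    have hab : (psi Γ v a).right * (psi Γ v b).right = (psi Γ v b).right * (psi Γ v a).right :=
      hR _ ⟨a, ha, rfl⟩ _ ⟨b, hb, rfl⟩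
    -- the cyclic kernel
    have hN : NF2 ((M.map (psi Γ v)).comap (SemidirectProduct.inl (φ := fgAct (Ad Γ v) (Xk Γ v)))) :=
      (hM.map _).comap _ SemidirectProduct.inl_injective
    obtain ⟨z, hz, hNz⟩ := hN.cyclic_of_free
    obtain ⟨m, hm, hmz⟩ := hz
    -- normality
    have hnorm : ∀ y ∈ M, ∃ k : ℤ, y * m * y⁻¹ = m ^ k := by
      intro y hy
      have h1 : (psi Γ v (y * m * y⁻¹)).right = 1 := by
        rw [map_mul, map_mul, hmz]; simp
      have h2 : psi Γ v (y * m * y⁻¹) = SemidirectProduct.inl (psi Γ v (y * m * y⁻¹)).left := by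
        ext
        · simp
        · rw [h1]; simp
      have h3 : (psi Γ v (y * m * y⁻¹)).left ∈ Subgroup.zpowers z := by
        rw [← hNz]
        exact ⟨y * m * y⁻¹, M.mul_mem (M.mul_mem hy hm) (M.inv_mem hy), h2⟩
      obtain ⟨k, hk⟩ := h3
      refine ⟨k, ?_⟩
      apply psi_injective Γ v
      have hk' : z ^ k = (psi Γ v (y * m * y⁻¹)).left := hk
      rw [h2, ← hk', map_zpow, map_zpow, hmz]
    by_cases hz1 : z = 1
    · -- kernel trivial
      have h1 : (psi Γ v ⁅a, b⁆).right = 1 := by
        rw [map_commutatorElement, commutatorElement_def]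
        simp only [SemidirectProduct.mul_right, SemidirectProduct.inv_right]
        rw [hab]; group
      have h2 : psi Γ v ⁅a, b⁆ = SemidirectProduct.inl (psi Γ v ⁅a, b⁆).left := by
        ext
        · simp
        · rw [h1]; simp
      have h3 : (psi Γ v ⁅a, b⁆).left ∈ Subgroup.zpowers z := by
        rw [← hNz]
        refine ⟨⁅a, b⁆, ?_, h2⟩
        rw [commutatorElement_def]
        exact M.mul_mem (M.mul_mem (M.mul_mem ha hb) (M.inv_mem ha)) (M.inv_mem hb)
      rw [hz1, Subgroup.zpowers_one_eq_bot, Subgroup.mem_bot] at h3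
      rw [h3, map_one] at h2
      have h4 : ⁅a, b⁆ = 1 := psi_injective Γ v (by rw [h2, map_one])
      exact commutatorElement_eq_one_iff_mul_comm.mp h4
    · -- central
      have hm1 : m ≠ 1 := by
        rintro rfl
        rw [map_one] at hmz
        apply hz1
        apply SemidirectProduct.inl_injective (φ := fgAct (Ad Γ v) (Xk Γ v))
        rw [← hmz, map_one]
      have hord : ∀ k : ℤ, m ^ k = 1 → k = 0 := by
        intro k hk
        by_contra hk0
        apply hz1
        have h5 : z ^ k = 1 := by
          apply SemidirectProduct.inl_injective (φ := fgAct (Ad Γ v) (Xk Γ v))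
          rw [map_zpow, ← hmz, ← map_zpow, hk, map_one, map_one]
        obtain ⟨K, hK⟩ := norm_pow_free z hz1
        exfalso
        have h6 : z ^ (k.natAbs) = 1 := by
          rcases Int.natAbs_eq k with h | h
          · rw [h, zpow_natCast] at h5; exact h5
          · rw [h, zpow_neg, zpow_natCast, inv_eq_one] at h5; exact h5
        have h7 := hK (k.natAbs * (K + 1))
        rw [pow_mul, h6, one_pow, FreeGroup.norm_one] at h7
        have h8 : 0 < k.natAbs := Int.natAbs_pos.mpr hk0
        nlinarith
      have hcomm : ∀ y ∈ M, y * m = m * y := by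
        intro y hy
        obtain ⟨k, hk⟩ := hnorm y hy
        obtain ⟨l, hl⟩ := hnorm y⁻¹ (M.inv_mem hy)
        rw [inv_inv] at hl
        have h9 : m = m ^ (k * l) := by
          rw [zpow_mul, ← hk]
          rw [conj_zpow, ← hl]; group
        have h10 : k * l = 1 := by
          have : m ^ (k * l - 1) = 1 := by rw [zpow_sub, ← h9]; group
          have := hord _ this
          omega
        rcases Int.eq_one_or_neg_one_of_mul_eq_one h10 with h | h
        · rw [h, zpow_one] at hk
          rw [mul_inv_eq_iff_eq_mul] at hk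
          exact hk
        · exfalso
          rw [h, zpow_neg, zpow_one] at hk
          exact hm1 (NI Γ y m hk)
      -- the commutator is a power of m
      obtain ⟨c, hc, hcab⟩ : ∃ c ∈ Subgroup.zpowers m, a * b = c * (b * a) := by
        refine ⟨⁅a, b⁆, ?_, by rw [commutatorElement_def]; group⟩
        have h1 : (psi Γ v ⁅a, b⁆).right = 1 := by
          rw [map_commutatorElement, commutatorElement_def]
          simp only [SemidirectProduct.mul_right, SemidirectProduct.inv_right]
          rw [hab]; group
        have h2 : psi Γ v ⁅a, b⁆ = SemidirectProduct.inl (psi Γ v ⁅a, b⁆).left := by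
          ext
          · simp
          · rw [h1]; simp
        have h3 : (psi Γ v ⁅a, b⁆).left ∈ Subgroup.zpowers z := by
          rw [← hNz]
          refine ⟨⁅a, b⁆, ?_, h2⟩
          rw [commutatorElement_def]
          exact M.mul_mem (M.mul_mem (M.mul_mem ha hb) (M.inv_mem ha)) (M.inv_mem hb)
        obtain ⟨k, hk⟩ := h3
        refine ⟨k, ?_⟩
        apply psi_injective Γ v
        have hk' : z ^ k = (psi Γ v ⁅a, b⁆).left := hk
        rw [h2, ← hk', map_zpow, map_zpow, hmz]
      obtain ⟨j, hj⟩ := hc
      have hj' : m ^ j = c := hj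
      have hcM : c ∈ M := by rw [← hj']; exact M.zpow_mem hm j
      have hca : Commute c a := by
        rw [← hj']; exact (Commute.zpow_left (hcomm a ha).symm j)
      have hcb : Commute c b := by
        rw [← hj']; exact (Commute.zpow_left (hcomm b hb).symm j)
      -- a b^n = c^n b^n a
      have s1 : ∀ n : ℕ, a * b ^ n = c ^ n * (b ^ n * a) := by
        intro n
        induction n with
        | zero => simp
        | succ n ihn =>
          calc a * b ^ (n+1) = (a * b ^ n) * b := by rw [pow_succ]; group
            _ = c ^ n * (b ^ n * (a * b)) := by rw [ihn]; group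
            _ = c ^ n * ((b ^ n * c) * (b * a)) := by rw [hcab]; group
            _ = c ^ n * ((c * b ^ n) * (b * a)) := by rw [(hcb.pow_right n).eq]
            _ = c ^ (n+1) * (b ^ (n+1) * a) := by rw [pow_succ c, pow_succ b]; group
      have s2 : ∀ n k : ℕ, a ^ k * b ^ n = c ^ (n * k) * (b ^ n * a ^ k) := by
        intro n k
        induction k with
        | zero => simp
        | succ k ihk =>
          have hcn : Commute (c ^ (n * k)) a := hca.pow_left _
          calc a ^ (k+1) * b ^ n = a * (a ^ k * b ^ n) := by rw [pow_succ']; group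
            _ = (a * c ^ (n * k)) * (b ^ n * a ^ k) := by rw [ihk]; group
            _ = c ^ (n * k) * ((a * b ^ n) * a ^ k) := by rw [← hcn.eq]; group
            _ = c ^ (n * k) * (c ^ n * (b ^ n * a) * a ^ k) := by rw [s1]
            _ = c ^ (n * (k+1)) * (b ^ n * a ^ (k+1)) := by
              rw [mul_add, mul_one, pow_add, pow_succ' a]; group
      by_contra hne
      have hc1 : c ≠ 1 := by
        rintro rfl
        apply hne; rw [hcab, one_mul]
      have hj0 : z ^ j ≠ 1 := by
        intro h
        apply hc1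
        apply psi_injective Γ v
        rw [← hj', map_zpow, hmz, ← map_zpow, h, map_one, map_one]
      obtain ⟨K, hK⟩ := norm_pow_free (z ^ j) hj0
      have hdc : ∀ n : ℕ, disp (psi Γ v (c ^ n)) = FreeGroup.norm ((z ^ j) ^ n) := by
        intro n
        rw [← hj', map_pow, map_zpow, hmz, ← map_zpow, ← map_pow, disp_inl]
      have hdp : ∀ (x : RAAG Γ) (n : ℕ), disp (psi Γ v (x ^ n)) ≤ n * disp (psi Γ v x) := by
        intro x n
        induction n with
        | zero => simp [disp]
        | succ n ihn =>
          rw [pow_succ, map_mul]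
          refine (disp_mul_le _ _).trans ?_
          rw [add_mul, one_mul]; omega
      set D := disp (psi Γ v a) + disp (psi Γ v b) with hD
      have hfin : ∀ n : ℕ, n * n ≤ 2 * (n * D) + K := by
        intro n
        have h1 := hK (n * n)
        rw [← hdc] at h1
        have h2 : c ^ (n * n) = a ^ n * b ^ n * (a ^ n)⁻¹ * (b ^ n)⁻¹ := by
          rw [s2 n n]; group
        have h3 : disp (psi Γ v (c ^ (n * n))) ≤ 2 * (n * D) := by
          rw [h2, map_mul, map_mul, map_mul, map_inv, map_inv]
          have t1 := disp_mul_le (psi Γ v (a ^ n) * psi Γ v (b ^ n) * (psi Γ v (a ^ n))⁻¹)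
            (psi Γ v (b ^ n))⁻¹
          have t2 := disp_mul_le (psi Γ v (a ^ n) * psi Γ v (b ^ n)) (psi Γ v (a ^ n))⁻¹
          have t3 := disp_mul_le (psi Γ v (a ^ n)) (psi Γ v (b ^ n))
          rw [disp_inv] at t1 t2
          have t4 := hdp a n
          have t5 := hdp b n
          rw [hD, mul_add]
          omega
        omega
      have := hfin (2 * D + K + 1)
      nlinarith

theorem AB {V : Type} (Γ : SimpleGraph V) (M : Subgroup (RAAG Γ)) (hM : NF2 M) (a : RAAG Γ)
    (ha : a ∈ M) (b : RAAG Γ) (hb : b ∈ M) : a * b = b * a := by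
  classical
  obtain ⟨S, hS⟩ := exists_finset a
  obtain ⟨T, hT⟩ := exists_finset b
  have hS' : a ∈ sp Γ ((S ∪ T : Finset V) : Set V) := sp_mono (by simp) hS
  have hT' : b ∈ sp Γ ((S ∪ T : Finset V) : Set V) := sp_mono (by simp) hT
  rw [sp_eq_range] at hS' hT'
  obtain ⟨a', rfl⟩ := hS'
  obtain ⟨b', rfl⟩ := hT'
  rw [← map_mul, ← map_mul]
  congr 1
  exact AB_fin _ _ _ rfl (M.comap (incl Γ _)) (hM.comap _ (incl_injective _)) a' ha b' hb

end RAAG

end Pool.Agent.W379
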