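import Pool.Agent.W379.Aff

set_option autoImplicit false

namespace Pool.Agent.W379

open FreeGroup List

section
variable {X : Type} [DecidableEq X]

theorem pow_mk (x : X) (n : ℕ) : (of x : FreeGroup X) ^ n = mk (replicate n (x, true)) := by
  rw [← toWord_of_pow, mk_toWord]

theorem pow_inv_mk (x : X) (n : ℕ) :
    ((of x : FreeGroup X) ^ n)⁻¹ = mk (replicate n (x, false)) := by
  rw [pow_mk, inv_mk]
  simp [invRev]

theorem head_block {a : X × Bool} {n : ℕ} (hn : 0 < n) (l : List (X × Bool)) :
    (replicate n a ++ l).head? = some a := by
  cases n with
  | zero => omega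
  | succ n => simp [List.replicate_succ]

theorem red_block {a : X × Bool} {n : ℕ} {l : List (X × Bool)} (hl : FreeGroup.IsReduced l)
    (h : ∀ b ∈ l.head?, a.1 = b.1 → a.2 = b.2) : FreeGroup.IsReduced (replicate n a ++ l) := by
  induction n with
  | zero => simpa using hl
  | succ n ih =>
    unfold FreeGroup.IsReduced at *
    rw [List.replicate_succ, List.cons_append, List.isChain_cons]
    refine ⟨?_, ih⟩
    intro b hb
    rcases Nat.eq_zero_or_pos n with rfl | hn
    · exact h b (by simpa using hb)
    · rw [head_block hn] at hb
      simp only [Option.mem_def, Option.some.injEq] at hb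
      subst hb
      intro _; rfl

theorem red_block' {a : X × Bool} {n : ℕ} : FreeGroup.IsReduced (replicate n a) := by
  have := red_block (a := a) (n := n) (l := []) FreeGroup.IsReduced.nil (by simp)
  simpa using this

theorem eq_of_mk_eq {l l' : List (X × Bool)} (h : FreeGroup.IsReduced l)
    (h' : FreeGroup.IsReduced l') (e : (mk l : FreeGroup X) = mk l') : l = l' := by
  have := congrArg toWord e
  rw [toWord_mk, toWord_mk, h.reduce_eq, h'.reduce_eq] at this
  exact this

theorem pow_inj {x y : X} {a b : ℕ} (ha : 0 < a)
    (h : (of x : FreeGroup X) ^ a = of y ^ b) : x = y ∧ a = b := by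
  have h1 := congrArg toWord h
  rw [toWord_of_pow, toWord_of_pow] at h1
  have h2 := congrArg List.length h1
  simp only [length_replicate] at h2
  refine ⟨?_, h2⟩
  have h3 : (x, true) ∈ replicate b (y, true) := by
    rw [← h1]; exact List.mem_replicate.mpr ⟨by omega, rfl⟩
  have := List.eq_of_mem_replicate h3
  exact congrArg Prod.fst this

theorem fg_rigid {xa xb xc xe xi xj : X} {α β γ δ κ μ : ℕ} (hα : 0 < α) (hβ : 0 < β) (hγ : 0 < γ)
    (hδ : 0 < δ) (hab : xa ≠ xb) (hce : xc ≠ xe) (hij : xi ≠ xj)
    (h : (((of xa : FreeGroup X) ^ α)⁻¹ * of xb ^ β)⁻¹ * ((of xc ^ γ)⁻¹ * of xe ^ δ) =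
      (of xi ^ κ)⁻¹ * of xj ^ μ) : xa = xc ∧ α = γ := by
  have hR : ((of xi : FreeGroup X) ^ κ)⁻¹ * of xj ^ μ =
      mk (replicate κ (xi, false) ++ replicate μ (xj, true)) := by
    rw [pow_inv_mk, pow_mk, mul_mk]
  have hRr : FreeGroup.IsReduced (replicate κ (xi, false) ++ replicate μ (xj, true)) := by
    apply red_block red_block'
    intro b hb
    have : b ∈ replicate μ (xj, true) := List.mem_of_mem_head? hb
    rw [List.eq_of_mem_replicate this]
    intro h; exact absurd h hij
  have hL0 : (((of xa : FreeGroup X) ^ α)⁻¹ * of xb ^ β)⁻¹ * ((of xc ^ γ)⁻¹ * of xe ^ δ) =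
      (of xb ^ β)⁻¹ * ((of xa ^ α * (of xc ^ γ)⁻¹) * of xe ^ δ) := by group
  rw [hL0, hR] at h
  by_cases hac : xa = xc
  · subst hac
    refine ⟨rfl, ?_⟩
    rcases lt_trichotomy α γ with hlt | heq | hlt
    · exfalso
      have e1 : (of xa : FreeGroup X) ^ α * (of xa ^ γ)⁻¹ = (of xa ^ (γ - α))⁻¹ := by
        have : (of xa : FreeGroup X) ^ γ = of xa ^ (γ - α) * of xa ^ α := by
          rw [← pow_add]; congr 1; omega
        rw [this]; group
      have hpos : 0 < γ - α := by omega
      rw [e1, pow_inv_mk, pow_inv_mk, pow_mk, mul_mk, mul_mk] at h
      have h2 := eq_of_mk_eq (by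
        apply red_block
        · apply red_block red_block'
          intro b hb
          have : b ∈ replicate δ (xe, true) := List.mem_of_mem_head? hb
          rw [List.eq_of_mem_replicate this]
          intro h; exact absurd h hce
        · intro b hb
          rw [head_block hpos] at hb
          simp only [Option.mem_def, Option.some.injEq] at hb
          subst hb
          intro _; rfl) hRr h
      have m1 : (xb, false) ∈ replicate κ (xi, false) ++ replicate μ (xj, true) := by
        rw [← h2]
        simp [hβ.ne']
      have m2 : (xa, false) ∈ replicate κ (xi, false) ++ replicate μ (xj, true) := by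
        rw [← h2]
        simp only [List.mem_append, List.mem_replicate]
        right; left; exact ⟨hpos.ne', trivial⟩
      simp only [List.mem_append, List.mem_replicate, Prod.mk.injEq, and_true, Bool.false_eq_true,
        and_false, or_false] at m1 m2
      exact hab (m2.2.trans m1.2.symm)
    · exact heq
    · exfalso
      have e1 : (of xa : FreeGroup X) ^ α * (of xa ^ γ)⁻¹ = of xa ^ (α - γ) := by
        have : (of xa : FreeGroup X) ^ α = of xa ^ (α - γ) * of xa ^ γ := by
          rw [← pow_add]; congr 1; omega
        rw [this]; group
      have hpos : 0 < α - γ := by omega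
      rw [e1, pow_inv_mk, pow_mk, pow_mk, mul_mk, mul_mk] at h
      have h2 := eq_of_mk_eq (by
        apply red_block
        · apply red_block red_block'
          intro b hb
          have : b ∈ replicate δ (xe, true) := List.mem_of_mem_head? hb
          rw [List.eq_of_mem_replicate this]
          intro _; rfl
        · intro b hb
          rw [head_block hpos] at hb
          simp only [Option.mem_def, Option.some.injEq] at hb
          subst hb
          intro h; exact absurd h.symm hab) hRr h
      have m1 : (xa, true) ∈ replicate κ (xi, false) ++ replicate μ (xj, true) := by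
        rw [← h2]
        simp only [List.mem_append, List.mem_replicate]
        right; left; exact ⟨hpos.ne', trivial⟩
      have m2 : (xe, true) ∈ replicate κ (xi, false) ++ replicate μ (xj, true) := by
        rw [← h2]
        simp only [List.mem_append, List.mem_replicate]
        right; right; exact ⟨hδ.ne', trivial⟩
      simp only [List.mem_append, List.mem_replicate, Prod.mk.injEq, and_true, Bool.true_eq_false,
        and_false, false_or] at m1 m2
      exact hce (m1.2.trans m2.2.symm)
  · exfalso
    rw [pow_inv_mk, pow_inv_mk, pow_mk, pow_mk, mul_mk, mul_mk, mul_mk, List.append_assoc] at h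
    have h2 := eq_of_mk_eq (by
      apply red_block
      · apply red_block
        · apply red_block red_block'
          intro b hb
          have : b ∈ replicate δ (xe, true) := List.mem_of_mem_head? hb
          rw [List.eq_of_mem_replicate this]
          intro h; exact absurd h hce
        · intro b hb
          rw [head_block hγ] at hb
          simp only [Option.mem_def, Option.some.injEq] at hb
          subst hb
          intro h; exact absurd h hac
      · intro b hb
        rw [head_block hα] at hb
        simp only [Option.mem_def, Option.some.injEq] at hb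
        subst hb
        intro h; exact absurd h.symm hab) hRr h
    have hp : (replicate κ (xi, false) ++ replicate μ (xj, true)).Pairwise
        (fun a b => a.2 = true → b.2 = true) := by
      rw [List.pairwise_append]
      refine ⟨?_, ?_, ?_⟩
      · rw [List.pairwise_replicate]; right; simp
      · rw [List.pairwise_replicate]; right; simp
      · intro a ha b hb
        rw [List.eq_of_mem_replicate hb]; simp
    rw [← h2, List.pairwise_append, List.pairwise_append] at hp
    have h3 := hp.2.1.2.2 (xa, true) (by simp [hα.ne']) (xc, false) (by simp [hγ.ne'])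
    simp at h3

end

end Pool.Agent.W379
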