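import Pool.Agent.W379.RaagGrowth

set_option autoImplicit false

namespace Pool.Agent.W379

/-- extension by a cyclic image in a free group. -/
theorem PG.of_cyclic {ι G α : Type} [DecidableEq α] [Group G] {γ : ι → G} (φ : G →* FreeGroup α)
    (hφ : ∀ r g, WL γ r g → FreeGroup.norm (φ g) ≤ r) (H : Subgroup G) (hH : NF2 H)
    (hK : PG γ (H ⊓ φ.ker)) : PG γ H := by
  classical
  obtain ⟨z, -, hz⟩ := (hH.map φ).cyclic_of_free
  have he : ∀ g ∈ H, ∃ e : ℤ, z ^ e = φ g := by
    intro g hg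
    have : φ g ∈ H.map φ := ⟨g, hg, rfl⟩
    rw [hz] at this
    exact this
  by_cases hz1 : z = 1
  · have : H ⊓ φ.ker = H := by
      apply inf_eq_left.mpr
      intro g hg
      obtain ⟨e, he⟩ := he g hg
      rw [hz1, one_zpow] at he
      exact he.symm
    rwa [this] at hK
  · obtain ⟨K, hKn⟩ := norm_pow_free z hz1
    have hKz : ∀ e : ℤ, e.natAbs ≤ FreeGroup.norm (z ^ e) + K := by
      intro e
      rcases Int.natAbs_eq e with h | h
      · have h1 := hKn e.natAbs
        have h2 : z ^ e = z ^ e.natAbs := by conv_lhs => rw [h, zpow_natCast]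
        rw [h2]; exact h1
      · have h1 := hKn e.natAbs
        have h2 : z ^ e = (z ^ e.natAbs)⁻¹ := by conv_lhs => rw [h, zpow_neg, zpow_natCast]
        rw [h2, FreeGroup.norm_inv_eq]; exact h1
    choose! ex hex using he
    refine PG.of_fiber hK 2 (2 * K) (fun r g => (ex g + (r + K)).toNat) (fun _ => 0) ?_ ?_
    · intro r g hg hgr
      have h1 := hKz (ex g)
      rw [hex g hg] at h1
      have h2 := hφ r g hgr
      refine ⟨Nat.zero_le _, ?_⟩
      have h3 : (ex g).natAbs ≤ r + K := by omega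
      zify
      omega
    · intro r g hg g' hg' hgr hgr' heq
      refine ⟨H.mul_mem (H.inv_mem hg) hg', ?_⟩
      show φ (g⁻¹ * g') = 1
      rw [map_mul, map_inv, ← hex g hg, ← hex g' hg']
      have h1 := hKz (ex g)
      have h2 := hKz (ex g')
      rw [hex g hg] at h1
      rw [hex g' hg'] at h2
      have h3 := hφ r g hgr
      have h4 := hφ r g' hgr'
      have h5 : ex g = ex g' := by
        have h6 : (ex g + (r + K)).toNat = (ex g' + (r + K)).toNat := heq
        omega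
      rw [h5]; group

/-- graph automorphisms act on the RAAG -/
def RAAG.mapAut {V : Type} {Γ : SimpleGraph V} (e : V → V) (he : ∀ a b, Γ.Adj a b → Γ.Adj (e a) (e b)) :
    RAAG Γ →* RAAG Γ :=
  RAAG.lift (fun v => RAAG.gen Γ (e v)) (fun a b h => RAAG.gen_comm (he a b h))

@[simp] theorem RAAG.mapAut_gen {V : Type} {Γ : SimpleGraph V} (e : V → V)
    (he : ∀ a b, Γ.Adj a b → Γ.Adj (e a) (e b)) (v : V) :
    RAAG.mapAut e he (RAAG.gen Γ v) = RAAG.gen Γ (e v) := RAAG.lift_gen _ _ _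

/-- action of a group acting on the graph -/
def RAAG.act {V : Type} (Γ : SimpleGraph V) (Q : Type) [Group Q] [MulAction Q V]
    (hQ : ∀ (q : Q) a b, Γ.Adj a b → Γ.Adj (q • a) (q • b)) : Q →* MulAut (RAAG Γ) where
  toFun q := MonoidHom.toMulEquiv (RAAG.mapAut (fun v => q • v) (hQ q))
    (RAAG.mapAut (fun v => q⁻¹ • v) (hQ q⁻¹))
    (by apply RAAG.hom_ext; intro v; simp)
    (by apply RAAG.hom_ext; intro v; simp)
  map_one' := by
    apply MulEquiv.toMonoidHom_injective
    apply RAAG.hom_ext; intro v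
    refine (RAAG.mapAut_gen (fun v => (1 : Q) • v) (hQ 1) v).trans ?_
    simp only [one_smul]; rfl
  map_mul' q q' := by
    apply MulEquiv.toMonoidHom_injective
    apply RAAG.hom_ext; intro v
    refine (RAAG.mapAut_gen (fun v => (q * q') • v) (hQ (q * q')) v).trans ?_
    refine Eq.trans ?_ (congrArg (RAAG.mapAut (fun v => q • v) (hQ q))
      (RAAG.mapAut_gen (fun v => q' • v) (hQ q') v)).symm
    rw [RAAG.mapAut_gen (fun v => q • v) (hQ q)]
    simp only [mul_smul]

theorem RAAG.act_gen {V : Type} (Γ : SimpleGraph V) (Q : Type) [Group Q] [MulAction Q V]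
    (hQ : ∀ (q : Q) a b, Γ.Adj a b → Γ.Adj (q • a) (q • b)) (q : Q) (v : V) :
    RAAG.act Γ Q hQ q (RAAG.gen Γ v) = RAAG.gen Γ (q • v) :=
  RAAG.mapAut_gen (fun v => q • v) (hQ q) v

section
variable {V : Type} {Γ : SimpleGraph V} {α : Type} [MulAction (FreeGroup α × FreeGroup α) V]
  {hQ : ∀ (q : FreeGroup α × FreeGroup α) a b, Γ.Adj a b → Γ.Adj (q • a) (q • b)}

/-- the semidirect product -/
abbrev GG (Γ : SimpleGraph V) (hQ : ∀ (q : FreeGroup α × FreeGroup α) a b,
    Γ.Adj a b → Γ.Adj (q • a) (q • b)) : Type :=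
  RAAG Γ ⋊[RAAG.act Γ (FreeGroup α × FreeGroup α) hQ] (FreeGroup α × FreeGroup α)

theorem WL_act (q : FreeGroup α × FreeGroup α) {r : ℕ} {g : RAAG Γ} (hg : WL (RAAG.gen Γ) r g) :
    WL (RAAG.gen Γ) r (RAAG.act Γ _ hQ q g) := by
  refine hg.map (RAAG.act Γ _ hQ q).toMonoidHom ?_
  intro v
  show WL _ 1 (RAAG.act Γ _ hQ q (RAAG.gen Γ v))
  rw [RAAG.act_gen]
  exact WL.gen _

variable [DecidableEq α]

theorem WL_left {ι : Type} {γ : ι → GG Γ hQ}
    (hγ : ∀ i, WL (RAAG.gen Γ) 1 (γ i).left ∧ FreeGroup.norm (γ i).right.1 ≤ 1 ∧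
      FreeGroup.norm (γ i).right.2 ≤ 1) {r : ℕ} {g : GG Γ hQ} (hg : WL γ r g) :
    WL (RAAG.gen Γ) r g.left ∧ FreeGroup.norm g.right.1 ≤ r ∧ FreeGroup.norm g.right.2 ≤ r := by
  obtain ⟨l, hl, rfl⟩ := hg
  suffices h : ∀ l : List (ι × Bool), WL (RAAG.gen Γ) l.length (FreeGroup.lift γ (FreeGroup.mk l)).left ∧
      FreeGroup.norm (FreeGroup.lift γ (FreeGroup.mk l)).right.1 ≤ l.length ∧
      FreeGroup.norm (FreeGroup.lift γ (FreeGroup.mk l)).right.2 ≤ l.length by
    obtain ⟨h1, h2, h3⟩ := h l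
    exact ⟨h1.mono hl, h2.trans hl, h3.trans hl⟩
  clear hl l
  intro l
  induction l with
  | nil =>
    rw [← FreeGroup.one_eq_mk, map_one]
    exact ⟨WL.one _, by simp, by simp⟩
  | cons a l ih =>
    have e : FreeGroup.mk (a :: l) = FreeGroup.mk [a] * FreeGroup.mk l := by
      rw [FreeGroup.mul_mk]; rfl
    have ha : WL (RAAG.gen Γ) 1 (FreeGroup.lift γ (FreeGroup.mk [a])).left ∧
      FreeGroup.norm (FreeGroup.lift γ (FreeGroup.mk [a])).right.1 ≤ 1 ∧
      FreeGroup.norm (FreeGroup.lift γ (FreeGroup.mk [a])).right.2 ≤ 1 := by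
      rcases a with ⟨i, b⟩
      obtain ⟨h1, h2, h3⟩ := hγ i
      cases b
      · have e2 : FreeGroup.lift γ (FreeGroup.mk [(i, false)]) = (γ i)⁻¹ := by simp
        rw [e2]
        refine ⟨?_, ?_, ?_⟩
        · rw [SemidirectProduct.inv_left]
          exact WL_act _ h1.inv
        · simpa using h2
        · simpa using h3
      · have e2 : FreeGroup.lift γ (FreeGroup.mk [(i, true)]) = γ i := by simp
        rw [e2]
        exact ⟨h1, h2, h3⟩
    rw [e, map_mul, List.length_cons, add_comm l.length 1]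
    refine ⟨?_, ?_, ?_⟩
    · rw [SemidirectProduct.mul_left]
      exact ha.1.mul (WL_act _ ih.1)
    · rw [SemidirectProduct.mul_right, Prod.fst_mul]
      exact (FreeGroup.norm_mul_le _ _).trans (add_le_add ha.2.1 ih.2.1)
    · rw [SemidirectProduct.mul_right, Prod.snd_mul]
      exact (FreeGroup.norm_mul_le _ _).trans (add_le_add ha.2.2 ih.2.2)

/-- growth of subgroups without free subgroups in the semidirect product. -/
theorem growth_GG {ι : Type} {γ : ι → GG Γ hQ}
    (hγ : ∀ i, WL (RAAG.gen Γ) 1 (γ i).left ∧ FreeGroup.norm (γ i).right.1 ≤ 1 ∧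
      FreeGroup.norm (γ i).right.2 ≤ 1)
    (hno : ¬ ∃ f : ℕ → V, ∀ i j, i < j → Γ.Adj (f i) (f j))
    (H : Subgroup (GG Γ hQ)) (hH : NF2 H) : PG γ H := by
  classical
  apply PG.of_cyclic ((MonoidHom.fst (FreeGroup α) (FreeGroup α)).comp SemidirectProduct.rightHom)
    (fun r g hg => (WL_left hγ hg).2.1) H hH
  apply PG.of_cyclic ((MonoidHom.snd (FreeGroup α) (FreeGroup α)).comp SemidirectProduct.rightHom)
    (fun r g hg => (WL_left hγ hg).2.2) _ (hH.mono inf_le_left)
  obtain ⟨C, k, hC⟩ := RAAG.growth Γ hno (H.comap SemidirectProduct.inl)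
    (hH.comap _ SemidirectProduct.inl_injective)
  refine ⟨C, k, fun r T hT => ?_⟩
  have hr : ∀ t ∈ T, t = SemidirectProduct.inl t.left := by
    intro t ht
    have h1 := (hT t ht).1.1.2
    have h2 := (hT t ht).1.2
    ext
    · simp
    · exact h1
    · exact h2
  rw [← Finset.card_image_of_injOn (s := T) (f := fun t => t.left)]
  · apply hC
    intro x hx
    rw [Finset.mem_image] at hx
    obtain ⟨t, ht, rfl⟩ := hx
    refine ⟨?_, (WL_left hγ (hT t ht).2).1⟩
    show SemidirectProduct.inl t.left ∈ H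
    rw [← hr t ht]
    exact (hT t ht).1.1.1
  · intro s hs t ht hst
    rw [hr s hs, hr t ht]
    exact congrArg _ hst

end

end Pool.Agent.W379
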